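import Pool.Agent.W661.NrmDefs

/-! # Norming of intermediate algebras; inclusion of reduced crossed products -/

set_option autoImplicit false

open scoped CStarAlgebra ComplexOrder

namespace Pool.Agent.V1215.NI

open Pool.Agent.W661.Nrm

universe u v w z

/-- norming passes to intermediate algebras -/
theorem norms_sub {A : Type u} {B : Type v} {D : Type z} [CStarAlgebra A] [CStarAlgebra B]
    [PartialOrder B] [StarOrderedRing B] [CStarAlgebra D] [PartialOrder D] [StarOrderedRing D]
    (ι : A →⋆ₐ[ℂ] B) (hN : Norms ι) (κ : D →⋆ₐ[ℂ] B) (hκ : Function.Injective κ)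
    (ι' : A →⋆ₐ[ℂ] D) (h : ∀ a, κ (ι' a) = ι a) : Norms ι' := by
  intro k hk X
  set φ : CStarMatrix (Fin k) (Fin k) D →⋆ₙₐ[ℂ] CStarMatrix (Fin k) (Fin k) B :=
    CStarMatrix.mapₙₐ (κ : D →⋆ₙₐ[ℂ] B) with hφ
  have hφa : ∀ (X : CStarMatrix (Fin k) (Fin k) D) i l, φ X i l = κ (X i l) := fun X i l => rfl
  have hφi : Function.Injective φ := by
    intro X Y hXY
    ext i l
    apply hκ
    rw [← hφa, ← hφa, hXY]
  have h1 : ‖φ X‖ = ‖X‖ := NonUnitalStarAlgHom.norm_map φ hφi X
  have h2 := hN k hk (φ X)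
  rw [h1] at h2
  have h3 : ∀ r c : Fin k → A, ‖∑ i, ∑ l, ι (r i) * φ X i l * ι (c l)‖ =
      ‖∑ i, ∑ l, ι' (r i) * X i l * ι' (c l)‖ := by
    intro r c
    rw [← NonUnitalStarAlgHom.norm_map κ hκ (∑ i, ∑ l, ι' (r i) * X i l * ι' (c l))]
    congr 1
    rw [map_sum]
    refine Finset.sum_congr rfl fun i _ => ?_
    rw [map_sum]
    refine Finset.sum_congr rfl fun l _ => ?_
    rw [map_mul, map_mul, h, h, hφa]
  simpa only [h3] using h2

section
variable {A I : Type u} {B : Type v} {D : Type z} {G : Type w} [CStarAlgebra A] [PartialOrder A]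
  [StarOrderedRing A] [CStarAlgebra I] [PartialOrder I] [StarOrderedRing I] [CStarAlgebra B]
  [CStarAlgebra D] [Group G] {α : G →* (A ≃⋆ₐ[ℂ] A)} {β : G →* (I ≃⋆ₐ[ℂ] I)} {j : A →⋆ₐ[ℂ] I}
  {ι : I →⋆ₐ[ℂ] B} {u : G →* unitary B} {E : B →L[ℂ] I} {ι' : A →⋆ₐ[ℂ] D} {u' : G →* unitary D}
  {E' : D →L[ℂ] A}

/-- products of the generators -/
lemma gen_mul (h : IsReducedCrossedProduct β ι u E) (x y : I) (g k : G) :
    (ι x * (u g : B)) * (ι y * (u k : B)) = ι (x * β g y) * (u (g * k) : B) := by
  rw [map_mul, ← h.cov g y, map_mul]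
  simp only [Submonoid.coe_mul, mul_assoc]
  rw [← mul_assoc (star (u g : B)), Unitary.coe_star_mul_self, one_mul]

lemma gen_star (h : IsReducedCrossedProduct β ι u E) (x : I) (g : G) :
    star (ι x * (u g : B)) = ι (β g⁻¹ (star x)) * (u g⁻¹ : B) := by
  rw [← h.cov, star_mul, ← map_star, map_inv, mul_assoc]
  have h1 : (((u g)⁻¹ : unitary B) : B) = star (u g : B) := rfl
  rw [h1, star_star, Unitary.mul_star_self_of_mem (u g).2, mul_one]

/-- The reduced crossed product of a subalgebra is a subalgebra of the reduced crossed product. -/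
theorem embed (hβ : ∀ g a, β g (j a) = j (α g a)) (hj : Function.Injective j)
    (hB : IsReducedCrossedProduct β ι u E) (hD : IsReducedCrossedProduct α ι' u' E') :
    ∃ κ : D →⋆ₐ[ℂ] B, Function.Injective κ ∧ (∀ a, κ (ι' a) = ι (j a)) ∧
      ∀ g, κ (u' g : D) = (u g : B) := by
  set gn : A × G → D × B := fun p => (ι' p.1 * (u' p.2 : D), ι (j p.1) * (u p.2 : B)) with hgn
  set M : Submodule ℂ (D × B) := Submodule.span ℂ (Set.range gn) with hM
  have hgM : ∀ p, gn p ∈ M := fun p => Submodule.subset_span ⟨p, rfl⟩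
  have h1M : (1 : D × B) ∈ M := by
    have h1 : gn (1, 1) = 1 := by
      rw [hgn]
      simp only [map_one, OneMemClass.coe_one, mul_one]
      rfl
    rw [← h1]
    exact hgM _
  have hmulg : ∀ p q, gn p * gn q = gn (p.1 * α p.2 q.1, p.2 * q.2) := by
    intro p q
    rw [hgn]
    simp only [Prod.mk_mul_mk]
    rw [gen_mul hD, gen_mul hB, hβ, ← map_mul]
  have hstarg : ∀ p, star (gn p) = gn (α p.2⁻¹ (star p.1), p.2⁻¹) := by
    intro p
    rw [hgn]
    show (star (ι' p.1 * (u' p.2 : D)), star (ι (j p.1) * (u p.2 : B))) = _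
    rw [gen_star hD, gen_star hB, ← map_star j, hβ]
  have hMM : ∀ x y, x ∈ M → y ∈ M → x * y ∈ M := by
    intro x y hx hy
    have h1 : M * M ≤ M := by
      rw [hM, Submodule.span_mul_span, Submodule.span_le]
      rintro _ ⟨_, ⟨p, rfl⟩, _, ⟨q, rfl⟩, rfl⟩
      simp only [hmulg]
      exact hgM _
    exact h1 (Submodule.mul_mem_mul hx hy)
  have hMs : ∀ x, x ∈ M → star x ∈ M := by
    intro x hx
    induction hx using Submodule.span_induction with
    | mem x hx =>
      obtain ⟨p, rfl⟩ := hx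
      rw [hstarg]
      exact hgM _
    | zero => rw [star_zero]; exact M.zero_mem
    | add x y _ _ h1 h2 => rw [star_add]; exact M.add_mem h1 h2
    | smul c x _ h1 => rw [star_smul]; exact M.smul_mem _ h1
  set S0 : StarSubalgebra ℂ (D × B) :=
    { M.toSubalgebra h1M hMM with star_mem' := fun {x} hx => hMs x hx } with hS0
  set S : StarSubalgebra ℂ (D × B) := S0.topologicalClosure with hS
  have hcl : IsClosed (S : Set (D × B)) := S0.isClosed_topologicalClosure
  have : IsClosed (S : Set (D × B)) := hcl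
  -- the expectations agree
  have hE0 : ∀ x ∈ M, E x.2 = j (E' x.1) := by
    intro x hx
    induction hx using Submodule.span_induction with
    | mem x hx =>
      obtain ⟨p, rfl⟩ := hx
      by_cases hp : p.2 = 1
      · show E (ι (j p.1) * (u p.2 : B)) = j (E' (ι' p.1 * (u' p.2 : D)))
        rw [hp, map_one, map_one, OneMemClass.coe_one, OneMemClass.coe_one, mul_one, mul_one,
          hB.coeff_one, hD.coeff_one]
      · show E (ι (j p.1) * (u p.2 : B)) = j (E' (ι' p.1 * (u' p.2 : D)))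
        rw [hB.coeff_ne _ _ hp, hD.coeff_ne _ _ hp, map_zero]
    | zero => simp
    | add x y _ _ h1 h2 =>
      rw [Prod.snd_add, Prod.fst_add, map_add, map_add, map_add, h1, h2]
    | smul c x _ h1 =>
      rw [Prod.smul_snd, Prod.smul_fst, map_smul, map_smul, map_smul, h1]
  have hE : ∀ x ∈ S, E x.2 = j (E' x.1) := by
    have hj : Continuous j := map_continuous j
    have h1 : IsClosed {x : D × B | E x.2 = j (E' x.1)} := by
      refine isClosed_eq ?_ ?_
      · exact E.continuous.comp continuous_snd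
      · exact hj.comp (E'.continuous.comp continuous_fst)
    have h2 : (S : Set (D × B)) ⊆ {x : D × B | E x.2 = j (E' x.1)} := by
      rw [hS, StarSubalgebra.topologicalClosure_coe]
      exact closure_minimal (fun x hx => hE0 x hx) h1
    exact fun x hx => h2 hx
  set p1 : S →⋆ₐ[ℂ] D := (StarAlgHom.fst ℂ D B).comp S.subtype with hp1
  set p2 : S →⋆ₐ[ℂ] B := (StarAlgHom.snd ℂ D B).comp S.subtype with hp2
  have hp1a : ∀ x : S, p1 x = (x : D × B).1 := fun x => rfl
  have hp2a : ∀ x : S, p2 x = (x : D × B).2 := fun x => rfl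
  have hi1 : Function.Injective p1 := by
    rw [injective_iff_map_eq_zero]
    intro x hx
    rw [hp1a] at hx
    have h1 := hE (star (x : D × B) * (x : D × B)) (mul_mem (star_mem x.2) x.2)
    have h2 : (star (x : D × B) * (x : D × B)).1 = star (x : D × B).1 * (x : D × B).1 := rfl
    have h3 : (star (x : D × B) * (x : D × B)).2 = star (x : D × B).2 * (x : D × B).2 := rfl
    rw [h2, h3, hx, mul_zero, map_zero, map_zero] at h1
    have h4 := hB.faithful _ h1
    exact Subtype.ext (Prod.ext hx h4)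
  have hi2 : Function.Injective p2 := by
    rw [injective_iff_map_eq_zero]
    intro x hx
    rw [hp2a] at hx
    have h1 := hE (star (x : D × B) * (x : D × B)) (mul_mem (star_mem x.2) x.2)
    have h2 : (star (x : D × B) * (x : D × B)).1 = star (x : D × B).1 * (x : D × B).1 := rfl
    have h3 : (star (x : D × B) * (x : D × B)).2 = star (x : D × B).2 * (x : D × B).2 := rfl
    rw [h2, h3, hx, mul_zero, map_zero] at h1
    have h4 : E' (star (x : D × B).1 * (x : D × B).1) = 0 := hj (by rw [← h1, map_zero])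
    exact Subtype.ext (Prod.ext (hD.faithful _ h4) hx)
  have hMS : ∀ x ∈ M, x ∈ S := fun x hx => S0.le_topologicalClosure hx
  have hiso : Isometry p1 := NonUnitalStarAlgHom.isometry p1 hi1
  have hsurj : Function.Surjective p1 := by
    have h1 : IsClosed (Set.range p1) := hiso.isClosedEmbedding.isClosed_range
    have h2 : DenseRange p1 := by
      refine Dense.mono ?_ hD.dense
      rintro _ ⟨c, rfl⟩
      have h3 : c.sum (fun g a => gn (a, g)) ∈ M :=
        Submodule.sum_mem _ fun g _ => hgM _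
      refine ⟨⟨_, hMS _ h3⟩, ?_⟩
      rw [hp1a]
      simp only [Finsupp.sum, Prod.fst_sum, hgn]
    rw [← Set.range_eq_univ, ← h1.closure_eq, h2.closure_range]
  set e : S ≃⋆ₐ[ℂ] D := StarAlgEquiv.ofBijective p1 ⟨hi1, hsurj⟩ with he
  have hea : ∀ x, e x = p1 x := fun x => rfl
  refine ⟨p2.comp (e.symm : D →⋆ₐ[ℂ] S), ?_, ?_, ?_⟩
  · intro x y hxy
    exact e.symm.injective (hi2 hxy)
  · intro a
    have h1 : gn (a, 1) ∈ S := hMS _ (hgM _)
    have h2 : e ⟨gn (a, 1), h1⟩ = ι' a := by
      rw [hea, hp1a]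
      simp only [hgn, map_one, OneMemClass.coe_one, mul_one]
    show p2 (e.symm (ι' a)) = _
    rw [← h2, StarAlgEquiv.symm_apply_apply, hp2a]
    simp only [hgn, map_one, OneMemClass.coe_one, mul_one]
  · intro g
    have h1 : gn (1, g) ∈ S := hMS _ (hgM _)
    have h2 : e ⟨gn (1, g), h1⟩ = (u' g : D) := by
      rw [hea, hp1a]
      simp only [hgn, map_one, one_mul]
    show p2 (e.symm (u' g : D)) = _
    rw [← h2, StarAlgEquiv.symm_apply_apply, hp2a]
    simp only [hgn, map_one, one_mul]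

end

end Pool.Agent.V1215.NI
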