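import Pool.Agent.V1215.NI.Stm

/-! # Matrices of coefficients -/

set_option autoImplicit false

open scoped CStarAlgebra ComplexOrder InnerProductSpace
open ContinuousLinearMap

namespace Pool.Agent.V1215.NI

open Pool.Agent.W661.Nrm

universe u v w

section
variable {I B G : Type*} [CStarAlgebra I] [PartialOrder I] [StarOrderedRing I]
  [CStarAlgebra B] [PartialOrder B] [StarOrderedRing B] [Group G] {β : G →* (I ≃⋆ₐ[ℂ] I)}
  {ι : I →⋆ₐ[ℂ] B} {u : G →* unitary B} {E : B →L[ℂ] I} {k f : ℕ}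

/-- the matrix of coefficients -/
noncomputable def YF (u : G →* unitary B) (E : B →L[ℂ] I) (γ : Fin f → G)
    (Y : CStarMatrix (Fin k) (Fin k) B) : CStarMatrix (Fin (k * f)) (Fin (k * f)) I :=
  CStarMatrix.ofMatrix fun p q =>
    E (star (u (γ (finProdFinEquiv.symm p).2) : B) *
      Y (finProdFinEquiv.symm p).1 (finProdFinEquiv.symm q).1 *
      (u (γ (finProdFinEquiv.symm q).2) : B))

omit [PartialOrder I] [StarOrderedRing I] [PartialOrder B] [StarOrderedRing B] in
lemma YF_apply (γ : Fin f → G) (Y : CStarMatrix (Fin k) (Fin k) B) (p q : Fin (k * f)) :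
    YF u E γ Y p q = E (star (u (γ (finProdFinEquiv.symm p).2) : B) *
      Y (finProdFinEquiv.symm p).1 (finProdFinEquiv.symm q).1 *
      (u (γ (finProdFinEquiv.symm q).2) : B)) := rfl

/-- the vector -/
noncomputable def ww (ι : I →⋆ₐ[ℂ] B) (u : G →* unitary B) (γ : Fin f → G)
    (z : Fin (k * f) → I) (i : Fin k) : B :=
  ∑ s, (u (γ s) : B) * ι (z (finProdFinEquiv (i, s)))

lemma sum_prod {M : Type*} [AddCommMonoid M] (g : Fin (k * f) → M) :
    ∑ p, g p = ∑ i : Fin k, ∑ s : Fin f, g (finProdFinEquiv (i, s)) := by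
  rw [← finProdFinEquiv.sum_comp, Fintype.sum_prod_type]

lemma bil_YF (h : IsReducedCrossedProduct β ι u E) (γ : Fin f → G)
    (Y : CStarMatrix (Fin k) (Fin k) B) (z : Fin (k * f) → I) :
    bil (YF u E γ Y) z z = E (bil Y (ww ι u γ z) (ww ι u γ z)) := by
  unfold bil
  rw [sum_prod, map_sum]
  refine Finset.sum_congr rfl fun i _ => ?_
  have h1 : ∀ s, (∑ q, star (z (finProdFinEquiv (i, s))) * YF u E γ Y (finProdFinEquiv (i, s)) q *
      z q) = ∑ l, ∑ t, E (star ((u (γ s) : B) * ι (z (finProdFinEquiv (i, s)))) * Y i l *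
        ((u (γ t) : B) * ι (z (finProdFinEquiv (l, t))))) := by
    intro s
    rw [sum_prod]
    refine Finset.sum_congr rfl fun l _ => Finset.sum_congr rfl fun t _ => ?_
    rw [YF_apply, Equiv.symm_apply_apply, Equiv.symm_apply_apply, ← h.E_bimod]
    congr 1
    rw [star_mul, map_star]
    simp only [mul_assoc]
  simp only [h1]
  rw [Finset.sum_comm, map_sum]
  refine Finset.sum_congr rfl fun l _ => ?_
  unfold ww
  rw [star_sum, Finset.sum_mul, Finset.sum_mul, map_sum]
  refine Finset.sum_congr rfl fun s _ => ?_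
  rw [Finset.mul_sum, map_sum]

lemma ip_YF (h : IsReducedCrossedProduct β ι u E) {γ : Fin f → G} (hγ : Function.Injective γ)
    (z : Fin (k * f) → I) :
    E (ip (ww ι u γ z) (ww ι u γ z)) = ∑ p, star (z p) * z p := by
  unfold ip
  rw [map_sum, sum_prod]
  refine Finset.sum_congr rfl fun i _ => ?_
  unfold ww
  rw [star_sum, Finset.sum_mul_sum, map_sum]
  refine Finset.sum_congr rfl fun s hs => ?_
  rw [map_sum, Finset.sum_eq_single_of_mem s hs]
  · rw [star_mul, mul_assoc, ← mul_assoc (star (u (γ s) : B)), IsReducedCrossedProduct.star_mul_u,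
      one_mul, ← map_star, ← map_mul, h.coeff_one]
  · intro t _ hts
    have h1 : star ((u (γ s) : B) * ι (z (finProdFinEquiv (i, s)))) *
        ((u (γ t) : B) * ι (z (finProdFinEquiv (i, t)))) =
        ι (star (z (finProdFinEquiv (i, s)))) * (u ((γ s)⁻¹ * γ t) : B) *
          ι (z (finProdFinEquiv (i, t))) := by
      rw [star_mul, IsReducedCrossedProduct.star_u, ← IsReducedCrossedProduct.u_mul_u, map_star]
      simp only [mul_assoc]
    have hne : (γ s)⁻¹ * γ t ≠ 1 := by
      intro h2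
      exact hts (hγ (inv_mul_eq_one.1 h2)).symm
    have h2 : E (u ((γ s)⁻¹ * γ t) : B) = 0 := by
      have := h.coeff_ne ((γ s)⁻¹ * γ t) 1 hne
      rwa [map_one, one_mul] at this
    rw [h1, h.E_bimod, h2, mul_zero, zero_mul]

lemma bil_smul_one {C : Type*} [CStarAlgebra C] [PartialOrder C] [StarOrderedRing C] {n : ℕ}
    (m : ℂ) (z : Fin n → C) :
    bil (m • (1 : CStarMatrix (Fin n) (Fin n) C)) z z = m • ∑ p, star (z p) * z p := by
  unfold bil
  rw [Finset.smul_sum]
  refine Finset.sum_congr rfl fun p _ => ?_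
  rw [Finset.sum_eq_single p]
  · rw [CStarMatrix.smul_apply, CStarMatrix.one_apply_eq, mul_smul_comm, mul_one, smul_mul_assoc]
  · intro q _ hq
    rw [CStarMatrix.smul_apply, CStarMatrix.one_apply_ne (Ne.symm hq), smul_zero, mul_zero,
      zero_mul]
  · intro h
    exact absurd (Finset.mem_univ p) h

lemma bil_sub {C : Type*} [CStarAlgebra C] [PartialOrder C] [StarOrderedRing C] {n : ℕ}
    (X Y : CStarMatrix (Fin n) (Fin n) C) (z : Fin n → C) :
    bil (X - Y) z z = bil X z z - bil Y z z := by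
  unfold bil
  rw [← Finset.sum_sub_distrib]
  refine Finset.sum_congr rfl fun i _ => ?_
  rw [← Finset.sum_sub_distrib]
  refine Finset.sum_congr rfl fun l _ => ?_
  rw [CStarMatrix.sub_apply, mul_sub, sub_mul]

end

theorem g1 : S_G1.{u, v, w} := by
  intro I B G _ _ _ _ _ _ _ β ι u E h k Y hY m hm hmY
  classical
  obtain ⟨F, c, hc⟩ := exists_vector h Y hY hm hmY
  let γ : Fin F.card → G := fun i => (F.equivFin.symm i).1
  have hγ : Function.Injective γ := fun a b hab => F.equivFin.symm.injective (Subtype.ext hab)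
  refine ⟨F.card, γ, hγ, fun hcon => hc ?_⟩
  have h1 := bil_nonneg _ hcon (fun p => c (γ (finProdFinEquiv.symm p).2) (finProdFinEquiv.symm p).1)
  have h2 : bil ((m : ℂ) • (1 : CStarMatrix (Fin (k * F.card)) (Fin (k * F.card)) I) - YF u E γ Y)
      (fun p => c (γ (finProdFinEquiv.symm p).2) (finProdFinEquiv.symm p).1)
      (fun p => c (γ (finProdFinEquiv.symm p).2) (finProdFinEquiv.symm p).1) =
      -(E (bil Y (fun i => ∑ s ∈ F, (u s : B) * ι (c s i))
        (fun i => ∑ s ∈ F, (u s : B) * ι (c s i))) -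
          m • ∑ s ∈ F, ∑ i, star (c s i) * c s i) := by
    rw [bil_sub, bil_smul_one, bil_YF h]
    have e1 : (ww ι u γ fun p => c (γ (finProdFinEquiv.symm p).2) (finProdFinEquiv.symm p).1) =
        fun i : Fin k => ∑ s ∈ F, (u s : B) * ι (c s i) := by
      funext i
      unfold ww
      simp only [Equiv.symm_apply_apply]
      rw [← Finset.sum_coe_sort F (fun s => (u s : B) * ι (c s i)),
        ← F.equivFin.symm.sum_comp (fun s : F => (u (s : G) : B) * ι (c s i))]
    have e2 : (∑ p : Fin (k * F.card), star (c (γ (finProdFinEquiv.symm p).2)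
        (finProdFinEquiv.symm p).1) * c (γ (finProdFinEquiv.symm p).2)
        (finProdFinEquiv.symm p).1) = ∑ s ∈ F, ∑ i, star (c s i) * c s i := by
      rw [sum_prod, Finset.sum_comm]
      simp only [Equiv.symm_apply_apply]
      rw [← Finset.sum_coe_sort F (fun s => ∑ i, star (c s i) * c s i),
        ← F.equivFin.symm.sum_comp (fun s : F => ∑ i, star (c s i) * c s i)]
    rw [e1, e2, neg_sub, Complex.coe_smul]
  rw [← neg_nonneg]
  rw [← h2]
  exact h1

theorem g2 : S_G2.{u, v, w} := by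
  intro I B G _ _ _ _ _ _ _ β ι u E h H _ _ _ Θ h1 hcp k Y hY f γ hγ ξ
  have hYs : star Y = Y := (IsSelfAdjoint.of_nonneg hY).star_eq
  have hle : 0 ≤ ((‖Y‖ : ℝ) : ℂ) • (1 : CStarMatrix (Fin k) (Fin k) B) - Y := by
    have h2 := (IsSelfAdjoint.of_nonneg hY).le_algebraMap_norm_self
    rw [Algebra.algebraMap_eq_smul_one, ← Complex.coe_smul] at h2
    exact sub_nonneg.2 h2
  have hM : 0 ≤ ((‖Y‖ : ℝ) : ℂ) • (1 : CStarMatrix (Fin (k * f)) (Fin (k * f)) I) -
      YF u E γ Y := by
    refine nonneg_of_bil _ ?_ ?_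
    · rw [IsSelfAdjoint, star_sub, star_smul, star_one, Complex.star_def, Complex.conj_ofReal]
      congr 1
      ext p q
      rw [CStarMatrix.star_apply, YF_apply, YF_apply, ← h.E_star, star_mul, star_mul, star_star,
        ← CStarMatrix.star_apply, hYs, mul_assoc]
    · intro z
      have e1 : bil (((‖Y‖ : ℝ) : ℂ) • (1 : CStarMatrix (Fin (k * f)) (Fin (k * f)) I) -
          YF u E γ Y) z z = E (bil (((‖Y‖ : ℝ) : ℂ) • (1 : CStarMatrix (Fin k) (Fin k) B) - Y)
            (ww ι u γ z) (ww ι u γ z)) := by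
        rw [bil_sub, bil_smul_one, bil_YF h, bil_sub, bil_smul_one, map_sub, map_smul]
        congr 2
        exact (ip_YF h hγ z).symm
      rw [e1]
      exact h.E_nonneg (bil_nonneg _ hle _)
  have h3 := hcp _ _ hM (fun p => ξ (finProdFinEquiv.symm p).1 (finProdFinEquiv.symm p).2)
  have h4 : (∑ p, ∑ q, ⟪ξ (finProdFinEquiv.symm p).1 (finProdFinEquiv.symm p).2,
      Θ ((((‖Y‖ : ℝ) : ℂ) • (1 : CStarMatrix (Fin (k * f)) (Fin (k * f)) I) - YF u E γ Y) p q)
        (ξ (finProdFinEquiv.symm q).1 (finProdFinEquiv.symm q).2)⟫_ℂ) =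
      ((‖Y‖ * ∑ i, ∑ s, ‖ξ i s‖ ^ 2 : ℝ) : ℂ) - ∑ i, ∑ s, ∑ l, ∑ t,
        ⟪ξ i s, Θ (E (star (u (γ s) : B) * Y i l * (u (γ t) : B))) (ξ l t)⟫_ℂ := by
    have e1 : ∀ p q : Fin (k * f), ⟪ξ (finProdFinEquiv.symm p).1 (finProdFinEquiv.symm p).2,
      Θ ((((‖Y‖ : ℝ) : ℂ) • (1 : CStarMatrix (Fin (k * f)) (Fin (k * f)) I) - YF u E γ Y) p q)
        (ξ (finProdFinEquiv.symm q).1 (finProdFinEquiv.symm q).2)⟫_ℂ =
        (if p = q then ((‖Y‖ : ℝ) : ℂ) *
          ((‖ξ (finProdFinEquiv.symm p).1 (finProdFinEquiv.symm p).2‖ ^ 2 : ℝ) : ℂ) else 0) -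
        ⟪ξ (finProdFinEquiv.symm p).1 (finProdFinEquiv.symm p).2, Θ (YF u E γ Y p q)
          (ξ (finProdFinEquiv.symm q).1 (finProdFinEquiv.symm q).2)⟫_ℂ := by
      intro p q
      rw [CStarMatrix.sub_apply, map_sub, sub_apply, inner_sub_right]
      congr 1
      rw [CStarMatrix.smul_apply]
      split_ifs with hpq
      · subst hpq
        rw [CStarMatrix.one_apply_eq, map_smul, h1, smul_apply, one_apply_eq_self, inner_smul_right,
          inner_self_eq_norm_sq_to_K]
        push_cast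
        rfl
      · rw [CStarMatrix.one_apply_ne hpq, smul_zero, map_zero, zero_apply, inner_zero_right]
    simp only [e1, Finset.sum_sub_distrib]
    congr 1
    · simp only [Finset.sum_ite_eq, Finset.mem_univ, if_true]
      rw [sum_prod]
      simp only [Equiv.symm_apply_apply]
      push_cast
      rw [Finset.mul_sum]
      refine Finset.sum_congr rfl fun i _ => ?_
      rw [Finset.mul_sum]
    · rw [sum_prod]
      refine Finset.sum_congr rfl fun i _ => Finset.sum_congr rfl fun s _ => ?_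
      rw [sum_prod]
      refine Finset.sum_congr rfl fun l _ => Finset.sum_congr rfl fun t _ => ?_
      rw [YF_apply, Equiv.symm_apply_apply, Equiv.symm_apply_apply]
  rw [h4] at h3
  have h5 := (Complex.le_def.1 h3).1
  rw [Complex.zero_re, Complex.sub_re, Complex.ofReal_re] at h5
  linarith

end Pool.Agent.V1215.NI
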