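import Pool.Agent.V1215.NI.Gen
import Pool.Agent.V1215.NI.GG

/-! # Preparations for the assembly -/

set_option autoImplicit false

open scoped CStarAlgebra ComplexOrder InnerProductSpace
open ContinuousLinearMap

namespace Pool.Agent.V1215.NI

open Pool.Agent.W661.Nrm

universe u v w

section big
variable {H : Type*} [NormedAddCommGroup H] [InnerProductSpace ℂ H]

lemma big_cons {n : ℕ} (v : Fin n → H) (hv : Orthonormal ℂ v) (x : H) (hx : ‖x‖ = 1)
    (ho : ∀ i, ⟪x, v i⟫_ℂ = 0) : Big (n + 1) H := by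
  refine ⟨Fin.cons x v, ?_, ?_⟩
  · intro i
    refine Fin.cases ?_ (fun i => ?_) i
    · simpa using hx
    · simpa using hv.1 i
  · intro i l
    refine Fin.cases ?_ (fun i => ?_) i
    · refine Fin.cases ?_ (fun l => ?_) l
      · intro h; exact absurd rfl h
      · intro _
        simpa using ho l
    · refine Fin.cases ?_ (fun l => ?_) l
      · intro _
        show ⟪(Fin.cons x v : Fin (n + 1) → H) i.succ, (Fin.cons x v : Fin (n + 1) → H) 0⟫_ℂ = 0
        rw [Fin.cons_succ, Fin.cons_zero, ← inner_conj_symm, ho i, map_zero]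
      · intro h
        show ⟪(Fin.cons x v : Fin (n + 1) → H) i.succ, (Fin.cons x v : Fin (n + 1) → H) l.succ⟫_ℂ = 0
        rw [Fin.cons_succ, Fin.cons_succ]
        exact hv.2 (fun h' => h (by rw [h']))

lemma fd_of_not_big [CompleteSpace H] {N : ℕ} (h : ¬ Big N H) : FiniteDimensional ℂ H := by
  by_contra hfd
  apply h
  have key : ∀ n, Big n H := by
    intro n
    induction n with
    | zero => exact ⟨fun i => i.elim0, ⟨fun i => i.elim0, fun i => i.elim0⟩⟩
    | succ n ih =>
      obtain ⟨v, hv⟩ := ih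
      set K : Submodule ℂ H := Submodule.span ℂ (Set.range v) with hK
      have hKf : FiniteDimensional ℂ K := FiniteDimensional.span_of_finite ℂ (Set.finite_range v)
      have hne : Kᗮ ≠ ⊥ := by
        intro h0
        have h1 : K = ⊤ := (Submodule.orthogonal_eq_bot_iff).1 h0
        apply hfd
        rw [h1] at hKf
        exact Module.Finite.of_surjective (⊤ : Submodule ℂ H).subtype
          (fun x => ⟨⟨x, trivial⟩, rfl⟩)
      obtain ⟨x, hx, hx0⟩ := Submodule.exists_mem_ne_zero_of_ne_bot hne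
      have hn : 0 < ‖x‖ := norm_pos_iff.2 hx0
      refine big_cons v hv (((‖x‖⁻¹ : ℝ) : ℂ) • x) ?_ ?_
      · rw [norm_smul, Complex.norm_real, norm_inv, norm_norm, inv_mul_cancel₀ hn.ne']
      · intro i
        rw [inner_smul_left]
        have h2 : ⟪x, v i⟫_ℂ = 0 := by
          rw [← inner_conj_symm]
          have := (Submodule.mem_orthogonal K x).1 hx (v i) (Submodule.subset_span ⟨i, rfl⟩)
          rw [this, map_zero]
        rw [h2, mul_zero]
  exact key N

end big

section sub
variable {A : Type*} [CStarAlgebra A] {H : Type*} [NormedAddCommGroup H] [InnerProductSpace ℂ H]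
  [CompleteSpace H]

/-- the restriction of a representation to an invariant subspace -/
lemma sub_rep (τ : A →⋆ₐ[ℂ] (H →L[ℂ] H)) (K : Submodule ℂ H) [CompleteSpace K]
    (hK : ∀ a, ∀ x ∈ K, τ a x ∈ K) :
    ∃ ρ : A →⋆ₐ[ℂ] (K →L[ℂ] K), ∀ a (x : K), (ρ a x : H) = τ a x := by
  let R : A → (K →L[ℂ] K) := fun a =>
    ((τ a) ∘L K.subtypeL).codRestrict K (fun x => hK a x x.2)
  have hR : ∀ a (x : K), (R a x : H) = τ a x := fun a x => rfl
  refine ⟨{ toFun := R
            map_one' := ?_
            map_mul' := ?_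
            map_zero' := ?_
            map_add' := ?_
            commutes' := ?_
            map_star' := ?_ }, hR⟩
  · ext x
    rw [hR, map_one]
    rfl
  · intro a b
    ext x
    rw [hR, map_mul]
    rfl
  · ext x
    rw [hR, map_zero]
    rfl
  · intro a b
    ext x
    rw [hR, map_add]
    rfl
  · intro r
    ext x
    rw [hR, AlgHomClass.commutes]
    simp [Algebra.algebraMap_eq_smul_one]
  · intro a
    rw [star_eq_adjoint]
    refine (ContinuousLinearMap.eq_adjoint_iff _ _).2 fun x y => ?_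
    rw [Submodule.coe_inner, Submodule.coe_inner, hR, hR, pi_inner, star_star]

/-- a representation on a small space in which every subrepresentation not killing `w` is large
is irreducible -/
lemma irr_of_small (τ : A →⋆ₐ[ℂ] (H →L[ℂ] H)) {n : ℕ} (hs : ¬ Big (n + 1) H) {w : A}
    (hw : τ w ≠ 0)
    (hsub : ∀ (K : Submodule ℂ H) [CompleteSpace K] (ρ : A →⋆ₐ[ℂ] (K →L[ℂ] K)), ρ w ≠ 0 → Big n K) :
    Irr τ := by
  have hfd : FiniteDimensional ℂ H := fd_of_not_big hs
  -- invariant subspaces are trivial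
  have key : ∀ K : Submodule ℂ H, (∀ a, ∀ x ∈ K, τ a x ∈ K) → K ≠ ⊥ → K = ⊤ := by
    intro K hK hK0
    by_contra hK1
    have hc1 : CompleteSpace K := FiniteDimensional.complete ℂ K
    have hc2 : CompleteSpace Kᗮ := FiniteDimensional.complete ℂ Kᗮ
    have hKo : ∀ a, ∀ x ∈ Kᗮ, τ a x ∈ Kᗮ := by
      intro a x hx
      rw [Submodule.mem_orthogonal] at hx ⊢
      intro y hy
      have := hx _ (hK (star a) y hy)
      rwa [pi_inner, star_star] at this
    have hKo0 : Kᗮ ≠ ⊥ := fun h => hK1 ((Submodule.orthogonal_eq_bot_iff).1 h)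
    have step : ∀ L : Submodule ℂ H, (∀ a, ∀ x ∈ L, τ a x ∈ L) → Lᗮ ≠ ⊥ → ∀ x ∈ L, τ w x = 0 := by
      intro L hL hL0 x hx
      by_contra hx0
      have hc : CompleteSpace L := FiniteDimensional.complete ℂ L
      obtain ⟨ρ, hρ⟩ := sub_rep τ L hL
      obtain ⟨v, hv⟩ := hsub L ρ (by
        intro h
        apply hx0
        rw [← hρ w ⟨x, hx⟩, h]
        rfl)
      obtain ⟨y, hy, hy0⟩ := Submodule.exists_mem_ne_zero_of_ne_bot hL0
      have hn : 0 < ‖y‖ := norm_pos_iff.2 hy0
      apply hs
      refine big_cons (fun i => (v i : H)) ⟨fun i => hv.1 i, fun i l hil => hv.2 hil⟩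
        (((‖y‖⁻¹ : ℝ) : ℂ) • y) ?_ ?_
      · rw [norm_smul, Complex.norm_real, norm_inv, norm_norm, inv_mul_cancel₀ hn.ne']
      · intro i
        rw [inner_smul_left]
        have h2 : ⟪y, (v i : H)⟫_ℂ = 0 := by
          rw [← inner_conj_symm]
          have := (Submodule.mem_orthogonal L y).1 hy (v i) (v i).2
          rw [this, map_zero]
        rw [h2, mul_zero]
    apply hw
    ext x
    have h1 := Submodule.starProjection_add_starProjection_orthogonal (K := K) x
    rw [← h1, map_add, step K hK hKo0 _ (Submodule.starProjection_apply_mem K x),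
      step Kᗮ hKo (by rwa [Submodule.orthogonal_orthogonal]) _
        (Submodule.starProjection_apply_mem Kᗮ x), add_zero, zero_apply]
  have hnt : Nontrivial H := by
    by_contra h
    have := not_nontrivial_iff_subsingleton.1 h
    exact hw (ContinuousLinearMap.ext fun x => Subsingleton.elim _ _)
  intro T hT
  obtain ⟨μ, hμ⟩ := Module.End.exists_eigenvalue (T : H →ₗ[ℂ] H)
  refine ⟨μ, ?_⟩
  have h1 := key (Module.End.eigenspace (T : H →ₗ[ℂ] H) μ) (by
    intro a x hx
    rw [Module.End.mem_eigenspace_iff] at hx ⊢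
    have h2 := congrArg (fun S : H →L[ℂ] H => S x) (hT a)
    have h3 : T (τ a x) = τ a (T x) := h2
    have h4 : T x = μ • x := hx
    show T (τ a x) = μ • τ a x
    rw [h3, h4, map_smul]) hμ
  ext x
  have h2 : x ∈ Module.End.eigenspace (T : H →ₗ[ℂ] H) μ := by
    rw [h1]
    trivial
  rw [Module.End.mem_eigenspace_iff] at h2
  exact h2

end sub

end Pool.Agent.V1215.NI
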