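import Pool.Agent.V1215.NI.Asm1

/-! # The case of a large representation -/

set_option autoImplicit false

open scoped CStarAlgebra ComplexOrder InnerProductSpace
open ContinuousLinearMap

namespace Pool.Agent.V1215.NI

open Pool.Agent.W661.Nrm

universe u v w

section
variable {I B G : Type*} [CStarAlgebra I] [PartialOrder I] [StarOrderedRing I]
  [CStarAlgebra B] [PartialOrder B] [StarOrderedRing B] [Group G] {β : G →* (I ≃⋆ₐ[ℂ] I)}
  {ι : I →⋆ₐ[ℂ] B} {u : G →* unitary B} {E : B →L[ℂ] I} {k f : ℕ}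

omit [PartialOrder I] [StarOrderedRing I] in
lemma act_inv (β : G →* (I ≃⋆ₐ[ℂ] I)) (g : G) (x : I) : β g (β g⁻¹ x) = x := by
  have h : (β g * β g⁻¹) x = x := by
    rw [← map_mul, mul_inv_cancel, map_one]
    rfl
  exact h

omit [PartialOrder I] [StarOrderedRing I] in
lemma act_mul (β : G →* (I ≃⋆ₐ[ℂ] I)) (g k : G) (x : I) : β g (β k x) = β (g * k) x := by
  rw [map_mul]
  rfl

/-- the coefficients of `c* Y c` -/
lemma exp_coeff (h : IsReducedCrossedProduct β ι u E) (Y : CStarMatrix (Fin k) (Fin k) B)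
    (c : Fin k → I) (s t : G) :
    E (star (u s : B) * bil Y (fun i => ι (c i)) (fun i => ι (c i)) * (u t : B)) =
      ∑ i, ∑ l, star (β s⁻¹ (c i)) * E (star (u s : B) * Y i l * (u t : B)) * β t⁻¹ (c l) := by
  have h1 : ∀ (g : G) (x : I), ι x * (u g : B) = (u g : B) * ι (β g⁻¹ x) := by
    intro g x
    rw [h.u_mul_ι, act_inv]
  unfold bil
  rw [Finset.mul_sum, Finset.sum_mul, map_sum]
  refine Finset.sum_congr rfl fun i _ => ?_
  rw [Finset.mul_sum, Finset.sum_mul, map_sum]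
  refine Finset.sum_congr rfl fun l _ => ?_
  rw [← h.E_bimod]
  congr 1
  have h2 : star (u s : B) * star (ι (c i)) = ι (star (β s⁻¹ (c i))) * star (u s : B) := by
    rw [← star_mul, h1, star_mul, map_star]
  calc star (u s : B) * (star (ι (c i)) * Y i l * ι (c l)) * (u t : B)
      = (star (u s : B) * star (ι (c i))) * Y i l * (ι (c l) * (u t : B)) := by
        simp only [mul_assoc]
    _ = _ := by
        rw [h2, h1]
        simp only [mul_assoc]

/-- the matrix `m - (coefficients of Y)` -/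
noncomputable def WW (u : G →* unitary B) (E : B →L[ℂ] I) (γ : Fin f → G)
    (Y : CStarMatrix (Fin k) (Fin k) B) (m : ℝ) : CStarMatrix (Fin (k * f)) (Fin (k * f)) I :=
  (m : ℂ) • (1 : CStarMatrix (Fin (k * f)) (Fin (k * f)) I) - YF u E γ Y

lemma WW_sa (h : IsReducedCrossedProduct β ι u E) (γ : Fin f → G)
    (Y : CStarMatrix (Fin k) (Fin k) B) (hY : star Y = Y) (m : ℝ) :
    IsSelfAdjoint (WW u E γ Y m) := by
  unfold WW
  rw [IsSelfAdjoint, star_sub, star_smul, star_one, Complex.star_def, Complex.conj_ofReal]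
  congr 1
  ext p q
  rw [CStarMatrix.star_apply, YF_apply, YF_apply, ← h.E_star, star_mul, star_mul, star_star,
    ← CStarMatrix.star_apply, hY, mul_assoc]

/-- the quadratic form of the coefficients -/
noncomputable def QF {H : Type*} [NormedAddCommGroup H] [InnerProductSpace ℂ H]
    (u : G →* unitary B) (E : B →L[ℂ] I) (Θ : I → (H →L[ℂ] H)) (γ : Fin f → G)
    (Y : CStarMatrix (Fin k) (Fin k) B) (ξ : Fin k → Fin f → H) : ℂ :=
  ∑ i, ∑ s, ∑ l, ∑ t, ⟪ξ i s, Θ (E (star (u (γ s) : B) * Y i l * (u (γ t) : B))) (ξ l t)⟫_ℂ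

omit [PartialOrder I] [StarOrderedRing I] [PartialOrder B] [StarOrderedRing B] in
lemma WW_form {H : Type*} [NormedAddCommGroup H] [InnerProductSpace ℂ H]
    (Θ : I →ₗ[ℂ] (H →L[ℂ] H)) (h1 : Θ 1 = 1) (γ : Fin f → G)
    (Y : CStarMatrix (Fin k) (Fin k) B) (m : ℝ) (ξ : Fin k → Fin f → H) :
    (∑ p, ∑ q, ⟪ξ (finProdFinEquiv.symm p).1 (finProdFinEquiv.symm p).2,
      Θ ((WW u E γ Y m) p q) (ξ (finProdFinEquiv.symm q).1 (finProdFinEquiv.symm q).2)⟫_ℂ) =
      ((m * ∑ i, ∑ s, ‖ξ i s‖ ^ 2 : ℝ) : ℂ) - QF u E Θ γ Y ξ := by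
  have e1 : ∀ p q : Fin (k * f), ⟪ξ (finProdFinEquiv.symm p).1 (finProdFinEquiv.symm p).2,
    Θ ((WW u E γ Y m) p q) (ξ (finProdFinEquiv.symm q).1 (finProdFinEquiv.symm q).2)⟫_ℂ =
      (if p = q then ((m : ℝ) : ℂ) *
        ((‖ξ (finProdFinEquiv.symm p).1 (finProdFinEquiv.symm p).2‖ ^ 2 : ℝ) : ℂ) else 0) -
      ⟪ξ (finProdFinEquiv.symm p).1 (finProdFinEquiv.symm p).2, Θ (YF u E γ Y p q)
        (ξ (finProdFinEquiv.symm q).1 (finProdFinEquiv.symm q).2)⟫_ℂ := by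
    intro p q
    unfold WW
    rw [CStarMatrix.sub_apply, map_sub, sub_apply, inner_sub_right]
    congr 1
    rw [CStarMatrix.smul_apply]
    split_ifs with hpq
    · subst hpq
      rw [CStarMatrix.one_apply_eq, map_smul, h1, smul_apply, one_apply_eq_self, inner_smul_right,
        inner_self_eq_norm_sq_to_K]
      push_cast
      rfl
    · rw [CStarMatrix.one_apply_ne hpq, smul_zero, map_zero, zero_apply, inner_zero_right]
  simp only [e1, Finset.sum_sub_distrib]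
  congr 1
  · simp only [Finset.sum_ite_eq, Finset.mem_univ, if_true]
    rw [sum_prod]
    simp only [Equiv.symm_apply_apply]
    push_cast
    rw [Finset.mul_sum]
    refine Finset.sum_congr rfl fun i _ => ?_
    rw [Finset.mul_sum]
  · unfold QF
    rw [sum_prod]
    refine Finset.sum_congr rfl fun i _ => Finset.sum_congr rfl fun s _ => ?_
    rw [sum_prod]
    refine Finset.sum_congr rfl fun l _ => Finset.sum_congr rfl fun t _ => ?_
    rw [YF_apply, Equiv.symm_apply_apply, Equiv.symm_apply_apply]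

omit [PartialOrder I] [StarOrderedRing I] [PartialOrder B] [StarOrderedRing B] in
lemma neg_WW {H : Type*} [NormedAddCommGroup H] [InnerProductSpace ℂ H]
    (Θ : I →ₗ[ℂ] (H →L[ℂ] H)) (h1 : Θ 1 = 1) (γ : Fin f → G)
    (Y : CStarMatrix (Fin k) (Fin k) B) (m : ℝ) (h : Neg Θ (WW u E γ Y m)) :
    ∃ ξ : Fin k → Fin f → H, m * ∑ i, ∑ s, ‖ξ i s‖ ^ 2 < (QF u E Θ γ Y ξ).re := by
  obtain ⟨ξ, hξ⟩ := h
  refine ⟨fun i s => ξ (finProdFinEquiv (i, s)), ?_⟩
  have h2 := WW_form (u := u) (E := E) Θ h1 γ Y m (fun i s => ξ (finProdFinEquiv (i, s)))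
  simp only [Prod.mk.eta, Equiv.apply_symm_apply] at h2
  rw [h2, Complex.sub_re, Complex.ofReal_re] at hξ
  linarith

/-- the quadratic form of `c* Y c` -/
lemma QF_bil (h : IsReducedCrossedProduct β ι u E) {H : Type*} [NormedAddCommGroup H]
    [InnerProductSpace ℂ H] [CompleteSpace H] (Θ : I →ₗ[ℂ] (H →L[ℂ] H)) (γ : Fin f → G)
    (Y : CStarMatrix (Fin k) (Fin k) B) (c : Fin k → I) (π : Fin f → Fin k → (H →L[ℂ] H))
    (hl : ∀ s i x, Θ (star (β (γ s)⁻¹ (c i)) * x) = star (π s i) * Θ x)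
    (hr : ∀ s i x, Θ (x * β (γ s)⁻¹ (c i)) = Θ x * π s i) (ζ : Fin 1 → Fin f → H) :
    QF u E Θ γ (kap 0 (bil Y (fun i => ι (c i)) (fun i => ι (c i)))) ζ =
      QF u E Θ γ Y (fun i s => π s i (ζ 0 s)) := by
  have e1 : ∀ s t, ⟪ζ 0 s, Θ (E (star (u (γ s) : B) *
      (kap (0 : Fin 1) (bil Y (fun i => ι (c i)) (fun i => ι (c i)))) 0 0 *
      (u (γ t) : B))) (ζ 0 t)⟫_ℂ = ∑ i, ∑ l, ⟪π s i (ζ 0 s),
        Θ (E (star (u (γ s) : B) * Y i l * (u (γ t) : B))) (π t l (ζ 0 t))⟫_ℂ := by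
    intro s t
    rw [kap_apply, if_pos ⟨rfl, rfl⟩, exp_coeff h, map_sum, sum_apply, inner_sum]
    refine Finset.sum_congr rfl fun i _ => ?_
    rw [map_sum, sum_apply, inner_sum]
    refine Finset.sum_congr rfl fun l _ => ?_
    rw [hr, mul_apply_eq_comp, hl, mul_apply_eq_comp, star_eq_adjoint, adjoint_inner_right]
  unfold QF
  simp only [Finset.univ_unique, Fin.default_eq_zero, Fin.isValue, Finset.sum_singleton, e1]
  rw [Finset.sum_comm]
  have e2 : ∀ (F : Fin f → Fin f → Fin k → Fin k → ℂ),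
      ∑ t, ∑ s, ∑ i, ∑ l, F s t i l = ∑ i, ∑ s, ∑ l, ∑ t, F s t i l := by
    intro F
    rw [Finset.sum_comm]
    have : ∀ s, ∑ t, ∑ i, ∑ l, F s t i l = ∑ i, ∑ l, ∑ t, F s t i l := by
      intro s
      rw [Finset.sum_comm]
      refine Finset.sum_congr rfl fun i _ => Finset.sum_comm
    simp only [this]
    rw [Finset.sum_comm]
  exact e2 _

end

/-- the case of a large representation -/
theorem caseA (HG2 : S_G2.{u, v, w}) (HO : S_ONE.{u, u}) {A I : Type u} {B : Type v} {G : Type w}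
    [CStarAlgebra A] [PartialOrder A] [StarOrderedRing A] [CStarAlgebra I] [PartialOrder I]
    [StarOrderedRing I] [CStarAlgebra B] [PartialOrder B] [StarOrderedRing B] [Group G]
    {α : G →* (A ≃⋆ₐ[ℂ] A)} {β : G →* (I ≃⋆ₐ[ℂ] I)} {j : A →⋆ₐ[ℂ] I}
    (hβ : ∀ g a, β g (j a) = j (α g a)) {ι : I →⋆ₐ[ℂ] B} {u : G →* unitary B} {E : B →L[ℂ] I}
    (h : IsReducedCrossedProduct β ι u E) {k f : ℕ} (Y : CStarMatrix (Fin k) (Fin k) B)
    (hY : 0 ≤ Y) (γ : Fin f → G) (hγ : Function.Injective γ) {m m' : ℝ} (hm' : 0 ≤ m') (hm : m' < m)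
    (H : Type u) [NormedAddCommGroup H] [InnerProductSpace ℂ H] [CompleteSpace H]
    (π : A →⋆ₐ[ℂ] (H →L[ℂ] H)) (hπ : Irr π) (hbig : Big ((k + 1) * (k * f)) H)
    (Θ : I →ₗ[ℂ] (H →L[ℂ] H)) (hΘ : Comp j π Θ) (ξ : Fin k → Fin f → H)
    (hξ : m * ∑ i, ∑ s, ‖ξ i s‖ ^ 2 < (QF u E Θ γ Y ξ).re) :
    ∃ c : Fin k → A, ‖∑ i, star (c i) * c i‖ ≤ 1 ∧
      m' ≤ ‖bil Y (fun i => ι (j (c i))) (fun i => ι (j (c i)))‖ := by
  set M : ℝ := ∑ i, ∑ s, ‖ξ i s‖ ^ 2 with hM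
  have hM0 : 0 ≤ M := Finset.sum_nonneg fun i _ => Finset.sum_nonneg fun s _ => sq_nonneg _
  have hcont : Continuous fun η : Fin k → Fin f → H => (QF u E Θ γ Y η).re := by
    unfold QF
    fun_prop
  have hopen : IsOpen {η : Fin k → Fin f → H | m' * M < (QF u E Θ γ Y η).re} :=
    isOpen_lt continuous_const hcont
  have hmem : ξ ∈ {η : Fin k → Fin f → H | m' * M < (QF u E Θ γ Y η).re} := by
    rw [Set.mem_ofPred_eq]
    refine lt_of_le_of_lt ?_ hξ
    exact mul_le_mul_of_nonneg_right hm.le hM0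
  obtain ⟨ε, hε, hball⟩ := Metric.isOpen_iff.1 hopen ξ hmem
  obtain ⟨c, ζ, hc, hζ, happ⟩ := HO A H π hπ f k (fun s => α (γ s)⁻¹) hbig ξ (ε / 2) (by positivity)
  refine ⟨c, hc, ?_⟩
  set b : B := bil Y (fun i => ι (j (c i))) (fun i => ι (j (c i))) with hb
  have hb0 : 0 ≤ b := bil_nonneg Y hY _
  have hkap : 0 ≤ kap (0 : Fin 1) b := map_nonneg (kap 0) hb0
  have h2 := HG2 I B G β ι u E h H Θ hΘ.one hΘ.cp 1 (kap 0 b) hkap f γ hγ (fun _ s => ζ s)
  have h3 : QF u E Θ γ (kap (0 : Fin 1) b) (fun _ s => ζ s) =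
      QF u E Θ γ Y (fun i s => π (α (γ s)⁻¹ (c i)) (ζ s)) := by
    refine QF_bil h Θ γ Y (fun i => j (c i)) (fun s i => π (α (γ s)⁻¹ (c i))) ?_ ?_ (fun _ s => ζ s)
    · intro s i x
      rw [hβ, ← map_star, hΘ.left, map_star]
    · intro s i x
      rw [hβ, hΘ.right]
  have h4 : (QF u E Θ γ (kap (0 : Fin 1) b) (fun _ s => ζ s)).re ≤ ‖b‖ * ∑ s, ‖ζ s‖ ^ 2 := by
    refine le_trans h2 ?_
    simp only [Finset.univ_unique, Finset.sum_singleton]
    exact mul_le_mul_of_nonneg_right (norm_kap_le 0 b)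
      (Finset.sum_nonneg fun _ _ => sq_nonneg _)
  have h5 : m' * M < (QF u E Θ γ Y (fun i s => π (α (γ s)⁻¹ (c i)) (ζ s))).re := by
    apply hball
    rw [Metric.mem_ball, dist_pi_lt_iff hε]
    intro i
    rw [dist_pi_lt_iff hε]
    intro s
    rw [dist_eq_norm]
    exact (happ i s).trans (by linarith)
  rw [← h3] at h5
  by_contra hcon
  push Not at hcon
  have h6 : ‖b‖ * ∑ s, ‖ζ s‖ ^ 2 ≤ m' * M :=
    mul_le_mul hcon.le hζ (Finset.sum_nonneg fun _ _ => sq_nonneg _) hm'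
  linarith

end Pool.Agent.V1215.NI
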