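import Pool.Agent.V1215.NI.Asm2

/-! # More preparations -/

set_option autoImplicit false

open scoped CStarAlgebra ComplexOrder InnerProductSpace
open ContinuousLinearMap

namespace Pool.Agent.V1215.NI

open Pool.Agent.W661.Nrm

universe u v w

section norms
variable {A B : Type*} [CStarAlgebra A] [PartialOrder A] [StarOrderedRing A] [CStarAlgebra B]
  [PartialOrder B] [StarOrderedRing B]

/-- norming from norming of positive matrices by columns -/
theorem norms_of_pos (ι : A →⋆ₐ[ℂ] B)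
    (mp : ∀ (k : ℕ) (Y : CStarMatrix (Fin k) (Fin k) B), 0 ≤ Y → ∀ ε : ℝ, 0 < ε →
      ∃ c : Fin k → A, ‖∑ i, star (c i) * c i‖ ≤ 1 ∧
        ‖Y‖ - ε ≤ ‖bil Y (fun i => ι (c i)) (fun i => ι (c i))‖) : Norms ι := by
  intro k hk X
  constructor
  · rintro t ⟨r, c, hr, hc, rfl⟩
    rw [sum_eq_bil]
    refine norm_bil_le X _ _ ?_ ?_
    · rw [ip_ι]
      refine (norm_ι_le ι _).trans ?_
      simpa only [star_star] using hr
    · rw [ip_ι]
      exact (norm_ι_le ι _).trans hc
  · intro b hb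
    by_contra hcon
    push Not at hcon
    have hb0 : 0 ≤ b := by
      have := hb ⟨fun _ => 0, fun _ => 0, by simp, by simp, rfl⟩
      exact (norm_nonneg _).trans this
    set ε : ℝ := (‖X‖ * ‖X‖ - b * b) / 4 with hε
    have hε0 : 0 < ε := by
      have : b * b < ‖X‖ * ‖X‖ := by nlinarith
      rw [hε]
      linarith
    have hYX : 0 ≤ star X * X := by
      set_option backward.isDefEq.respectTransparency false in
      exact star_mul_self_nonneg X
    obtain ⟨c, hc1, hc2⟩ := mp k (star X * X) hYX ε hε0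
    rw [CStarRing.norm_star_mul_self, bil_star_mul] at hc2
    set v : Fin k → B := fun l => ∑ j, X l j * ι (c j) with hv
    let j0 : Fin k := ⟨0, hk⟩
    have hY2 : 0 ≤ col j0 v * star (col j0 v) := by
      set_option backward.isDefEq.respectTransparency false in
      exact mul_star_self_nonneg (col j0 v)
    obtain ⟨c', hc1', hc2'⟩ := mp k (col j0 v * star (col j0 v)) hY2 ε hε0
    have hn : ‖col j0 v * star (col j0 v)‖ = ‖ip v v‖ := by
      rw [CStarRing.norm_self_mul_star, ← sq, norm_col_sq]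
    rw [bil_col, hn, CStarRing.norm_self_mul_star] at hc2'
    have hmem := hb ⟨fun i => star (c' i), c, by simpa only [star_star] using hc1', hc1, rfl⟩
    have h1 : ∑ i, ∑ j, ι (star (c' i)) * X i j * ι (c j) = ip (fun i => ι (c' i)) v := by
      unfold ip
      refine Finset.sum_congr rfl fun i _ => ?_
      rw [hv, Finset.mul_sum]
      refine Finset.sum_congr rfl fun j _ => ?_
      rw [map_star, mul_assoc]
    rw [h1] at hmem
    set q : ℝ := ‖ip (fun i => ι (c' i)) v‖ with hq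
    have hq0 : 0 ≤ q := norm_nonneg _
    have h2 : q * q ≤ b * b := mul_self_le_mul_self hq0 hmem
    linarith

set_option backward.isDefEq.respectTransparency false in
lemma ip_cs {k : ℕ} (j0 : Fin k) (z w : Fin k → B) : ‖ip z w‖ ^ 2 ≤ ‖ip z z‖ * ‖ip w w‖ := by
  have h1 : ip z w = (star (col j0 z) * col j0 w) j0 j0 := by
    rw [star_col_mul_col, kap_apply, if_pos ⟨rfl, rfl⟩]
  have h2 : ‖ip z w‖ ≤ ‖col j0 z‖ * ‖col j0 w‖ := by
    rw [h1]
    refine (CStarMatrix.norm_entry_le_norm).trans ((norm_mul_le _ _).trans ?_)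
    rw [norm_star]
  calc ‖ip z w‖ ^ 2 ≤ (‖col j0 z‖ * ‖col j0 w‖) ^ 2 := by gcongr
    _ = ‖ip z z‖ * ‖ip w w‖ := by rw [mul_pow, norm_col_sq, norm_col_sq]

/-- columns from norming -/
theorem col_of_norms (ι : A →⋆ₐ[ℂ] B) (hN : Norms ι) (k : ℕ) (hk : 1 ≤ k)
    (X : CStarMatrix (Fin k) (Fin k) B) {m : ℝ} (hm : 0 ≤ m) (hmX : m < ‖star X * X‖) :
    ∃ c : Fin k → A, ‖∑ i, star (c i) * c i‖ ≤ 1 ∧
      m < ‖bil (star X * X) (fun i => ι (c i)) (fun i => ι (c i))‖ := by
  have h1 : √m < ‖X‖ := by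
    rw [CStarRing.norm_star_mul_self, ← sq] at hmX
    exact (Real.sqrt_lt' (by
      by_contra h
      have h0 : ‖X‖ = 0 := le_antisymm (not_lt.1 h) (norm_nonneg _)
      rw [h0] at hmX
      nlinarith)).2 hmX
  obtain ⟨t, ⟨r, c, hr, hc, rfl⟩, ht⟩ := (lt_isLUB_iff (hN k hk X)).1 h1
  refine ⟨c, hc, ?_⟩
  rw [bil_star_mul]
  set v : Fin k → B := fun l => ∑ j, X l j * ι (c j) with hv
  have h2 : ∑ i, ∑ j, ι (r i) * X i j * ι (c j) = ip (fun i => ι (star (r i))) v := by
    unfold ip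
    refine Finset.sum_congr rfl fun i _ => ?_
    rw [hv, Finset.mul_sum]
    refine Finset.sum_congr rfl fun j _ => ?_
    show ι (r i) * X i j * ι (c j) = star (ι (star (r i))) * (X i j * ι (c j))
    rw [map_star, star_star, mul_assoc]
  rw [h2] at ht
  have h3 := ip_cs ⟨0, hk⟩ (fun i => ι (star (r i))) v
  have h4 : ‖ip (fun i => ι (star (r i))) (fun i => ι (star (r i)))‖ ≤ 1 := by
    rw [ip_ι]
    refine (norm_ι_le ι _).trans ?_
    simpa only [star_star] using hr
  have h5 : ‖ip (fun i => ι (star (r i))) v‖ ^ 2 ≤ ‖ip v v‖ := by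
    refine h3.trans ?_
    calc _ ≤ 1 * ‖ip v v‖ := by gcongr
      _ = _ := one_mul _
  have h6 : √m ^ 2 < ‖ip (fun i => ι (star (r i))) v‖ ^ 2 := by
    gcongr
  rw [Real.sq_sqrt hm] at h6
  exact lt_of_lt_of_le h6 h5

end norms

/-- truncation at one -/
noncomputable def mn (t : ℝ) : ℝ := min t 1

lemma mn_cont : Continuous mn := by
  unfold mn
  fun_prop

section trunc
variable {A : Type*} [CStarAlgebra A] [PartialOrder A] [StarOrderedRing A]

omit [PartialOrder A] [StarOrderedRing A] in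
lemma trunc_sa (b : A) : IsSelfAdjoint (cfc mn b) := cfc_predicate _ _

lemma trunc_norm (b : A) (hb : 0 ≤ b) : ‖cfc mn b‖ ≤ 1 := by
  refine norm_cfc_le zero_le_one fun t ht => ?_
  have h0 : 0 ≤ t := spectrum_nonneg_of_nonneg hb ht
  rw [Real.norm_eq_abs, mn, abs_of_nonneg (le_min h0 zero_le_one)]
  exact min_le_right _ _

omit [PartialOrder A] [StarOrderedRing A] in
lemma trunc_map {D : Type*} [CStarAlgebra D] (σ : A →⋆ₐ[ℂ] D) (b : A) (hb : IsSelfAdjoint b) :
    σ (cfc mn b) = cfc mn (σ b) := by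
  have hσ : Continuous σ := (NonUnitalStarAlgHom.norm_apply_le σ |> fun h =>
    AddMonoidHomClass.continuous_of_bound σ 1 (fun x => by rw [one_mul]; exact h x))
  exact StarAlgHomClass.map_cfc σ mn b mn_cont.continuousOn hσ hb (hb.map σ)

lemma trunc_zero {D : Type*} [CStarAlgebra D] (σ : A →⋆ₐ[ℂ] D) (b : A) (hb : IsSelfAdjoint b)
    (h : σ b = 0) : σ (cfc mn b) = 0 := by
  rw [trunc_map σ b hb, h, cfc_apply_zero]
  simp [mn]

lemma trunc_one {D : Type*} [CStarAlgebra D] [PartialOrder D] [StarOrderedRing D]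
    (σ : A →⋆ₐ[ℂ] D) (b : A) (hb : IsSelfAdjoint b) (h : 1 ≤ σ b) : σ (cfc mn b) = 1 := by
  rw [trunc_map σ b hb]
  have hsa : IsSelfAdjoint (σ b) := hb.map σ
  rw [← cfc_const_one ℝ (σ b)]
  refine cfc_congr fun t ht => ?_
  have h1 : (algebraMap ℝ D 1) ≤ σ b := by rwa [map_one]
  have h2 : (1 : ℝ) ≤ t := (algebraMap_le_iff_le_spectrum (R := ℝ) (ha := hsa)).1 h1 t ht
  exact min_eq_right h2

end trunc

end Pool.Agent.V1215.NI
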