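import Pool.Agent.V1215.NI.Stm

/-! # Detection of positivity in the injective envelope -/

set_option autoImplicit false

open scoped CStarAlgebra ComplexOrder InnerProductSpace ENNReal
open ContinuousLinearMap

namespace Pool.Agent.V1215.NI

open Pool.Agent.W661.Nrm

universe u v w

section
variable {A : Type u} [CStarAlgebra A] {J : Type u} {H : J → Type u}
  [∀ t, NormedAddCommGroup (H t)] [∀ t, InnerProductSpace ℂ (H t)] [∀ t, CompleteSpace (H t)]
  [∀ t, Nontrivial (H t)]

/-- operators -/
abbrev OT (H : J → Type u) [∀ t, NormedAddCommGroup (H t)] [∀ t, InnerProductSpace ℂ (H t)]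
    (t : J) : Type u := H t →L[ℂ] H t

instance (t : J) : Nontrivial (OT H t) := by
  obtain ⟨x, hx⟩ := exists_ne (0 : H t)
  refine ⟨⟨1, 0, fun h => hx ?_⟩⟩
  have := congrArg (fun T : H t →L[ℂ] H t => T x) h
  simpa using this

/-- the direct sum of a family of representations -/
noncomputable def piFam (π : ∀ t, A →⋆ₐ[ℂ] (H t →L[ℂ] H t)) : A →⋆ₐ[ℂ] BP (OT H) where
  toFun a := ⟨fun t => π t a, memℓp_infty ⟨‖a‖, by
    rintro _ ⟨t, rfl⟩
    exact NonUnitalStarAlgHom.norm_apply_le (π t) a⟩⟩
  map_one' := by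
    apply lp.ext
    funext t
    rw [lp.infty_coeFn_one]
    exact map_one (π t)
  map_mul' a b := by
    apply lp.ext
    funext t
    rw [lp.infty_coeFn_mul]
    exact map_mul (π t) a b
  map_zero' := by
    apply lp.ext
    funext t
    exact map_zero (π t)
  map_add' a b := by
    apply lp.ext
    funext t
    exact map_add (π t) a b
  commutes' r := by
    apply lp.ext
    funext t
    rw [Algebra.algebraMap_eq_smul_one, Algebra.algebraMap_eq_smul_one]
    show π t (r • 1) = (r • (1 : BP (OT H))) t
    rw [map_smul, map_one, lp.coeFn_smul, Pi.smul_apply, lp.infty_coeFn_one]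
    rfl
  map_star' a := by
    apply lp.ext
    funext t
    rw [lp.star_apply]
    exact map_star (π t) a

omit [∀ t, Nontrivial (H t)] in
lemma comp_star {I : Type u} [CStarAlgebra I] [PartialOrder I] [StarOrderedRing I]
    {j : A →⋆ₐ[ℂ] I} {t : J} {π : A →⋆ₐ[ℂ] (H t →L[ℂ] H t)} {Θ : I →ₗ[ℂ] (H t →L[ℂ] H t)}
    (h : Comp j π Θ) (x : I) : Θ (star x) = star (Θ x) := by
  let f : I →CP (H t →L[ℂ] H t) :=
    { toLinearMap := Θ
      map_cstarMatrix_nonneg' := cp_of_inner Θ h.cp }
  exact map_star f x

end

theorem dich : S_DICH.{u} := by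
  intro A I _ _ _ _ j hj J H _ _ _ _ π Θ hΘ hf m Y hY hpos
  let _ : PartialOrder A := CStarAlgebra.spectralOrder A
  have _ : StarOrderedRing A := CStarAlgebra.spectralOrderedRing A
  let f : ∀ t, I →CP OT H t := fun t =>
    { toLinearMap := Θ t
      map_cstarMatrix_nonneg' := cp_of_inner (Θ t) (hΘ t).cp }
  have hfb : ∀ t b, ‖f t b‖ ≤ ‖b‖ := fun t b => (hΘ t).norm_le b
  let F : I →CP BP (OT H) :=
    { toLinearMap := BP.lift (fun t => (f t).toLinearMap) hfb
      map_cstarMatrix_nonneg' := BP.lift_cp f hfb }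
  have hF : ∀ x t, F x t = Θ t x := fun x t => rfl
  have hinj : Function.Injective (piFam π) := by
    intro a b hab
    have h1 : ∀ t, π t (a - b) = 0 := by
      intro t
      have h2 := congrArg (fun x : BP (OT H) => x t) hab
      have h3 : π t a = π t b := h2
      rw [map_sub, h3, sub_self]
    exact sub_eq_zero.1 (hf _ h1)
  let jj : A →CP I :=
    { toLinearMap := (j : A →ₗ[ℂ] I)
      map_cstarMatrix_nonneg' := fun k M hM =>
        CompletelyPositiveMapClass.map_cstarMatrix_nonneg' j k M hM }
  obtain ⟨K, hK⟩ := hj.injective A (BP (OT H)) (piFam π) jj hinj (map_one j)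
  have hK' : ∀ a, K (piFam π a) = j a := hK
  obtain ⟨L, hL⟩ := exists_cp_comp F K
  have hFj : ∀ a, F (j a) = piFam π a := by
    intro a
    apply lp.ext
    funext t
    have h1 := (hΘ t).left a 1
    rw [mul_one, (hΘ t).one, mul_one] at h1
    exact h1
  have hid : ∀ x, K (F x) = x := by
    intro x
    rw [← hL]
    refine hj.rigid L (fun a => ?_) x
    rw [hL, hFj, hK']
  have hFstar : ∀ x, F (star x) = star (F x) := fun x => map_star F x
  have hYs : star Y = Y := hY
  have hpos1 : 0 ≤ Y.map F := by
    refine nonneg_of_bil _ ?_ ?_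
    · ext i l
      rw [CStarMatrix.star_apply, CStarMatrix.map_apply, CStarMatrix.map_apply, ← hFstar]
      congr 1
      conv_rhs => rw [← hYs]
      rw [CStarMatrix.star_apply]
    · intro z
      refine BP.nonneg _ fun t => ?_
      have h1 : (bil (Y.map F) z z) t =
          bil (Y.map (Θ t)) (fun i => z i t) (fun i => z i t) := by
        unfold bil
        rw [BP.sum_apply]
        refine Finset.sum_congr rfl fun i _ => ?_
        rw [BP.sum_apply]
        refine Finset.sum_congr rfl fun l _ => ?_
        rw [lp.infty_coeFn_mul, Pi.mul_apply, lp.infty_coeFn_mul, Pi.mul_apply, lp.star_apply]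
        rfl
      rw [h1]
      rw [nonneg_iff_isPositive, isPositive_iff_complex]
      intro x
      apply inner_flip
      have h4 : ⟪x, bil (Y.map (Θ t)) (fun i => z i t) (fun i => z i t) x⟫_ℂ =
          ∑ i, ∑ l, ⟪z i t x, Θ t (Y i l) (z l t x)⟫_ℂ := by
        unfold bil
        rw [sum_apply, inner_sum]
        refine Finset.sum_congr rfl fun i _ => ?_
        rw [sum_apply, inner_sum]
        refine Finset.sum_congr rfl fun l _ => ?_
        rw [mul_apply_eq_comp, mul_apply_eq_comp, star_eq_adjoint, adjoint_inner_right]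
        rfl
      rw [h4]
      have h5 := hpos t (fun i => z i t x)
      have h6 : starRingEnd ℂ (∑ i, ∑ l, ⟪z i t x, Θ t (Y i l) (z l t x)⟫_ℂ) =
          ∑ i, ∑ l, ⟪z i t x, Θ t (Y i l) (z l t x)⟫_ℂ := by
        rw [map_sum]
        conv_rhs => rw [Finset.sum_comm]
        refine Finset.sum_congr rfl fun i _ => ?_
        rw [map_sum]
        refine Finset.sum_congr rfl fun l _ => ?_
        rw [inner_conj_symm]
        have h7 : star (Y i l) = Y l i := by
          conv_rhs => rw [← hYs]
          rw [CStarMatrix.star_apply]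
        rw [← h7, comp_star (hΘ t), star_eq_adjoint, adjoint_inner_right]
      generalize (∑ i, ∑ l, ⟪z i t x, Θ t (Y i l) (z l t x)⟫_ℂ) = S at h5 h6
      rw [Complex.le_def]
      refine ⟨h5, ?_⟩
      have h8 := Complex.conj_eq_iff_im.1 h6
      rw [h8]
      rfl
  have h9 : 0 ≤ (Y.map F).map K :=
    CompletelyPositiveMapClass.map_cstarMatrix_nonneg' K m _ hpos1
  have h10 : (Y.map F).map K = Y := by
    ext i l
    rw [CStarMatrix.map_apply, CStarMatrix.map_apply, hid]
  rwa [h10] at h9

end Pool.Agent.V1215.NI
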