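import Pool.Agent.V1215.NI.MD

/-! # Dimensions of irreducible representations of the injective envelope -/

set_option autoImplicit false

open scoped CStarAlgebra ComplexOrder InnerProductSpace ENNReal
open ContinuousLinearMap

namespace Pool.Agent.V1215.NI

open Pool.Agent.W661.Nrm

universe u v w

theorem dim (HBF : S_BF.{u, v}) : S_DIM.{u, v} := by
  intro A I _ _ _ _ _ _ j hj N a hA H _ _ _ σ hσ hσa hbig
  -- the compressions
  have hex := fun φ : PS A => exists_comp_pure j hj.inj φ.1
  choose Θ hΘ using hex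
  obtain ⟨F, hF⟩ := exists_assemble Θ hΘ
  let jj : A →CP I :=
    { toLinearMap := (j : A →ₗ[ℂ] I)
      map_cstarMatrix_nonneg' := fun k M hM =>
        CompletelyPositiveMapClass.map_cstarMatrix_nonneg' j k M hM }
  obtain ⟨K, hK⟩ := hj.injective A (BP (fun φ : PS A => TT φ)) piAll jj piAll_injective (map_one j)
  have hK' : ∀ a, K (piAll a) = j a := hK
  obtain ⟨L, hL⟩ := exists_cp_comp F K
  have hFj : ∀ a, F (j a) = piAll a := by
    intro a
    apply lp.ext
    funext φ
    rw [hF]
    have h1 := (hΘ φ).left a 1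
    rw [mul_one, (hΘ φ).one, mul_one] at h1
    exact h1
  have hid : ∀ x, K (F x) = x := by
    intro x
    rw [← hL]
    refine hj.rigid L (fun a => ?_) x
    rw [hL, hFj, hK']
  have hF1 : F 1 = 1 := by rw [← map_one j, hFj, map_one]
  have hK1 : K 1 = 1 := by rw [← map_one piAll, hK', map_one]
  have hmd : ∀ x m, K (m * F x) = K m * x := by
    intro x m
    have h1 : K (star (F x) * F x) = star (K (F x)) * K (F x) := by
      refine le_antisymm ?_ (schwarz K hK1 (F x))
      refine (cp_mono K (schwarz F hF1 x)).trans (le_of_eq ?_)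
      rw [hid, hid]
    rw [md K hK1 (F x) h1 m, hid]
  obtain ⟨h, hsa, hh⟩ := HBF I H 1 N (fun _ => σ) (fun _ => hσ)
    (fun s t T hst => absurd (Subsingleton.elim s t) hst) hbig
  have hFsa : IsSelfAdjoint (F h) := by
    rw [IsSelfAdjoint, ← cp_star F, hsa.star_eq]
  have hc : ∀ i, i < N → σ (be (1 * N) h i) ≠ 0 := by
    intro i hi
    have := hh 0 ⟨i, hi⟩
    simpa [be] using this
  have hKc : ∀ i m, K (m * be (1 * N) (F h) i) = K m * be (1 * N) h i := fun i m =>
    md_cfc K hK1 (F h) h hFsa hsa (hmd h) (bf (1 * N) i) (bf_cont _ _) m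
  have hmulφ : ∀ (x y : BP (fun φ : PS A => TT φ)) (φ : PS A), (x * y) φ = x φ * y φ := by
    intro x y φ
    rw [lp.infty_coeFn_mul]
    rfl
  have hword : ∀ n, n ≤ N → ∃ (P : I) (Ph : BP (fun φ : PS A => TT φ)), σ P ≠ 0 ∧ K Ph = P ∧
      ∀ φ : PS A, (φ.1.gnsStarAlgHom a = 0 ∨ ∃ i, i < n ∧ (be (1 * N) (F h) i) φ = 0) →
        Ph φ = 0 := by
    intro n
    induction n with
    | zero =>
      intro _
      refine ⟨j a, piAll a, hσa, hK' a, fun φ hφ => ?_⟩
      rcases hφ with hφ | ⟨i, hi, _⟩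
      · rw [piAll_apply, hφ]
      · omega
    | succ n ih =>
      intro hn
      obtain ⟨P, Ph, h1, h2, h3⟩ := ih (by omega)
      obtain ⟨x, hx⟩ := irr_mul hσ h1 (hc n (by omega))
      refine ⟨P * x * be (1 * N) h n, Ph * F x * be (1 * N) (F h) n, hx, ?_, fun φ hφ => ?_⟩
      · rw [hKc, hmd, h2]
      · rw [hmulφ, hmulφ]
        rcases hφ with hφ | ⟨i, hi, hi2⟩
        · rw [h3 φ (Or.inl hφ), zero_mul, zero_mul]
        · by_cases hin : i = n
          · rw [← hin, hi2, mul_zero]
          · rw [h3 φ (Or.inr ⟨i, by omega, hi2⟩), zero_mul, zero_mul]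
  obtain ⟨P, Ph, h1, h2, h3⟩ := hword N le_rfl
  have h4 : Ph = 0 := by
    apply lp.ext
    funext φ
    apply h3
    by_contra hcon
    push Not at hcon
    obtain ⟨h5, h6⟩ := hcon
    apply hA φ.1 φ.2 h5
    refine orth_big (fun i : Fin N => (be (1 * N) (F h) i) φ) ?_ ?_ ?_
    · intro i
      have h7 := (be_sa (1 * N) (F h) i).star_eq
      have h8 := congrArg (fun x : BP (fun φ : PS A => TT φ) => x φ) h7
      have h9 : (star (be (1 * N) (F h) i)) φ = star ((be (1 * N) (F h) i) φ) :=
        congrFun (lp.coeFn_star _) φ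
      exact h9.symm.trans h8
    · intro i l hil
      rw [← hmulφ, be_mul (1 * N) (F h) (fun h => hil (Fin.ext h))]
      rfl
    · intro i
      exact h6 i i.2
  apply h1
  rw [← h2, h4, map_zero, map_zero]

end Pool.Agent.V1215.NI
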