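import Pool.Agent.V1215.NI.Stm

/-! # Composition of pure states with automorphisms -/

set_option autoImplicit false

open scoped CStarAlgebra ComplexOrder InnerProductSpace
open ContinuousLinearMap

namespace Pool.Agent.V1215.NI

open Pool.Agent.W661.Nrm

universe u v w

lemma gns_ker {C : Type*} [CStarAlgebra C] [PartialOrder C] [StarOrderedRing C] (φ : C →ₚ[ℂ] ℂ)
    (x : C) : φ.gnsStarAlgHom x = 0 ↔ ∀ y, φ (star (x * y) * (x * y)) = 0 := by
  have key : ∀ z : C, ⟪φ.gnsStarAlgHom z (om φ), φ.gnsStarAlgHom z (om φ)⟫_ℂ =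
      φ (star z * z) := by
    intro z
    rw [pi_inner, ← mul_apply_eq_comp, ← map_mul, gns_inner]
  constructor
  · intro h y
    rw [← key, map_mul, h, zero_mul, zero_apply, inner_zero_left]
  · intro h
    ext v
    rw [zero_apply]
    refine (gns_dense φ).induction_on (p := fun v => φ.gnsStarAlgHom x v = 0) v
      (isClosed_eq (by fun_prop) (by fun_prop)) ?_
    intro y
    have h1 := key (x * y)
    rw [h y] at h1
    have h2 := inner_self_eq_zero.1 h1
    rwa [map_mul] at h2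

theorem ker : S_KER.{u} := by
  intro C _ _ _ ψ β hψ
  have hpos : ∀ (β : C ≃⋆ₐ[ℂ] C) (x : C), 0 ≤ x → 0 ≤ β x := by
    intro β x hx
    obtain ⟨y, rfl⟩ := (CStarAlgebra.nonneg_iff_eq_star_mul_self).1 hx
    rw [map_mul, map_star]
    exact star_mul_self_nonneg _
  have hex : ∀ (χ : C →ₚ[ℂ] ℂ) (β : C ≃⋆ₐ[ℂ] C), ∃ χ' : C →ₚ[ℂ] ℂ, ∀ x, χ' x = χ (β x) := by
    intro χ β
    refine ⟨PositiveLinearMap.mk₀ ((χ : C →ₗ[ℂ] ℂ) ∘ₗ ((β : C →⋆ₐ[ℂ] C) : C →ₗ[ℂ] C)) ?_,
      fun x => rfl⟩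
    intro x hx
    exact map_nonneg χ (hpos β x hx)
  obtain ⟨ψ', hψ'⟩ := hex ψ β
  refine ⟨ψ', ⟨?_, ?_⟩, ?_⟩
  · rw [hψ', map_one, hψ.one]
  · intro χ hχ
    obtain ⟨χ', hχ'⟩ := hex χ β.symm
    obtain ⟨t, ht⟩ := hψ.pure χ' (by
      intro a ha
      rw [hχ']
      refine (hχ _ (hpos β.symm a ha)).trans (le_of_eq ?_)
      rw [hψ', StarAlgEquiv.apply_symm_apply])
    refine ⟨t, fun a => ?_⟩
    have h1 := ht (β a)
    rw [hχ', StarAlgEquiv.symm_apply_apply] at h1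
    rw [h1, hψ']
  · intro x
    rw [gns_ker, gns_ker]
    constructor
    · intro h y
      have := h (β.symm y)
      rwa [hψ', map_mul β, map_star β, map_mul β, StarAlgEquiv.apply_symm_apply] at this
    · intro h y
      rw [hψ', map_mul β, map_star β, map_mul β]
      exact h (β y)

end Pool.Agent.V1215.NI
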