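import Pool.Agent.V1215.NI.Stm

/-! # Units in finite dimensional irreducible representations -/

set_option autoImplicit false

open scoped CStarAlgebra ComplexOrder InnerProductSpace
open ContinuousLinearMap

namespace Pool.Agent.V1215.NI

open Pool.Agent.W661.Nrm

universe u v w

theorem unit : S_UNIT.{u, v} := by
  intro A _ _ _ H _ _ _ π hπ hfd a ha
  have hproper : ProperSpace H := FiniteDimensional.proper ℂ H
  obtain ⟨v0, hv0⟩ : ∃ v, π a v ≠ 0 := by
    by_contra h
    push Not at h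
    exact ha (ContinuousLinearMap.ext h)
  -- for every unit vector there is a good element
  have h1 : ∀ v : H, v ≠ 0 → ∃ x : A, 1 < ‖π (a * x) v‖ := by
    intro v hv
    have hd := cyclic_of_irr hπ hv
    set R : ℝ := 2 / ‖π a v0‖ with hR
    have hn : 0 < ‖π a v0‖ := norm_pos_iff.2 hv0
    have hopen : IsOpen {y : H | 1 < ‖π a y‖} :=
      isOpen_lt continuous_const (by fun_prop)
    obtain ⟨x, hx⟩ := hd.exists_mem_open hopen ⟨(R : ℂ) • v0, by
      rw [Set.mem_ofPred_eq, map_smul, norm_smul, Complex.norm_real, Real.norm_eq_abs,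
        abs_of_nonneg (by positivity), hR, div_mul_cancel₀ _ hn.ne']
      norm_num⟩
    refine ⟨x, ?_⟩
    rw [map_mul]
    exact hx
  have hcomp : IsCompact (Metric.sphere (0 : H) 1) := isCompact_sphere 0 1
  have h2 : ∀ v : H, ∃ x : A, v ≠ 0 → 1 < ‖π (a * x) v‖ := by
    intro v
    by_cases hv : v = 0
    · exact ⟨0, fun h => absurd hv h⟩
    · obtain ⟨x, hx⟩ := h1 v hv
      exact ⟨x, fun _ => hx⟩
  choose x hx using h2
  obtain ⟨T, hT1, hT2⟩ := hcomp.elim_nhds_subcover (fun v => {y : H | 1 < ‖π (a * x v) y‖}) (by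
    intro v hv
    have hv0 : v ≠ 0 := by
      rintro rfl
      simp at hv
    exact (isOpen_lt continuous_const (by fun_prop)).mem_nhds (hx v hv0))
  refine ⟨∑ v ∈ T, star (a * x v) * (a * x v),
    Finset.sum_nonneg fun v _ => star_mul_self_nonneg _, ?_, ?_⟩
  · rw [← sub_nonneg, nonneg_iff_isPositive, isPositive_iff_complex]
    intro y
    apply inner_flip
    have e1 : ⟪y, (π (∑ v ∈ T, star (a * x v) * (a * x v)) - 1) y⟫_ℂ =
        ((∑ v ∈ T, ‖π (a * x v) y‖ ^ 2 - ‖y‖ ^ 2 : ℝ) : ℂ) := by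
      rw [sub_apply, one_apply_eq_self, inner_sub_right, map_sum, sum_apply, inner_sum,
        inner_self_eq_norm_sq_to_K]
      push_cast
      congr 1
      refine Finset.sum_congr rfl fun v _ => ?_
      rw [map_mul, mul_apply_eq_comp, ← pi_inner, inner_self_eq_norm_sq_to_K]
      rfl
    rw [e1]
    rw [← Complex.ofReal_zero]
    refine Complex.real_le_real.2 ?_
    by_cases hy : y = 0
    · rw [hy]
      simp
    · have hn : 0 < ‖y‖ := norm_pos_iff.2 hy
      set y' : H := ((‖y‖⁻¹ : ℝ) : ℂ) • y with hy'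
      have hy1 : y' ∈ Metric.sphere (0 : H) 1 := by
        rw [mem_sphere_zero_iff_norm, hy', norm_smul, Complex.norm_real, norm_inv, norm_norm,
          inv_mul_cancel₀ hn.ne']
      obtain ⟨v, hv, hv2⟩ := Set.mem_iUnion₂.1 (hT2 hy1)
      rw [Set.mem_ofPred_eq, hy', map_smul, norm_smul, Complex.norm_real, norm_inv, norm_norm,
        lt_inv_mul_iff₀ hn, mul_one] at hv2
      have h5 : ‖y‖ ^ 2 ≤ ‖π (a * x v) y‖ ^ 2 := by gcongr
      have h6 : ‖π (a * x v) y‖ ^ 2 ≤ ∑ v ∈ T, ‖π (a * x v) y‖ ^ 2 :=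
        Finset.single_le_sum (f := fun v => ‖π (a * x v) y‖ ^ 2) (fun _ _ => sq_nonneg _) hv
      linarith
  · intro D _ τ hτ
    rw [map_sum]
    refine Finset.sum_eq_zero fun v _ => ?_
    rw [map_mul, map_mul, hτ, zero_mul, mul_zero]

end Pool.Agent.V1215.NI
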