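import Pool.Agent.V1215.NI.Asm3
import Pool.Agent.V1215.NI.DIM
import Pool.Agent.V1215.NI.DICH
import Pool.Agent.V1215.NI.KER
import Pool.Agent.V1215.NI.UNIT

/-! # Homogeneous elements -/

set_option autoImplicit false

open scoped CStarAlgebra ComplexOrder InnerProductSpace
open ContinuousLinearMap

namespace Pool.Agent.V1215.NI

open Pool.Agent.W661.Nrm

universe u v w

section
variable {A I : Type u} [CStarAlgebra A] [PartialOrder A] [StarOrderedRing A] [CStarAlgebra I]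
  [PartialOrder I] [StarOrderedRing I] {j : A →⋆ₐ[ℂ] I}

theorem exists_homog (HBF : S_BF.{u, u}) (HDIM : S_DIM.{u, u}) (hj : IsInjectiveEnvelope j)
    {N : ℕ} {a : A} (ha : a ≠ 0)
    (hN : ∀ φ : A →ₚ[ℂ] ℂ, Pure φ → Big N φ.GNS → φ.gnsStarAlgHom a = 0) :
    ∃ (n : ℕ) (w : A), 1 ≤ n ∧ w ≠ 0 ∧ Homog j n w ∧
      ∀ {D : Type u} [CStarAlgebra D] (τ : A →⋆ₐ[ℂ] D), τ a = 0 → τ w = 0 := by
  let S : ℕ → Prop := fun n => ∃ φ : A →ₚ[ℂ] ℂ, Pure φ ∧ φ.gnsStarAlgHom a ≠ 0 ∧ Big n φ.GNS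
  have hS1 : S 1 := by
    obtain ⟨φ, hφ, hφa⟩ := exists_pure_ne ha
    have hnt := gns_nontrivial hφ
    refine ⟨φ, hφ, hφa, orth_big (fun _ : Fin 1 => (1 : φ.GNS →L[ℂ] φ.GNS)) ?_ ?_ ?_⟩
    · intro i
      rw [IsSelfAdjoint, star_one]
    · intro i l hil
      exact absurd (Subsingleton.elim i l) hil
    · intro i
      exact one_ne_zero
  have hSN : ∀ M, N ≤ M → ¬ S M := by
    rintro M hM ⟨φ, hφ, hφa, hb⟩
    exact hφa (hN φ hφ (big_mono hM hb))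
  obtain ⟨n, hn1, hSn, hSn1⟩ : ∃ n, 1 ≤ n ∧ S n ∧ ¬ S (n + 1) := by
    by_contra hcon
    push Not at hcon
    have hall : ∀ n, S (n + 1) := by
      intro n
      induction n with
      | zero => exact hS1
      | succ n ih => exact hcon (n + 1) (by omega) ih
    exact hSN (N + 1) (by omega) (hall N)
  obtain ⟨φ0, hφ0, hφa, hbig⟩ := hSn
  have hirr0 := irr_of_pure hφ0
  obtain ⟨h, hsa, hh⟩ := HBF A φ0.GNS 1 n (fun _ => φ0.gnsStarAlgHom) (fun _ => hirr0)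
    (fun s t T hst => absurd (Subsingleton.elim s t) hst) hbig
  have hc : ∀ i, i < n → φ0.gnsStarAlgHom (be (1 * n) h i) ≠ 0 := by
    intro i hi
    have := hh 0 ⟨i, hi⟩
    simpa [be] using this
  obtain ⟨w, hw, hw'⟩ := irr_word hirr0 (Finset.univ : Finset (Option (Fin n)))
    (fun i => match i with
      | none => a
      | some m => be (1 * n) h m) (by
      rintro (_ | m) -
      · exact hφa
      · exact hc m m.2) (by
      rw [map_one]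
      intro h1
      apply hφa
      rw [← mul_one a, map_mul, map_one, h1, mul_zero])
  have hw0 : w ≠ 0 := by
    rintro rfl
    exact hw (map_zero _)
  have hwa : ∀ {D : Type u} [CStarAlgebra D] (τ : A →⋆ₐ[ℂ] D), τ a = 0 → τ w = 0 :=
    fun τ hτ => hw' τ ⟨none, Finset.mem_univ _, hτ⟩
  have hwb : ∀ {D : Type u} [CStarAlgebra D] (τ : A →⋆ₐ[ℂ] D) (i : Fin n),
      τ (be (1 * n) h i) = 0 → τ w = 0 :=
    fun τ i hτ => hw' τ ⟨some i, Finset.mem_univ _, hτ⟩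
  -- dimension at least `n`
  have hlow : ∀ (K : Type u) [NormedAddCommGroup K] [InnerProductSpace ℂ K] [CompleteSpace K]
      (τ : A →⋆ₐ[ℂ] (K →L[ℂ] K)), τ w ≠ 0 → Big n K := by
    intro K _ _ _ τ hτ
    refine orth_big (fun i : Fin n => τ (be (1 * n) h i)) ?_ ?_ ?_
    · intro i
      rw [IsSelfAdjoint, ← map_star, (be_sa (1 * n) h i).star_eq]
    · intro i l hil
      rw [← map_mul, be_mul (1 * n) h (fun h => hil (Fin.ext h)), map_zero]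
    · intro i hi
      exact hτ (hwb τ i hi)
  refine ⟨n, w, hn1, hw0, ?_, fun τ hτ => hwa τ hτ⟩
  intro H _ _ _ σ hσ hσw
  have hσw' : (σ.comp j) w ≠ 0 := hσw
  have hσa : σ (j a) ≠ 0 := fun h0 => hσw' (hwa (σ.comp j) h0)
  have hnb : ¬ Big (n + 1) H := HDIM A I j hj (n + 1) a
    (fun φ hφ hφa' hb => hSn1 ⟨φ, hφ, hφa', hb⟩) H σ hσ hσa
  refine ⟨hlow H (σ.comp j) hσw', hnb, irr_of_small (σ.comp j) hnb hσw' ?_⟩
  intro K _ ρ hρ
  exact hlow K ρ hρ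

/-- translates of homogeneous elements -/
lemma homog_translate {n : ℕ} {w : A} (hw : Homog j n w) (αg : A ≃⋆ₐ[ℂ] A) (βg : I ≃⋆ₐ[ℂ] I)
    (hαβ : ∀ a, βg (j a) = j (αg a)) : HomogP j n (αg w) := by
  intro ψ hψ hψw
  have h1 : (ψ.gnsStarAlgHom.comp (βg : I →⋆ₐ[ℂ] I)) (j w) ≠ 0 := by
    show ψ.gnsStarAlgHom (βg (j w)) ≠ 0
    rwa [hαβ]
  obtain ⟨h2, h3, h4⟩ := hw ψ.GNS (ψ.gnsStarAlgHom.comp (βg : I →⋆ₐ[ℂ] I))
    (irr_comp_equiv (irr_of_pure hψ) βg) h1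
  refine ⟨h2, h3, fun T hT => h4 T fun x => ?_⟩
  have h5 := hT (αg x)
  show T * ψ.gnsStarAlgHom (βg (j x)) = ψ.gnsStarAlgHom (βg (j x)) * T
  rw [hαβ]
  exact h5

/-- simultaneous genericity for finitely many group elements -/
theorem gen_fin (HD : S_DICH.{u}) (HBF : S_BF.{u, u}) (HK : S_KER.{u})
    (hj : IsInjectiveEnvelope j) {G : Type w} [Group G] {α : G →* (A ≃⋆ₐ[ℂ] A)}
    {β : G →* (I ≃⋆ₐ[ℂ] I)} (hβ : ∀ g a, β g (j a) = j (α g a)) (n : ℕ) (hn : 1 ≤ n)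
    (a : A) (ha0 : a ≠ 0) (hH : HomogP j n a) (S : Finset G) :
    ∃ a' : A, a' ≠ 0 ∧ (∀ ψ : I →ₚ[ℂ] ℂ, Pure ψ → ψ.gnsStarAlgHom (j a') ≠ 0 →
        ψ.gnsStarAlgHom (j a) ≠ 0) ∧
      ∀ g ∈ S, ∀ ψ : I →ₚ[ℂ] ℂ, Pure ψ → ψ.gnsStarAlgHom (j a') ≠ 0 → ∀ T : ψ.GNS →L[ℂ] ψ.GNS,
        (∀ x : A, T * ψ.gnsStarAlgHom (j x) = ψ.gnsStarAlgHom (j (α g x)) * T) →
        ∀ x : I, T * ψ.gnsStarAlgHom x = ψ.gnsStarAlgHom (β g x) * T := by
  classical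
  induction S using Finset.induction_on with
  | empty => exact ⟨a, ha0, fun ψ _ h => h, fun g hg => absurd hg (Finset.notMem_empty g)⟩
  | insert g S hg ih =>
    obtain ⟨a1, ha1, h1, h2⟩ := ih
    obtain ⟨a2, ha2, h3, h4⟩ := gen HD HBF HK hj (α g) (β g) (hβ g) n hn a1 ha1
      (fun ψ hψ h => hH ψ hψ (h1 ψ hψ h))
    refine ⟨a2, ha2, fun ψ hψ h => h1 ψ hψ (h3 ψ hψ h), fun g' hg' ψ hψ h => ?_⟩
    rcases Finset.mem_insert.1 hg' with h5 | h5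
    · rw [h5]
      exact h4 ψ hψ h
    · exact h2 g' h5 ψ hψ (h3 ψ hψ h)

end

end Pool.Agent.V1215.NI
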