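import Pool.Agent.V1215.NI.Asm4

/-! # The second case: reduction to a translate of a homogeneous element -/

set_option autoImplicit false

open scoped CStarAlgebra ComplexOrder InnerProductSpace
open ContinuousLinearMap

namespace Pool.Agent.V1215.NI

open Pool.Agent.W661.Nrm

universe u v w

section
variable {A I : Type u} {B : Type v} {G : Type w} [CStarAlgebra A] [PartialOrder A]
  [StarOrderedRing A] [CStarAlgebra I] [PartialOrder I] [StarOrderedRing I] [CStarAlgebra B]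
  [PartialOrder B] [StarOrderedRing B] [Group G]
  {α : G →* (A ≃⋆ₐ[ℂ] A)} {β : G →* (I ≃⋆ₐ[ℂ] I)} {j : A →⋆ₐ[ℂ] I} {ι : I →⋆ₐ[ℂ] B}
  {u : G →* unitary B} {E : B →L[ℂ] I} {k : ℕ}

lemma coeff1 (h : IsReducedCrossedProduct β ι u E) (x x' : I) (y : B) (s t : G) :
    E (star (u s : B) * (ι (star x) * y * ι x') * (u t : B)) =
      star (β s⁻¹ x) * E (star (u s : B) * y * (u t : B)) * β t⁻¹ x' := by
  have h1 : ∀ (g : G) (x : I), ι x * (u g : B) = (u g : B) * ι (β g⁻¹ x) := by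
    intro g x
    rw [h.u_mul_ι, act_inv]
  rw [← h.E_bimod]
  congr 1
  have h2 : star (u s : B) * ι (star x) = ι (star (β s⁻¹ x)) * star (u s : B) := by
    rw [map_star, ← star_mul, h1, star_mul, map_star]
  calc star (u s : B) * (ι (star x) * y * ι x') * (u t : B)
      = (star (u s : B) * ι (star x)) * y * (ι x' * (u t : B)) := by simp only [mul_assoc]
    _ = _ := by
        rw [h2, h1]
        simp only [mul_assoc]

/-- a positive lower bound of the norm from a vector -/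
lemma lt_norm_of_form (h : IsReducedCrossedProduct β ι u E) {f : ℕ} (γ : Fin f → G)
    (hγ : Function.Injective γ) {H : Type u} [NormedAddCommGroup H] [InnerProductSpace ℂ H]
    [CompleteSpace H] (π : I →⋆ₐ[ℂ] (H →L[ℂ] H)) {l : ℕ} (Y : CStarMatrix (Fin l) (Fin l) B)
    (hY : 0 ≤ Y) (ξ : Fin l → Fin f → H) {m : ℝ}
    (hξ : m * ∑ i, ∑ s, ‖ξ i s‖ ^ 2 < (QF u E π γ Y ξ).re) : m < ‖Y‖ := by
  by_contra hcon
  have h1 := g2 I B G β ι u E h H (π : I →ₗ[ℂ] (H →L[ℂ] H)) (map_one π)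
    (fun m M hM v => hom_cp π m M hM v) l Y hY f γ hγ ξ
  have h2 : ‖Y‖ * ∑ i, ∑ s, ‖ξ i s‖ ^ 2 ≤ m * ∑ i, ∑ s, ‖ξ i s‖ ^ 2 :=
    mul_le_mul_of_nonneg_right (not_lt.1 hcon)
      (Finset.sum_nonneg fun i _ => Finset.sum_nonneg fun s _ => sq_nonneg _)
  exact absurd (lt_of_lt_of_le hξ h1) (not_lt.2 h2)

lemma norm_kap_ge {C : Type*} [CStarAlgebra C] [PartialOrder C] [StarOrderedRing C] (b : C) :
    ‖b‖ ≤ ‖kap (0 : Fin 1) b‖ := by
  have h1 : b = (kap (0 : Fin 1) b) 0 0 := by rw [kap_apply, if_pos ⟨rfl, rfl⟩]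
  conv_lhs => rw [h1]
  exact CStarMatrix.norm_entry_le_norm

/-- the second case: reduction to a translate of a homogeneous element -/
theorem caseB1 (hβ : ∀ g a, β g (j a) = j (α g a)) (h : IsReducedCrossedProduct β ι u E)
    (hj : IsInjectiveEnvelope j) (hN : Norms ι) (hk : 1 ≤ k) (Y : CStarMatrix (Fin k) (Fin k) B)
    (hY : 0 ≤ Y) {m1 m2 : ℝ} (hm2 : 0 ≤ m2) (hm : m2 < m1) {f : ℕ} (γ : Fin f → G)
    (hγ : Function.Injective γ) {n : ℕ} {w : A} (hw0 : w ≠ 0) (hwH : Homog j n w)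
    (hwN : ∀ ψ : I →ₚ[ℂ] ℂ, Pure ψ → ψ.gnsStarAlgHom (j w) ≠ 0 →
      Neg ψ.gnsStarAlgHom (WW u E γ Y m1)) :
    ∃ (c : Fin k → I) (f2 : ℕ) (γ2 : Fin f2 → G) (a3 : A), ‖∑ i, star (c i) * c i‖ ≤ 1 ∧
      Function.Injective γ2 ∧ a3 ≠ 0 ∧ HomogP j n a3 ∧
      ∀ ψ : I →ₚ[ℂ] ℂ, Pure ψ → ψ.gnsStarAlgHom (j a3) ≠ 0 →
        Neg ψ.gnsStarAlgHom
          (WW u E γ2 (kap (0 : Fin 1) (bil Y (fun i => ι (c i)) (fun i => ι (c i)))) m2) := by
  have hYs : star Y = Y := (IsSelfAdjoint.of_nonneg hY).star_eq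
  have hjw : j w ≠ 0 := fun h0 => hw0 (hj.inj (by rw [h0, map_zero]))
  obtain ⟨ψ0, hψ0, hψw⟩ := exists_pure_ne hjw
  set π0 := ψ0.gnsStarAlgHom with hπ0
  obtain ⟨-, hnb, hirr⟩ := hwH ψ0.GNS π0 (irr_of_pure hψ0) hψw
  have hfd : FiniteDimensional ℂ ψ0.GNS := fd_of_not_big hnb
  obtain ⟨ξ, hξ⟩ := neg_WW (π0 : I →ₗ[ℂ] (ψ0.GNS →L[ℂ] ψ0.GNS)) (map_one π0) γ Y m1
    (hwN ψ0 hψ0 hψw)
  obtain ⟨b0, hb0, hb1, hb2⟩ := unit A ψ0.GNS (π0.comp j) hirr hfd w hψw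
  have hpos : ∀ (g : G) (x : A), 0 ≤ x → 0 ≤ α g x := by
    intro g x hx
    obtain ⟨y, rfl⟩ := (CStarAlgebra.nonneg_iff_eq_star_mul_self).1 hx
    rw [map_mul, map_star]
    exact star_mul_self_nonneg _
  set b1 : A := ∑ s, α (γ s) b0 with hb1d
  have hb1n : 0 ≤ b1 := Finset.sum_nonneg fun s _ => hpos _ _ hb0
  have hb1s : IsSelfAdjoint b1 := IsSelfAdjoint.of_nonneg hb1n
  set a1 : A := cfc mn b1 with ha1
  have ha1s : star a1 = a1 := trunc_sa b1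
  have ha1n : ‖a1‖ ≤ 1 := trunc_norm b1 hb1n
  have hone : ∀ s, π0 (β (γ s)⁻¹ (j a1)) = 1 := by
    intro s
    have h1 : ((π0.comp j).comp (α (γ s)⁻¹ : A →⋆ₐ[ℂ] A)) (cfc mn b1) = 1 := by
      refine trunc_one _ b1 hb1s ?_
      have h2 : ((π0.comp j).comp (α (γ s)⁻¹ : A →⋆ₐ[ℂ] A)) b1 =
          ∑ t, (π0.comp j) (α (γ s)⁻¹ (α (γ t) b0)) := by
        rw [hb1d, map_sum]
        rfl
      rw [h2]
      have h3 : (π0.comp j) (α (γ s)⁻¹ (α (γ s) b0)) ≤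
          ∑ t, (π0.comp j) (α (γ s)⁻¹ (α (γ t) b0)) := by
        refine Finset.single_le_sum (f := fun t => (π0.comp j) (α (γ s)⁻¹ (α (γ t) b0)))
          (fun t _ => ?_) (Finset.mem_univ s)
        obtain ⟨y, hy⟩ := (CStarAlgebra.nonneg_iff_eq_star_mul_self).1
          (hpos (γ s)⁻¹ _ (hpos (γ t) _ hb0))
        rw [hy, map_mul, map_star]
        exact star_mul_self_nonneg _
      refine le_trans ?_ h3
      rw [act_mul, inv_mul_cancel, map_one]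
      exact hb1
    rw [hβ]
    exact h1
  have hkill : ∀ {H : Type u} [NormedAddCommGroup H] [InnerProductSpace ℂ H] [CompleteSpace H]
      (σ : I →⋆ₐ[ℂ] (H →L[ℂ] H)), σ (j a1) ≠ 0 → ∃ s, σ (j (α (γ s) w)) ≠ 0 := by
    intro H _ _ _ σ hσ
    by_contra hcon
    push Not at hcon
    apply hσ
    refine trunc_zero (σ.comp j) b1 hb1s ?_
    rw [hb1d, map_sum]
    refine Finset.sum_eq_zero fun s _ => ?_
    exact hb2 (H →L[ℂ] H) ((σ.comp j).comp (α (γ s) : A →⋆ₐ[ℂ] A)) (hcon s)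
  -- the compressed matrix
  obtain ⟨X, hX⟩ : ∃ X : CStarMatrix (Fin k) (Fin k) B, Y = star X * X := by
    set_option backward.isDefEq.respectTransparency false in
    exact (CStarAlgebra.nonneg_iff_eq_star_mul_self).1 hY
  set X' : CStarMatrix (Fin k) (Fin k) B := CStarMatrix.ofMatrix fun i l => X i l * ι (j a1) with hX'
  have hX'a : ∀ i l, X' i l = X i l * ι (j a1) := fun i l => rfl
  have hY'0 : 0 ≤ star X' * X' := by
    set_option backward.isDefEq.respectTransparency false in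
    exact star_mul_self_nonneg X'
  have hY'e : ∀ i l, (star X' * X') i l = ι (star (j a1)) * Y i l * ι (j a1) := by
    intro i l
    rw [hX, CStarMatrix.mul_apply, CStarMatrix.mul_apply, Finset.mul_sum, Finset.sum_mul]
    refine Finset.sum_congr rfl fun p _ => ?_
    rw [CStarMatrix.star_apply, CStarMatrix.star_apply, hX'a, hX'a, star_mul, map_star]
    simp only [mul_assoc]
  have hnorm : m1 < ‖star X' * X'‖ := by
    refine lt_norm_of_form h γ hγ π0 (star X' * X') hY'0 ξ ?_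
    have h1 : QF u E π0 γ (star X' * X') ξ = QF u E π0 γ Y ξ := by
      unfold QF
      refine Finset.sum_congr rfl fun i _ => Finset.sum_congr rfl fun s _ =>
        Finset.sum_congr rfl fun l _ => Finset.sum_congr rfl fun t _ => ?_
      rw [hY'e, coeff1 h, map_mul, map_mul, map_star, hone, hone, star_one, one_mul, mul_one]
    rw [h1]
    exact hξ
  obtain ⟨c, hc, hc2⟩ := col_of_norms ι hN k hk X' hm2 (hm.trans hnorm)
  set c1 : Fin k → I := fun l => j a1 * c l with hc1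
  have hc1n : ‖∑ i, star (c1 i) * c1 i‖ ≤ 1 := by
    refine le_trans ?_ hc
    refine CStarAlgebra.norm_le_norm_of_nonneg_of_le
      (Finset.sum_nonneg fun i _ => star_mul_self_nonneg _) ?_
    refine Finset.sum_le_sum fun i _ => ?_
    have h1 : star (j a1) * j a1 ≤ 1 := by
      have h2 : ‖star (j a1) * j a1‖ ≤ 1 := by
        rw [CStarRing.norm_star_mul_self]
        have := (norm_ι_le j a1).trans ha1n
        nlinarith [norm_nonneg (j a1)]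
      have h3 := (IsSelfAdjoint.star_mul_self (j a1)).le_algebraMap_norm_self
      refine h3.trans ?_
      have h4 : (1 : I) = algebraMap ℝ I 1 := (map_one _).symm
      rw [h4]
      exact algebraMap_mono I h2
    have h5 := star_left_conjugate_le_conjugate h1 (c i)
    rw [mul_one] at h5
    have h6 : star (c1 i) * c1 i = star (c i) * (star (j a1) * j a1) * c i := by
      rw [hc1]
      simp only [star_mul, mul_assoc]
    rw [h6]
    exact h5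
  have hbil : bil (star X' * X') (fun i => ι (c i)) (fun i => ι (c i)) =
      bil Y (fun i => ι (c1 i)) (fun i => ι (c1 i)) := by
    unfold bil
    refine Finset.sum_congr rfl fun i _ => Finset.sum_congr rfl fun l _ => ?_
    rw [hY'e, hc1]
    simp only [map_mul, star_mul, map_star, mul_assoc]
  rw [hbil] at hc2
  set b : B := bil Y (fun i => ι (c1 i)) (fun i => ι (c1 i)) with hb
  have hb0' : 0 ≤ b := bil_nonneg Y hY _
  have hkap0 : 0 ≤ kap (0 : Fin 1) b := map_nonneg (kap 0) hb0'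
  have hkaps : star (kap (0 : Fin 1) b) = kap (0 : Fin 1) b := (IsSelfAdjoint.of_nonneg hkap0).star_eq
  obtain ⟨f2, γ2, hγ2, hW2⟩ := g1 I B G β ι u E h 1 (kap (0 : Fin 1) b) hkap0 m2 hm2
    (lt_of_lt_of_le hc2 (norm_kap_ge b))
  change ¬ 0 ≤ WW u E γ2 (kap (0 : Fin 1) b) m2 at hW2
  have hW2s := WW_sa h γ2 (kap (0 : Fin 1) b) hkaps m2
  have hWex : ∃ ψ1 : I →ₚ[ℂ] ℂ, Pure ψ1 ∧
      Neg ψ1.gnsStarAlgHom (WW u E γ2 (kap (0 : Fin 1) b) m2) := by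
    rcases detect dich hj (1 * f2) (WW u E γ2 (kap (0 : Fin 1) b) m2) hW2s hW2 (fun _ => False) with
      ⟨φ, _, h, _⟩ | ⟨a', ha', -, h⟩
    · exact h.elim
    · have hja : j a' ≠ 0 := fun h0 => ha' (hj.inj (by rw [h0, map_zero]))
      obtain ⟨ψ1, hψ1, hψ1a⟩ := exists_pure_ne hja
      exact ⟨ψ1, hψ1, h ψ1 hψ1 hψ1a⟩
  obtain ⟨ψ1, hψ1, hneg1⟩ := hWex
  set π1 := ψ1.gnsStarAlgHom with hπ1
  obtain ⟨ζ, hζ⟩ := neg_WW (π1 : I →ₗ[ℂ] (ψ1.GNS →L[ℂ] ψ1.GNS)) (map_one π1) γ2 _ m2 hneg1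
  obtain ⟨s1, hs1⟩ : ∃ s, π1 (β (γ2 s)⁻¹ (j a1)) ≠ 0 := by
    by_contra hcon
    push Not at hcon
    have h1 : QF u E (π1 : I →ₗ[ℂ] (ψ1.GNS →L[ℂ] ψ1.GNS)) γ2 (kap (0 : Fin 1) b) ζ =
        QF u E (π1 : I →ₗ[ℂ] (ψ1.GNS →L[ℂ] ψ1.GNS)) γ2 Y
          (fun i s => π1 (β (γ2 s)⁻¹ (c1 i)) (ζ 0 s)) :=
      QF_bil h (π1 : I →ₗ[ℂ] (ψ1.GNS →L[ℂ] ψ1.GNS)) γ2 Y c1 (fun s i => π1 (β (γ2 s)⁻¹ (c1 i)))
        (fun s i x => by
          show π1 (star (β (γ2 s)⁻¹ (c1 i)) * x) = _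
          rw [map_mul, map_star]
          rfl)
        (fun s i x => by
          show π1 (x * β (γ2 s)⁻¹ (c1 i)) = _
          rw [map_mul]
          rfl) ζ
    have h2 : ∀ s i, π1 (β (γ2 s)⁻¹ (c1 i)) = 0 := by
      intro s i
      rw [hc1]
      simp only
      rw [map_mul, map_mul, hcon, zero_mul]
    rw [h1] at hζ
    have h3 : (QF u E (π1 : I →ₗ[ℂ] (ψ1.GNS →L[ℂ] ψ1.GNS)) γ2 Y
        (fun i s => π1 (β (γ2 s)⁻¹ (c1 i)) (ζ 0 s))).re = 0 := by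
      unfold QF
      simp only [h2, zero_apply, inner_zero_left, Finset.sum_const_zero, Complex.zero_re]
    rw [h3] at hζ
    have h4 : 0 ≤ m2 * ∑ i, ∑ s, ‖ζ i s‖ ^ 2 :=
      mul_nonneg hm2 (Finset.sum_nonneg fun i _ => Finset.sum_nonneg fun s _ => sq_nonneg _)
    linarith
  obtain ⟨s2, hs2⟩ := hkill (π1.comp (β (γ2 s1)⁻¹ : I →⋆ₐ[ℂ] I)) hs1
  set g : G := (γ2 s1)⁻¹ * γ s2 with hg
  set w2 : A := α g w with hw2
  have hw2n : π1 (j w2) ≠ 0 := by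
    have h1 : π1 (β (γ2 s1)⁻¹ (j (α (γ s2) w))) ≠ 0 := hs2
    rw [hβ, act_mul] at h1
    exact h1
  have hw2H : HomogP j n w2 := homog_translate hwH (α g) (β g) (hβ g)
  obtain ⟨-, hnb1, hirr1⟩ := hw2H ψ1 hψ1 hw2n
  have hfd1 : FiniteDimensional ℂ ψ1.GNS := fd_of_not_big hnb1
  obtain ⟨b2, hb2n, hb21, hb2k⟩ := unit A ψ1.GNS (π1.comp j) hirr1 hfd1 w2 hw2n
  have hb2s : IsSelfAdjoint b2 := IsSelfAdjoint.of_nonneg hb2n
  set q : A := cfc mn b2 with hq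
  have hqs : star q = q := trunc_sa b2
  have hq1 : π1 (j q) = 1 := trunc_one (π1.comp j) b2 hb2s hb21
  set W2 := WW u E γ2 (kap (0 : Fin 1) b) m2 with hW2d
  set W3 : CStarMatrix (Fin (1 * f2)) (Fin (1 * f2)) I :=
    CStarMatrix.ofMatrix fun p r => j q * W2 p r * j q with hW3
  have hW3a : ∀ p r, W3 p r = j q * W2 p r * j q := fun p r => rfl
  have hjqs : star (j q) = j q := by rw [← map_star, hqs]
  have hW3s : IsSelfAdjoint W3 := by
    ext p r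
    rw [CStarMatrix.star_apply, hW3a, hW3a, star_mul, star_mul, hjqs]
    have h1 : star (W2 r p) = W2 p r := by
      have h2 : star W2 = W2 := hW2s
      conv_rhs => rw [← h2]
      rw [CStarMatrix.star_apply]
    rw [h1, mul_assoc]
  have hmove : ∀ {H : Type u} [NormedAddCommGroup H] [InnerProductSpace ℂ H] [CompleteSpace H]
      (σ : I →⋆ₐ[ℂ] (H →L[ℂ] H)) (ξ : Fin (1 * f2) → H),
      ∑ p, ∑ r, ⟪ξ p, σ (W3 p r) (ξ r)⟫_ℂ =
        ∑ p, ∑ r, ⟪σ (j q) (ξ p), σ (W2 p r) (σ (j q) (ξ r))⟫_ℂ := by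
    intro H _ _ _ σ ξ
    refine Finset.sum_congr rfl fun p _ => Finset.sum_congr rfl fun r _ => ?_
    rw [hW3a, map_mul, map_mul, mul_apply_eq_comp, mul_apply_eq_comp, pi_inner, hjqs]
  have hW30 : ¬ 0 ≤ W3 := by
    intro h0
    obtain ⟨ξ', hξ'⟩ := hneg1
    have h1 := hom_cp π1 _ W3 h0 ξ'
    rw [hmove π1 ξ', hq1] at h1
    simp only [one_apply_eq_self] at h1
    have h2 := (Complex.le_def.1 h1).1
    rw [Complex.zero_re] at h2
    linarith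
  rcases detect dich hj (1 * f2) W3 hW3s hW30 (fun _ => False) with ⟨φ, _, h, _⟩ | ⟨a3, ha3, -, h3⟩
  · exact h.elim
  have hprop : ∀ ψ : I →ₚ[ℂ] ℂ, Pure ψ → ψ.gnsStarAlgHom (j a3) ≠ 0 →
      ψ.gnsStarAlgHom (j w2) ≠ 0 ∧ Neg ψ.gnsStarAlgHom W2 := by
    intro ψ hψ hψ3
    obtain ⟨ξ', hξ'⟩ := h3 ψ hψ hψ3
    rw [hmove ψ.gnsStarAlgHom ξ'] at hξ'
    refine ⟨fun h0 => ?_, ⟨fun p => ψ.gnsStarAlgHom (j q) (ξ' p), hξ'⟩⟩
    have h4 : ψ.gnsStarAlgHom (j q) = 0 := by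
      refine trunc_zero (ψ.gnsStarAlgHom.comp j) b2 hb2s ?_
      exact hb2k (ψ.GNS →L[ℂ] ψ.GNS) (ψ.gnsStarAlgHom.comp j) h0
    rw [h4] at hξ'
    simp at hξ'
  exact ⟨c1, f2, γ2, a3, hc1n, hγ2, ha3, fun ψ hψ h => hw2H ψ hψ (hprop ψ hψ h).1,
    fun ψ hψ h => (hprop ψ hψ h).2⟩

end

end Pool.Agent.V1215.NI
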