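import Pool.Agent.V1215.NI.Stm

/-! # Bump functions of one element in finitely many disjoint irreducible representations -/

set_option autoImplicit false
set_option linter.unusedSectionVars false

open scoped CStarAlgebra ComplexOrder InnerProductSpace
open ContinuousLinearMap

namespace Pool.Agent.V1215.NI

open Pool.Agent.W661.Nrm

universe u v w

section
variable {H : Type v} [NormedAddCommGroup H] [InnerProductSpace ℂ H] [CompleteSpace H]

lemma bf_cont (N m : ℕ) : Continuous (bf N m) := by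
  unfold bf
  fun_prop

/-- the operator `∑ l i P_{v i}` -/
noncomputable def dg {n : ℕ} (l : Fin n → ℝ) (v : Fin n → H) : H →L[ℂ] H :=
  ∑ i, ((l i : ℂ)) • ((innerSL ℂ (v i)).smulRight (v i))

lemma dg_apply {n : ℕ} (l : Fin n → ℝ) (v : Fin n → H) (x : H) :
    dg l v x = ∑ i, ((l i : ℂ) * ⟪v i, x⟫_ℂ) • v i := by
  rw [dg, sum_apply]
  refine Finset.sum_congr rfl fun i _ => ?_
  rw [smul_apply, smulRight_apply, innerSL_apply_apply, smul_smul]

lemma dg_sa {n : ℕ} (l : Fin n → ℝ) (v : Fin n → H) : IsSelfAdjoint (dg l v) := by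
  rw [ContinuousLinearMap.isSelfAdjoint_iff_isSymmetric]
  intro x y
  simp only [coe_coe, dg_apply, sum_inner, inner_sum, inner_smul_left, inner_smul_right, map_mul, Complex.conj_ofReal,
    inner_conj_symm]
  refine Finset.sum_congr rfl fun i _ => ?_
  ring

lemma dg_vec {n : ℕ} (l : Fin n → ℝ) (v : Fin n → H) (hv : Orthonormal ℂ v) (j : Fin n) :
    dg l v (v j) = (l j : ℂ) • v j := by
  rw [dg_apply, Finset.sum_eq_single j]
  · rw [inner_self_eq_norm_sq_to_K, hv.1 j]; simp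
  · intro i _ hi
    rw [hv.2 hi, mul_zero, zero_smul]
  · simp

lemma dg_norm {n : ℕ} (l : Fin n → ℝ) (v : Fin n → H) (hv : Orthonormal ℂ v) (hl : ∀ i, |l i| ≤ 1) :
    ‖dg l v‖ ≤ 1 := by
  refine opNorm_le_bound _ zero_le_one fun x => ?_
  rw [one_mul]
  refine le_of_sq_le_sq ?_ (norm_nonneg _)
  have h1 : ‖dg l v x‖ ^ 2 = ∑ i, ‖(l i : ℂ) * ⟪v i, x⟫_ℂ‖ ^ 2 := by
    have h2 := hv.inner_sum (fun i => (l i : ℂ) * ⟪v i, x⟫_ℂ) (fun i => (l i : ℂ) * ⟪v i, x⟫_ℂ) Finset.univ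
    rw [← dg_apply, inner_self_eq_norm_sq_to_K] at h2
    have h3 : ((‖dg l v x‖ ^ 2 : ℝ) : ℂ) = ((∑ i, ‖(l i : ℂ) * ⟪v i, x⟫_ℂ‖ ^ 2 : ℝ) : ℂ) := by
      rw [Complex.ofReal_pow, Complex.ofReal_sum]
      refine (h2 : _ = _).trans ?_
      refine Finset.sum_congr rfl fun i _ => ?_
      rw [Complex.conj_mul', Complex.ofReal_pow]
    exact_mod_cast h3
  rw [h1]
  refine le_trans (Finset.sum_le_sum fun i _ => ?_) (hv.sum_inner_products_le x)
  rw [norm_mul, mul_pow]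
  have : ‖(l i : ℂ)‖ ≤ 1 := by rw [Complex.norm_real]; exact hl i
  have h2 : ‖(l i : ℂ)‖ ^ 2 ≤ 1 := pow_le_one₀ (norm_nonneg _) this
  exact mul_le_of_le_one_left (sq_nonneg _) h2

/-- a bump function of an operator does not vanish at an approximate eigenvector -/
lemma bump_ne (T : H →L[ℂ] H) (hT : IsSelfAdjoint T) (N m : ℕ) (v : H) (hv : ‖v‖ = 1)
    (h : ‖(4 * (N : ℝ)) • T v - (4 * (m : ℝ)) • v‖ < 1) : cfc (bf N m) T v ≠ 0 := by
  intro hB
  let e : ℝ → ℝ := fun t => 4 * ((N : ℝ) * t - (m : ℝ))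
  have hec : Continuous e := by fun_prop
  have hbc := bf_cont N m
  have hnn : ∀ t, 0 ≤ e t * e t + 2 * bf N m t - 1 := by
    intro t
    have hb : bf N m t = max 0 (1 - |e t|) := rfl
    rw [hb, ← abs_mul_abs_self (e t)]
    have h1 : 1 - |e t| ≤ max 0 (1 - |e t|) := le_max_right _ _
    nlinarith [sq_nonneg (1 - |e t|)]
  let g : ℝ → ℝ := fun t => √(e t * e t + 2 * bf N m t - 1)
  have hgc : Continuous g := by fun_prop
  have hg2 : ∀ t, g t * g t = e t * e t + 2 * bf N m t - 1 := fun t => Real.mul_self_sqrt (hnn t)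
  have h1 : cfc g T * cfc g T = cfc e T * cfc e T + (2 : ℝ) • cfc (bf N m) T - 1 := by
    rw [← cfc_mul g g T hgc.continuousOn hgc.continuousOn, ← cfc_mul e e T hec.continuousOn hec.continuousOn,
      ← cfc_smul (2 : ℝ) (bf N m) T hbc.continuousOn, ← cfc_add (a := T) (fun t => e t * e t)
        (fun t => (2 : ℝ) • bf N m t) (hf := (hec.mul hec).continuousOn)
        (hg := (hbc.const_smul (2 : ℝ)).continuousOn), ← cfc_const_one ℝ T,
        ← cfc_sub (a := T) (fun t => e t * e t + (2 : ℝ) • bf N m t) (fun _ => 1)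
        (hf := ((hec.mul hec).add (hbc.const_smul (2 : ℝ))).continuousOn) (hg := continuousOn_const)]
    congr 1
    funext t
    rw [hg2]
    rfl
  have h2 : cfc e T = (4 * (N : ℝ)) • T - (4 * (m : ℝ)) • 1 := by
    have : e = fun t => (4 * (N : ℝ)) • t - (4 * (m : ℝ)) • (1 : ℝ) := by
      funext t
      simp only [e, smul_eq_mul]
      ring
    rw [this, cfc_sub _ _ T (by fun_prop) (by fun_prop), cfc_smul_id (4 * (N : ℝ)) T, cfc_smul _ _ T (by fun_prop),
      cfc_const_one ℝ T]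
  have hgs : IsSelfAdjoint (cfc g T) := cfc_predicate g T
  have hes : IsSelfAdjoint (cfc e T) := cfc_predicate e T
  have sq : ∀ S : H →L[ℂ] H, IsSelfAdjoint S → (⟪v, (S * S) v⟫_ℂ) = ((‖S v‖ ^ 2 : ℝ) : ℂ) := by
    intro S hS
    rw [mul_apply_eq_comp, ← adjoint_inner_left, ← star_eq_adjoint, hS.star_eq, inner_self_eq_norm_sq_to_K]
    push_cast; rfl
  have h3 : ‖cfc g T v‖ ^ 2 = ‖cfc e T v‖ ^ 2 - 1 := by
    have h4 : (⟪v, (cfc g T * cfc g T) v⟫_ℂ) =
        ⟪v, (cfc e T * cfc e T + (2 : ℝ) • cfc (bf N m) T - 1) v⟫_ℂ := by rw [h1]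
    rw [sub_apply, add_apply, smul_apply, hB, smul_zero, add_zero, inner_sub_right, sq _ hgs, sq _ hes,
      one_apply_eq_self, inner_self_eq_norm_sq_to_K, hv] at h4
    have h5 : ((‖cfc g T v‖ ^ 2 : ℝ) : ℂ) = ((‖cfc e T v‖ ^ 2 - 1 : ℝ) : ℂ) := by
      rw [h4]; push_cast; simp
    exact_mod_cast h5
  have h6 : ‖cfc e T v‖ < 1 := by
    rw [h2, sub_apply, smul_apply, smul_apply, one_apply_eq_self]
    exact h
  nlinarith [sq_nonneg ‖cfc g T v‖, norm_nonneg (cfc e T v)]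

end

theorem bf_main : S_KAP.{u, v} → S_BF.{u, v} := by
  intro kap C _ H _ _ _ f n σ hirr hdis ⟨v, hv⟩
  set N := f * n with hN
  let lam : Fin f → Fin n → ℝ := fun s i => (((s : ℕ) * n + (i : ℕ) : ℕ) : ℝ) / (N : ℝ)
  have hlt : ∀ (s : Fin f) (i : Fin n), (s : ℕ) * n + (i : ℕ) < N := by
    intro s i
    calc (s : ℕ) * n + (i : ℕ) < (s : ℕ) * n + n := by omega
      _ = ((s : ℕ) + 1) * n := by ring
      _ ≤ f * n := Nat.mul_le_mul_right _ s.2
  have hlam : ∀ s i, |lam s i| ≤ 1 := by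
    intro s i
    have h1 : (0 : ℝ) < N := by exact_mod_cast (Nat.zero_le _).trans_lt (hlt s i)
    have h2 : (((s : ℕ) * n + (i : ℕ) : ℕ) : ℝ) ≤ N := by exact_mod_cast (hlt s i).le
    rw [abs_of_nonneg (by positivity)]
    exact (div_le_one h1).2 h2
  obtain ⟨c, hc1, hc2, hc3⟩ := kap C H f σ (fun s => dg (lam s) v) (fun s => dg_sa _ _)
    (fun s => dg_norm _ _ hv (hlam s)) (by
      intro s t T hT
      by_cases hst : s = t
      · subst hst
        obtain ⟨z, hz⟩ := hirr s T hT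
        rw [hz, smul_mul_assoc, mul_smul_comm, one_mul, mul_one]
      · rw [hdis s t T hst hT, zero_mul, mul_zero]) n (fun _ i => v i) (1 / (4 * ((N : ℝ) + 1))) (by positivity)
  refine ⟨c, hc1, fun s i => ?_⟩
  have h1 : (0 : ℝ) < N := by exact_mod_cast (Nat.zero_le _).trans_lt (hlt s i)
  have hsa : IsSelfAdjoint (σ s c) := hc1.map (σ s)
  have h2 : σ s (cfc (bf N ((s : ℕ) * n + (i : ℕ))) c) = cfc (bf N ((s : ℕ) * n + (i : ℕ))) (σ s c) :=
    StarAlgHomClass.map_cfc (σ s) _ c (hf := (bf_cont _ _).continuousOn)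
  rw [h2]
  intro hcon
  refine bump_ne (σ s c) hsa N ((s : ℕ) * n + (i : ℕ)) (v i) (hv.1 i) ?_ (by rw [hcon]; rfl)
  have h3 := hc3 s i
  rw [dg_vec _ _ hv] at h3
  have h4 : (4 * (N : ℝ)) • σ s c (v i) - (4 * ((((s : ℕ) * n + (i : ℕ) : ℕ)) : ℝ)) • v i =
      (4 * (N : ℝ)) • (σ s c (v i) - ((lam s i : ℝ) : ℂ) • v i) := by
    rw [smul_sub]
    congr 1
    rw [Complex.coe_smul, smul_smul]
    congr 1
    simp only [lam]
    field_simp
  rw [h4, norm_smul, Real.norm_of_nonneg (by positivity)]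
  calc 4 * (N : ℝ) * ‖σ s c (v i) - ((lam s i : ℝ) : ℂ) • v i‖
      ≤ 4 * (N : ℝ) * (1 / (4 * ((N : ℝ) + 1))) := by gcongr
    _ < 1 := by
      rw [mul_one_div, div_lt_one (by positivity)]
      linarith

end Pool.Agent.V1215.NI
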