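import Pool.Agent.V1215.NI.Stm

/-! # Kaplansky density for a finite family of representations -/

set_option autoImplicit false
set_option linter.unusedSectionVars false

open scoped CStarAlgebra ComplexOrder InnerProductSpace
open ContinuousLinearMap

namespace Pool.Agent.V1215.NI

open H759R2.Kad H770R2.Kad

universe u v w

section
variable {H : Type v} [NormedAddCommGroup H] [InnerProductSpace ℂ H] [CompleteSpace H] {f : ℕ}

/-- diagonal operators -/
noncomputable def dgf (T : Fin f → (H →L[ℂ] H)) : HH (Fin f) H →L[ℂ] HH (Fin f) H :=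
  opMat fun i l => if i = l then T i else 0

theorem dgf_apply (T : Fin f → (H →L[ℂ] H)) (x : HH (Fin f) H) (i : Fin f) :
    dgf T x i = T i (x i) := by
  rw [dgf, opMat_apply, Finset.sum_eq_single i]
  · simp
  · intro l _ hl
    simp [Ne.symm hl]
  · simp

theorem dgf_star (T : Fin f → (H →L[ℂ] H)) : star (dgf T) = dgf fun i => star (T i) := by
  rw [dgf, opMat_star, dgf]
  congr 1
  funext i l
  by_cases h : i = l
  · subst h
    simp
  · simp [h, Ne.symm h]

/-- the direct sum of representations -/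
noncomputable def dsum {C : Type u} [CStarAlgebra C] (σ : Fin f → (C →⋆ₐ[ℂ] (H →L[ℂ] H))) :
    C →⋆ₐ[ℂ] (HH (Fin f) H →L[ℂ] HH (Fin f) H) where
  toFun c := dgf fun s => σ s c
  map_one' := by
    ext x i
    simp [dgf_apply]
  map_mul' a b := by
    ext x i
    simp [dgf_apply]
  map_zero' := by
    ext x i
    simp [dgf_apply]
  map_add' a b := by
    ext x i
    simp [dgf_apply]
  commutes' r := by
    ext x i
    rw [dgf_apply, AlgHomClass.commutes]
    simp [Algebra.algebraMap_eq_smul_one]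
  map_star' a := by
    rw [dgf_star]
    simp [map_star]

theorem dsum_apply {C : Type u} [CStarAlgebra C] (σ : Fin f → (C →⋆ₐ[ℂ] (H →L[ℂ] H))) (c : C)
    (x : HH (Fin f) H) (i : Fin f) : dsum σ c x i = σ i c (x i) := dgf_apply _ _ _

theorem dgf_norm (T : Fin f → (H →L[ℂ] H)) (h : ∀ i, ‖T i‖ ≤ 1) : ‖dgf T‖ ≤ 1 := by
  refine opNorm_le_bound _ zero_le_one fun x => ?_
  rw [one_mul]
  refine le_of_sq_le_sq ?_ (norm_nonneg _)
  rw [PiLp.norm_sq_eq_of_L2, PiLp.norm_sq_eq_of_L2]
  refine Finset.sum_le_sum fun i _ => ?_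
  rw [dgf_apply]
  gcongr
  refine (le_opNorm _ _).trans ?_
  calc ‖T i‖ * ‖x i‖ ≤ 1 * ‖x i‖ := by gcongr; exact h i
    _ = ‖x i‖ := one_mul _

end

theorem kap : S_KAP.{u, v} := by
  intro C _ H _ _ _ f σ X hX hX1 hc n x ε hε
  have hsa : IsSelfAdjoint (dgf X) := by
    rw [IsSelfAdjoint, dgf_star]
    congr 1
    funext i
    exact (hX i).star_eq
  have hbic : ∀ y : HH (Fin f) H →L[ℂ] HH (Fin f) H, (∀ a, y * dsum σ a = dsum σ a * y) →
      y * dgf X = dgf X * y := by
    intro y hy
    -- entries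
    let p : Fin f → Fin f → (H →L[ℂ] H) := fun s t =>
      (PiLp.proj 2 (fun _ : Fin f => H) s : HH (Fin f) H →L[ℂ] H) ∘L y ∘L
        (LinearMap.mkContinuous (inj t : H →ₗ[ℂ] HH (Fin f) H) 1 (fun w => by
          rw [one_mul, PiLp.norm_eq_of_L2]
          rw [Finset.sum_eq_single t]
          · simp [inj_apply]
          · intro b _ hb
            simp [inj_apply, hb]
          · simp))
    have hp : ∀ s t w, p s t w = (y (inj t w)) s := fun s t w => rfl
    have hpc : ∀ s t c, p s t * σ t c = σ s c * p s t := by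
      intro s t c
      ext w
      rw [mul_apply_eq_comp, mul_apply_eq_comp, hp, hp]
      have h1 : (inj t (σ t c w) : HH (Fin f) H) = dsum σ c (inj t w) := by
        ext i
        rw [dsum_apply, inj_apply, inj_apply]
        split_ifs with h
        · rw [h]
        · rw [map_zero]
      rw [h1, ← mul_apply_eq_comp, hy, mul_apply_eq_comp, dsum_apply]
    ext w s
    rw [mul_apply_eq_comp, mul_apply_eq_comp]
    conv_lhs => rw [← sum_inj w]
    conv_rhs => rw [← sum_inj w]
    simp only [map_sum]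
    have e0 : ∀ g : Fin f → HH (Fin f) H, (∑ c, g c) s = ∑ c, (g c) s := fun g =>
      map_sum (PiLp.proj 2 (fun _ : Fin f => H) s : HH (Fin f) H →L[ℂ] H) g Finset.univ
    rw [e0, e0]
    refine Finset.sum_congr rfl fun t _ => ?_
    have h1 : dgf X (inj t (w t)) = (inj t (X t (w t)) : HH (Fin f) H) := by
      ext i
      rw [dgf_apply, inj_apply, inj_apply]
      split_ifs with h
      · rw [h]
      · rw [map_zero]
    rw [h1, ← hp, dgf_apply, ← hp, ← mul_apply_eq_comp, hc s t (p s t) (hpc s t),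
      mul_apply_eq_comp]
  obtain ⟨c, h1, h2, h3⟩ := prove_kap C (HH (Fin f) H) (dsum σ) (dgf X) hsa (dgf_norm X hX1) hbic n
    (fun i => WithLp.toLp 2 (fun s => x s i)) ε hε
  refine ⟨c, h1, h2, fun s i => lt_of_le_of_lt ?_ (h3 i)⟩
  have h4 := PiLp.norm_apply_le (dsum σ c (WithLp.toLp 2 (fun s => x s i)) -
    dgf X (WithLp.toLp 2 (fun s => x s i))) s
  have h5 : (dsum σ c (WithLp.toLp 2 (fun s => x s i)) -
    dgf X (WithLp.toLp 2 (fun s => x s i))) s = σ s c (x s i) - X s (x s i) := by
    rw [PiLp.sub_apply, dsum_apply, dgf_apply]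
  rwa [h5] at h4

end Pool.Agent.V1215.NI
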