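import Pool.Agent.V1215.NI.Stm

/-! # Lifting of columns in the finite dimensional case -/

set_option autoImplicit false

open scoped CStarAlgebra ComplexOrder InnerProductSpace
open ContinuousLinearMap

namespace Pool.Agent.V1215.NI

open Pool.Agent.W661.Nrm

universe u v

section
variable {H : Type v} [NormedAddCommGroup H] [InnerProductSpace ℂ H] [CompleteSpace H]
  [FiniteDimensional ℂ H]

lemma norm_le_of_basis (T : H →L[ℂ] H) (ε : ℝ) (hε : 0 ≤ ε)
    (h : ∀ i, ‖T (stdOrthonormalBasis ℂ H i)‖ ≤ ε) : ‖T‖ ≤ Module.finrank ℂ H * ε := by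
  refine T.opNorm_le_bound (by positivity) fun v => ?_
  set b := stdOrthonormalBasis ℂ H with hb
  have h1 : T v = ∑ i, ⟪b i, v⟫_ℂ • T (b i) := by
    conv_lhs => rw [← b.sum_repr' v]
    rw [map_sum]
    refine Finset.sum_congr rfl fun i _ => ?_
    rw [map_smul]
  rw [h1]
  calc ‖∑ i, ⟪b i, v⟫_ℂ • T (b i)‖ ≤ ∑ i, ‖⟪b i, v⟫_ℂ • T (b i)‖ := norm_sum_le _ _
    _ ≤ ∑ _i : Fin (Module.finrank ℂ H), ‖v‖ * ε := by
        refine Finset.sum_le_sum fun i _ => ?_
        rw [norm_smul]
        have h2 : ‖⟪b i, v⟫_ℂ‖ ≤ ‖v‖ := by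
          have := norm_inner_le_norm (𝕜 := ℂ) (b i) v
          rwa [b.orthonormal.1 i, one_mul] at this
        exact mul_le_mul h2 (h i) (norm_nonneg _) (norm_nonneg _)
    _ = Module.finrank ℂ H * ε * ‖v‖ := by
        rw [Finset.sum_const, Finset.card_univ, Fintype.card_fin, nsmul_eq_mul]
        ring

/-- In finite dimensions every element lifts exactly. -/
lemma lift_one (hK : S_KAP.{u, v}) {A I : Type u} [CStarAlgebra A] [CStarAlgebra I]
    (j : A →⋆ₐ[ℂ] I) {f : ℕ} (σ : Fin f → (I →⋆ₐ[ℂ] (H →L[ℂ] H)))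
    (h : ∀ (s t : Fin f) (T : H →L[ℂ] H), (∀ a : A, T * σ t (j a) = σ s (j a) * T) →
      ∀ x : I, T * σ t x = σ s x * T) (x : I) : ∃ a : A, ∀ s, σ s (j a) = σ s x := by
  classical
  let L : A →ₗ[ℂ] (Fin f → (H →L[ℂ] H)) :=
    LinearMap.pi fun s => (((σ s).comp j : A →⋆ₐ[ℂ] (H →L[ℂ] H)) : A →ₗ[ℂ] (H →L[ℂ] H))
  have hL : ∀ a s, L a s = σ s (j a) := fun a s => rfl
  let W : Submodule ℂ (Fin f → (H →L[ℂ] H)) := LinearMap.range L
  have hfd : FiniteDimensional ℂ (H →L[ℂ] H) := inferInstance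
  have hclosed : IsClosed (W : Set (Fin f → (H →L[ℂ] H))) := W.closed_of_finiteDimensional
  have key : ∀ y : I, IsSelfAdjoint y → ‖y‖ ≤ 1 → (fun s => σ s y) ∈ W := by
    intro y hy hy1
    rw [← SetLike.mem_coe, ← hclosed.closure_eq, Metric.mem_closure_iff]
    intro ε hε
    obtain ⟨c, -, -, hc⟩ := hK A H f (fun s => (σ s).comp j) (fun s => σ s y)
      (fun s => by
        rw [IsSelfAdjoint, ← map_star, hy.star_eq])
      (fun s => (NonUnitalStarAlgHom.norm_apply_le (σ s) y).trans hy1)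
      (fun s t T hT => h s t T hT y)
      (Module.finrank ℂ H) (fun _ i => stdOrthonormalBasis ℂ H i)
      (ε / (Module.finrank ℂ H + 1)) (by positivity)
    refine ⟨L c, ⟨c, rfl⟩, ?_⟩
    rw [dist_pi_lt_iff hε]
    intro s
    rw [hL, dist_comm, dist_eq_norm]
    have h1 := norm_le_of_basis (σ s (j c) - σ s y) (ε / (Module.finrank ℂ H + 1)) (by positivity)
      (fun i => by
        rw [sub_apply]
        exact (hc s i).le)
    refine lt_of_le_of_lt h1 ?_
    rw [mul_div_assoc', div_lt_iff₀ (by positivity)]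
    nlinarith
  have key2 : ∀ y : I, IsSelfAdjoint y → (fun s => σ s y) ∈ W := by
    intro y hy
    by_cases h0 : y = 0
    · subst h0
      have : (fun s => σ s (0 : I)) = (0 : Fin f → (H →L[ℂ] H)) := by
        funext s
        exact map_zero _
      rw [this]
      exact W.zero_mem
    · have hn : 0 < ‖y‖ := norm_pos_iff.2 h0
      have h1 : (fun s => σ s y) = (‖y‖ : ℂ) • (fun s => σ s (((‖y‖⁻¹ : ℝ) : ℂ) • y)) := by
        funext s
        rw [Pi.smul_apply, map_smul, smul_smul, ← Complex.ofReal_mul, mul_inv_cancel₀ hn.ne',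
          Complex.ofReal_one, one_smul]
      rw [h1]
      refine W.smul_mem _ (key _ ?_ ?_)
      · rw [IsSelfAdjoint, star_smul, hy.star_eq]
        congr 1
        exact Complex.conj_ofReal _
      · rw [norm_smul, Complex.norm_real, norm_inv, norm_norm, inv_mul_cancel₀ hn.ne']
  have key3 : (fun s => σ s x) ∈ W := by
    have h1 : (fun s => σ s x) = (fun s => σ s (realPart x : I)) +
        Complex.I • (fun s => σ s (imaginaryPart x : I)) := by
      funext s
      rw [Pi.add_apply, Pi.smul_apply, ← map_smul, ← map_add, realPart_add_I_smul_imaginaryPart]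
    rw [h1]
    exact W.add_mem (key2 _ (realPart x).2) (W.smul_mem _ (key2 _ (imaginaryPart x).2))
  obtain ⟨a, ha⟩ := key3
  exact ⟨a, fun s => by rw [← hL, ha]⟩

end

/-- cut off function -/
noncomputable def cutg (t : ℝ) : ℝ := (√(max 1 |t|))⁻¹

lemma cutg_cont : Continuous cutg := by
  unfold cutg
  refine Continuous.inv₀ (by fun_prop) fun t => ?_
  have : 0 < √(max 1 |t|) := Real.sqrt_pos.2 (lt_of_lt_of_le one_pos (le_max_left _ _))
  exact this.ne'

lemma cutg_one {t : ℝ} (ht : |t| ≤ 1) : cutg t = 1 := by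
  rw [cutg, max_eq_left ht, Real.sqrt_one, inv_one]

lemma cutg_bound (t : ℝ) : ‖cutg t * t * cutg t‖ ≤ 1 := by
  have h0 : 0 < max 1 |t| := lt_of_lt_of_le one_pos (le_max_left _ _)
  have h1 : cutg t * t * cutg t = t * (max 1 |t|)⁻¹ := by
    rw [cutg, mul_comm (√(max 1 |t|))⁻¹ t, mul_assoc, ← mul_inv, Real.mul_self_sqrt h0.le]
  rw [h1, norm_mul, norm_inv, Real.norm_eq_abs, Real.norm_eq_abs, abs_of_pos h0,
    ← div_eq_mul_inv, div_le_one h0]
  exact le_max_right _ _

theorem lift : S_KAP.{u, v} → S_LIFT.{u, v} := by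
  intro hK A _ I _ j H _ _ _ _ f σ h k c hc
  choose a ha using fun i => lift_one hK j σ h (c i)
  set p : A := ∑ i, star (a i) * a i with hp
  have hps : IsSelfAdjoint p := by
    rw [IsSelfAdjoint, hp, star_sum]
    refine Finset.sum_congr rfl fun i _ => ?_
    rw [star_mul, star_star]
  have hgs : IsSelfAdjoint (cfc cutg p) := cfc_predicate cutg p
  refine ⟨fun i => a i * cfc cutg p, ?_, ?_⟩
  · have h1 : ∑ i, star (a i * cfc cutg p) * (a i * cfc cutg p) =
        cfc (fun t => cutg t * t * cutg t) p := by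
      have h2 : ∀ i, star (a i * cfc cutg p) * (a i * cfc cutg p) =
          cfc cutg p * (star (a i) * a i) * cfc cutg p := by
        intro i
        rw [star_mul, hgs.star_eq]
        simp only [mul_assoc]
      simp only [h2]
      rw [← Finset.sum_mul, ← Finset.mul_sum, ← hp]
      rw [cfc_mul (fun t => cutg t * t) cutg p
        ((cutg_cont.mul continuous_id).continuousOn) cutg_cont.continuousOn,
        cfc_mul cutg (fun t => t) p cutg_cont.continuousOn continuous_id.continuousOn,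
        cfc_id' ℝ p hps]
    rw [h1]
    exact norm_cfc_le zero_le_one fun t _ => cutg_bound t
  · intro s i
    rw [map_mul, map_mul, ha]
    have h1 : σ s (j p) = σ s (∑ i, star (c i) * c i) := by
      rw [hp, map_sum, map_sum, map_sum]
      refine Finset.sum_congr rfl fun i _ => ?_
      rw [map_mul, map_mul, map_star, map_star, ha, map_mul, map_star]
    have h2 : ‖σ s (j p)‖ ≤ 1 := by
      rw [h1]
      exact (NonUnitalStarAlgHom.norm_apply_le (σ s) _).trans hc
    have hcont : Continuous ((σ s).comp j : A →⋆ₐ[ℂ] (H →L[ℂ] H)) :=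
      map_continuous _
    have hsa : IsSelfAdjoint (((σ s).comp j : A →⋆ₐ[ℂ] (H →L[ℂ] H)) p) := hps.map _
    have h3 : σ s (j (cfc cutg p)) = cfc cutg (σ s (j p)) := by
      have := StarAlgHomClass.map_cfc ((σ s).comp j : A →⋆ₐ[ℂ] (H →L[ℂ] H)) cutg p
        cutg_cont.continuousOn hcont hps hsa
      exact this
    have h4 : cfc cutg (σ s (j p)) = 1 := by
      rw [← cfc_one ℝ (σ s (j p)) hsa]
      refine cfc_congr fun t ht => ?_
      have h5 : ‖t‖ ≤ ‖σ s (j p)‖ * ‖(1 : H →L[ℂ] H)‖ := spectrum.norm_le_norm_mul_of_mem ht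
      have h6 : ‖(1 : H →L[ℂ] H)‖ ≤ 1 := ContinuousLinearMap.norm_id_le
      rw [cutg_one]
      · rfl
      · rw [← Real.norm_eq_abs]
        calc ‖t‖ ≤ ‖σ s (j p)‖ * ‖(1 : H →L[ℂ] H)‖ := h5
          _ ≤ 1 * 1 := mul_le_mul h2 h6 (norm_nonneg _) zero_le_one
          _ = 1 := one_mul 1
    rw [h3, h4, mul_one]

end Pool.Agent.V1215.NI
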