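import Pool.Agent.V1215.NI.Stm

/-! # The one representation case: lifting a column through finitely many twists of one
irreducible representation -/

set_option autoImplicit false

open scoped CStarAlgebra ComplexOrder InnerProductSpace

namespace Pool.Agent.V1215.NI

open Pool.Agent.W661.Nrm

universe u v

section Cfc

variable {H : Type*} [NormedAddCommGroup H] [InnerProductSpace ℂ H] [CompleteSpace H]

/-- functional calculus with a Lipschitz function at an approximate eigenvector -/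
lemma one_cfc (T : H →L[ℂ] H) (hT : IsSelfAdjoint T) (g : ℝ → ℝ) (hg : Continuous g) (L : ℝ)
    (hL : 0 ≤ L) (l : ℝ) (hgl : ∀ t, |g t - g l| ≤ L * |t - l|) (x : H) :
    ‖cfc g T x - (g l) • x‖ ≤ L * ‖T x - l • x‖ := by
  set P : H →L[ℂ] H := cfc (fun t => g t - g l) T with hP
  set Q : H →L[ℂ] H := cfc (fun t => t - l) T with hQ
  have hP1 : P = cfc g T - algebraMap ℝ (H →L[ℂ] H) (g l) := by
    rw [hP, cfc_sub g (fun _ => g l) T (by fun_prop) (by fun_prop), cfc_const (g l) T hT]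
  have hQ1 : Q = T - algebraMap ℝ (H →L[ℂ] H) l := by
    rw [hQ, cfc_sub (fun t => t) (fun _ => l) T (by fun_prop) (by fun_prop), cfc_const l T hT,
      cfc_id' ℝ T hT]
  have hPx : P x = cfc g T x - (g l) • x := by
    rw [hP1, sub_apply, Algebra.algebraMap_eq_smul_one]
    rfl
  have hQx : Q x = T x - l • x := by
    rw [hQ1, sub_apply, Algebra.algebraMap_eq_smul_one]
    rfl
  have hPs : IsSelfAdjoint P := cfc_predicate _ T
  have hQs : IsSelfAdjoint Q := cfc_predicate _ T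
  have h1 : P * P ≤ (L ^ 2) • (Q * Q) := by
    rw [hP, hQ, ← cfc_mul _ _ T (by fun_prop) (by fun_prop),
      ← cfc_mul _ _ T (by fun_prop) (by fun_prop), ← cfc_smul (L ^ 2) _ T (by fun_prop)]
    refine cfc_mono (fun t _ => ?_) (by fun_prop) (by fun_prop)
    have := hgl t
    have h2 := mul_self_le_mul_self (abs_nonneg _) this
    rw [abs_mul_abs_self] at h2
    calc (g t - g l) * (g t - g l) ≤ L * |t - l| * (L * |t - l|) := h2
      _ = L ^ 2 * (|t - l| * |t - l|) := by ring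
      _ = L ^ 2 • ((t - l) * (t - l)) := by rw [abs_mul_abs_self, smul_eq_mul]
  have h2 : ∀ (R : H →L[ℂ] H), IsSelfAdjoint R → RCLike.re ⟪(R * R) x, x⟫_ℂ = ‖R x‖ ^ 2 := by
    intro R hR
    have : ⟪(R * R) x, x⟫_ℂ = ⟪R x, R x⟫_ℂ := by
      have h3 : ⟪star R (R x), x⟫_ℂ = ⟪R x, R x⟫_ℂ := by
        rw [ContinuousLinearMap.star_eq_adjoint, ContinuousLinearMap.adjoint_inner_left]
      rw [hR.star_eq] at h3
      exact h3
    rw [this, inner_self_eq_norm_sq]
  have h3 : ‖P x‖ ^ 2 ≤ L ^ 2 * ‖Q x‖ ^ 2 := by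
    have h4 := (ContinuousLinearMap.le_def _ _).1 h1
    have h5 := h4.re_inner_nonneg_left x
    rw [sub_apply, inner_sub_left, map_sub, h2 P hPs] at h5
    have h6 : RCLike.re ⟪((L ^ 2) • (Q * Q)) x, x⟫_ℂ = L ^ 2 * ‖Q x‖ ^ 2 := by
      rw [← h2 Q hQs]
      have : ((L ^ 2) • (Q * Q)) x = ((L ^ 2 : ℝ) : ℂ) • ((Q * Q) x) := by
        rw [smul_apply]
        exact (Complex.coe_smul _ _).symm
      rw [this, inner_smul_left, Complex.conj_ofReal]
      exact Complex.re_ofReal_mul _ _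
    rw [h6] at h5
    linarith
  rw [← hPx, ← hQx]
  refine abs_le_of_sq_le_sq' ?_ (by positivity) |>.2
  rw [mul_pow]
  exact h3

end Cfc

section Uni

variable {A : Type u} [CStarAlgebra A] {H : Type v} [NormedAddCommGroup H] [InnerProductSpace ℂ H]
  [CompleteSpace H]

/-- unitary equivalence of twists -/
def Tw (π : A →⋆ₐ[ℂ] (H →L[ℂ] H)) {f : ℕ} (γ : Fin f → (A ≃⋆ₐ[ℂ] A)) (s t : Fin f)
    (T : H →L[ℂ] H) : Prop := ∀ c, T * π (γ t c) = π (γ s c) * T

lemma tw_star {π : A →⋆ₐ[ℂ] (H →L[ℂ] H)} {f : ℕ} {γ : Fin f → (A ≃⋆ₐ[ℂ] A)} {s t : Fin f}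
    {T : H →L[ℂ] H} (h : Tw π γ s t T) : Tw π γ t s (star T) := by
  intro c
  have := congrArg star (h (star c))
  rw [star_mul, star_mul, ← map_star, ← map_star, ← map_star, ← map_star, star_star] at this
  exact this.symm

lemma tw_mul {π : A →⋆ₐ[ℂ] (H →L[ℂ] H)} {f : ℕ} {γ : Fin f → (A ≃⋆ₐ[ℂ] A)} {r s t : Fin f}
    {S T : H →L[ℂ] H} (h : Tw π γ r s S) (h' : Tw π γ s t T) : Tw π γ r t (S * T) := by
  intro c
  rw [mul_assoc, h' c, ← mul_assoc, h c, mul_assoc]

lemma tw_one (π : A →⋆ₐ[ℂ] (H →L[ℂ] H)) {f : ℕ} (γ : Fin f → (A ≃⋆ₐ[ℂ] A)) (s : Fin f) :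
    Tw π γ s s 1 := by
  intro c
  rw [one_mul, mul_one]

/-- two intertwiners are proportional -/
lemma tw_prop {π : A →⋆ₐ[ℂ] (H →L[ℂ] H)} (hπ : Irr π) {f : ℕ} {γ : Fin f → (A ≃⋆ₐ[ℂ] A)}
    {s t : Fin f} {T1 T2 : H →L[ℂ] H} (h1 : Tw π γ s t T1) (h2 : Tw π γ s t T2) (h0 : T2 ≠ 0) :
    ∃ c : ℂ, T1 = c • T2 := by
  have key : ∀ T, Tw π γ s t T → ∀ a, T * π a = π (((γ t).symm.trans (γ s)) a) * T := by
    intro T hT a
    have := hT ((γ t).symm a)
    rw [StarAlgEquiv.apply_symm_apply] at this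
    rw [this]
    rfl
  exact intertwiner hπ _ (key _ h1) (key _ h2) h0

/-- a nonzero intertwiner gives a unitary one -/
lemma tw_unitary {π : A →⋆ₐ[ℂ] (H →L[ℂ] H)} (hπ : Irr π) {f : ℕ} {γ : Fin f → (A ≃⋆ₐ[ℂ] A)}
    {s t : Fin f} {T : H →L[ℂ] H} (h : Tw π γ s t T) (h0 : T ≠ 0) :
    ∃ V : H →L[ℂ] H, Tw π γ s t V ∧ star V * V = 1 ∧ V * star V = 1 := by
  have hsc : ∀ (r : Fin f) (R : H →L[ℂ] H), Tw π γ r r R → ∃ c : ℂ, R = c • 1 := by
    intro r R hR
    refine hπ R (fun a => ?_)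
    have := hR ((γ r).symm a)
    rwa [StarAlgEquiv.apply_symm_apply] at this
  obtain ⟨c, hc⟩ := hsc t _ (tw_mul (tw_star h) h)
  obtain ⟨d, hd⟩ := hsc s _ (tw_mul h (tw_star h))
  have hcd : (c - d) • T = 0 := by
    rw [sub_smul]
    have h1 : c • T = T * (star T * T) := by rw [hc, mul_smul_comm, mul_one]
    have h2 : d • T = (T * star T) * T := by rw [hd, smul_mul_assoc, one_mul]
    rw [h1, h2, mul_assoc, sub_self]
  have hcd' : c = d := by
    rcases smul_eq_zero.1 hcd with h | h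
    · exact sub_eq_zero.1 h
    · exact absurd h h0
  obtain ⟨x, hx⟩ : ∃ x, T x ≠ 0 := by
    by_contra hcon
    push Not at hcon
    exact h0 (ContinuousLinearMap.ext hcon)
  have hx0 : x ≠ 0 := by
    rintro rfl
    exact hx (map_zero _)
  have hcx : (c : ℂ) * ((‖x‖ : ℂ) ^ 2) = ((‖T x‖ : ℂ) ^ 2) := by
    have h1 : ⟪x, (star T * T) x⟫_ℂ = ⟪T x, T x⟫_ℂ := by
      have : ⟪x, star T (T x)⟫_ℂ = ⟪T x, T x⟫_ℂ := by
        rw [ContinuousLinearMap.star_eq_adjoint, ContinuousLinearMap.adjoint_inner_right]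
      exact this
    rw [hc] at h1
    have h2 : (c • (1 : H →L[ℂ] H)) x = c • x := rfl
    rw [h2, inner_smul_right, inner_self_eq_norm_sq_to_K, inner_self_eq_norm_sq_to_K] at h1
    exact h1
  have hxn : (0 : ℝ) < ‖x‖ := norm_pos_iff.2 hx0
  have hTn : (0 : ℝ) < ‖T x‖ := norm_pos_iff.2 hx
  set q : ℝ := ‖x‖ / ‖T x‖ with hq
  have hqc : ((q : ℂ) * (q : ℂ)) * c = 1 := by
    have e1 : (‖x‖ : ℂ) ≠ 0 := by exact_mod_cast hxn.ne'
    have e2 : (‖T x‖ : ℂ) ≠ 0 := by exact_mod_cast hTn.ne'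
    rw [hq]
    push_cast
    field_simp
    rw [mul_comm] at hcx
    linear_combination hcx
  refine ⟨(q : ℂ) • T, ?_, ?_, ?_⟩
  · intro a
    rw [smul_mul_assoc, h a, mul_smul_comm]
  · rw [star_smul, smul_mul_assoc, mul_smul_comm, smul_smul, hc, smul_smul]
    rw [show star (q : ℂ) = (q : ℂ) from Complex.conj_ofReal q, hqc, one_smul]
  · rw [star_smul, smul_mul_assoc, mul_smul_comm, smul_smul, hd, smul_smul, ← hcd']
    rw [show star (q : ℂ) = (q : ℂ) from Complex.conj_ofReal q, hqc, one_smul]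

/-- a family of unitaries through which all intertwiners factor -/
lemma tw_family {π : A →⋆ₐ[ℂ] (H →L[ℂ] H)} (hπ : Irr π) {f : ℕ} (γ : Fin f → (A ≃⋆ₐ[ℂ] A)) :
    ∃ V : Fin f → (H →L[ℂ] H), (∀ t, star (V t) * V t = 1) ∧ (∀ t, V t * star (V t) = 1) ∧
      ∀ s t T, Tw π γ s t T → ∃ c : ℂ, T = c • (star (V s) * V t) := by
  let r : Setoid (Fin f) :=
    { r := fun s t => ∃ V : H →L[ℂ] H, Tw π γ s t V ∧ star V * V = 1 ∧ V * star V = 1
      iseqv :=
        { refl := fun s => ⟨1, tw_one π γ s, by rw [star_one, mul_one], by rw [star_one, mul_one]⟩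
          symm := by
            rintro s t ⟨V, h1, h2, h3⟩
            refine ⟨star V, tw_star h1, ?_, ?_⟩
            · rw [star_star]; exact h3
            · rw [star_star]; exact h2
          trans := by
            rintro s t u ⟨V, h1, h2, h3⟩ ⟨V', h1', h2', h3'⟩
            refine ⟨V * V', tw_mul h1 h1', ?_, ?_⟩
            · rw [star_mul, mul_assoc, ← mul_assoc (star V), h2, one_mul, h2']
            · rw [star_mul, mul_assoc, ← mul_assoc V', h3', one_mul, h3] } }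
  have hrep : ∀ t : Fin f, ∃ V : H →L[ℂ] H,
      Tw π γ (Quotient.out (Quotient.mk r t)) t V ∧ star V * V = 1 ∧ V * star V = 1 :=
    fun t => Quotient.exact (Quotient.out_eq (Quotient.mk r t))
  choose V hV1 hV2 hV3 using hrep
  refine ⟨V, hV2, hV3, ?_⟩
  intro s t T hT
  by_cases h0 : T = 0
  · exact ⟨0, by rw [h0, zero_smul]⟩
  have hst : Quotient.mk r s = Quotient.mk r t := Quotient.sound (tw_unitary hπ hT h0)
  have h1 : Tw π γ (Quotient.out (Quotient.mk r t)) s (V s) := by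
    rw [← hst]; exact hV1 s
  refine tw_prop hπ hT (tw_mul (tw_star h1) (hV1 t)) ?_
  intro h2
  apply h0
  have : (1 : H →L[ℂ] H) = 0 := by
    calc (1 : H →L[ℂ] H) = V s * (star (V s) * V t) * star (V t) := by
          rw [← mul_assoc, hV3, one_mul, hV3]
      _ = 0 := by rw [h2, mul_zero, zero_mul]
  rw [← mul_one T, this, mul_zero]

end Uni

section Fam

variable {H : Type v} [NormedAddCommGroup H] [InnerProductSpace ℂ H]

/-- an orthonormal family adapted to finitely many vectors -/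
lemma on_family {k d : ℕ} (hB : Big ((k + 1) * d) H) {J : Type} [Fintype J]
    (hJ : Fintype.card J ≤ d) (w : J → H) :
    ∃ (m : ℕ) (E : Fin (k + 1) × Fin m → H), Orthonormal ℂ E ∧
      ∀ j, w j = ∑ i, ⟪E (0, i), w j⟫_ℂ • E (0, i) := by
  obtain ⟨v, hv⟩ := hB
  set W : Submodule ℂ H := Submodule.span ℂ (Set.range w) with hW
  have : FiniteDimensional ℂ W := FiniteDimensional.span_of_finite ℂ (Set.finite_range w)
  set U : Submodule ℂ H := W ⊔ Submodule.span ℂ (Set.range v) with hU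
  have : FiniteDimensional ℂ (Submodule.span ℂ (Set.range v)) :=
    FiniteDimensional.span_of_finite ℂ (Set.finite_range v)
  have hUf : FiniteDimensional ℂ U := Submodule.finiteDimensional_sup _ _
  set m := Module.finrank ℂ W with hm
  have hmd : m ≤ d := (finrank_range_le_card w).trans hJ
  have hUd : (k + 1) * m ≤ Module.finrank ℂ U := by
    have h1 : Module.finrank ℂ (Submodule.span ℂ (Set.range v)) = (k + 1) * d := by
      rw [finrank_span_eq_card hv.linearIndependent, Fintype.card_fin]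
    have h2 : Module.finrank ℂ (Submodule.span ℂ (Set.range v)) ≤ Module.finrank ℂ U :=
      Submodule.finrank_mono le_sup_right
    rw [h1] at h2
    exact (Nat.mul_le_mul_left _ hmd).trans h2
  let b : OrthonormalBasis (Fin m) ℂ W := stdOrthonormalBasis ℂ W
  set n := Module.finrank ℂ U - (k + 1) * m with hn
  let ι := (Fin (k + 1) × Fin m) ⊕ Fin n
  have hcard : Module.finrank ℂ U = Fintype.card ι := by
    simp only [ι, Fintype.card_sum, Fintype.card_prod, Fintype.card_fin]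
    omega
  have hWU : W ≤ U := le_sup_left
  let vv : ι → U := fun p => match p with
    | Sum.inl (_, i) => ⟨(b i : H), hWU (b i).2⟩
    | Sum.inr _ => 0
  let s : Set ι := {p | ∃ i, p = Sum.inl (0, i)}
  have hs : Orthonormal ℂ (s.domRestrict vv) := by
    rw [orthonormal_iff_ite]
    rintro ⟨_, i, rfl⟩ ⟨_, i', rfl⟩
    have h1 : ⟪(b i : H), (b i' : H)⟫_ℂ = if i = i' then 1 else 0 := by
      have := (orthonormal_iff_ite.1 b.orthonormal) i i'
      exact this
    have h2 : ⟪s.domRestrict vv ⟨Sum.inl (0, i), i, rfl⟩, s.domRestrict vv ⟨Sum.inl (0, i'), i', rfl⟩⟫_ℂ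
      = ⟪(b i : H), (b i' : H)⟫_ℂ := rfl
    rw [h2, h1]
    by_cases h : i = i'
    · subst h; simp
    · rw [if_neg h, if_neg]
      intro h3
      have h4 := congrArg Subtype.val h3
      exact h (Prod.ext_iff.1 (Sum.inl.inj h4)).2
  obtain ⟨e, he⟩ := hs.exists_orthonormalBasis_extension_of_card_eq hcard
  refine ⟨m, fun p => (e (Sum.inl p) : H), ?_, ?_⟩
  · have h1 : Orthonormal ℂ (fun p => (e p : H)) := e.orthonormal.comp_linearIsometry U.subtypeₗᵢ
    exact h1.comp _ Sum.inl_injective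
  · intro j
    have hwj : w j ∈ W := Submodule.subset_span ⟨j, rfl⟩
    have h1 := b.sum_repr' ⟨w j, hwj⟩
    have h2 := congrArg (Submodule.subtype W) h1
    rw [map_sum] at h2
    have h3 : ∀ i, (e (Sum.inl (0, i)) : H) = (b i : H) := by
      intro i
      have := he (Sum.inl (0, i)) ⟨i, rfl⟩
      rw [this]
    simp only [h3]
    exact h2.symm

end Fam

section Ops

variable {H : Type v} [NormedAddCommGroup H] [InnerProductSpace ℂ H] [CompleteSpace H]
  {ι : Type} [Fintype ι]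

/-- a weighted partial permutation operator in an orthonormal family -/
noncomputable def pop (E : ι → H) (c : ι → ℝ) (τ : ι → ι) : H →L[ℂ] H :=
  ∑ p, ((c p : ℂ) • ((innerSL ℂ (E (τ p))).smulRight (E p)))

omit [CompleteSpace H] in
lemma pop_apply (E : ι → H) (c : ι → ℝ) (τ : ι → ι) (x : H) :
    pop E c τ x = ∑ p, ((c p : ℂ) * ⟪E (τ p), x⟫_ℂ) • E p := by
  rw [pop, sum_apply]
  refine Finset.sum_congr rfl fun p _ => ?_
  rw [smul_apply, ContinuousLinearMap.smulRight_apply, innerSL_apply_apply, smul_smul]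

omit [CompleteSpace H] in
lemma norm_sum_sq {E : ι → H} (hE : Orthonormal ℂ E) (a : ι → ℂ) :
    ‖∑ p, a p • E p‖ ^ 2 = ∑ p, ‖a p‖ ^ 2 := by
  have h1 : ((‖∑ p, a p • E p‖ : ℂ) ^ 2) = ((∑ p, ‖a p‖ ^ 2 : ℝ) : ℂ) := by
    have h2 := inner_self_eq_norm_sq_to_K (𝕜 := ℂ) (∑ p, a p • E p)
    rw [hE.inner_sum] at h2
    refine h2.symm.trans ?_
    push_cast
    refine Finset.sum_congr rfl fun p _ => ?_
    rw [RCLike.conj_mul]
    rfl
  exact_mod_cast h1

omit [CompleteSpace H] in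
lemma pop_norm {E : ι → H} (hE : Orthonormal ℂ E) (c : ι → ℝ) (hc : ∀ p, |c p| ≤ 1)
    (τ : ι → ι) (hτ : Function.Involutive τ) : ‖pop E c τ‖ ≤ 1 := by
  refine ContinuousLinearMap.opNorm_le_bound _ zero_le_one fun x => ?_
  rw [one_mul]
  refine (abs_le_of_sq_le_sq' ?_ (norm_nonneg _)).2
  rw [pop_apply, norm_sum_sq hE]
  calc ∑ p, ‖(c p : ℂ) * ⟪E (τ p), x⟫_ℂ‖ ^ 2 ≤ ∑ p, ‖⟪E (τ p), x⟫_ℂ‖ ^ 2 := by
        refine Finset.sum_le_sum fun p _ => ?_
        rw [norm_mul, Complex.norm_real, Real.norm_eq_abs]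
        have := hc p
        have h1 : |c p| * ‖⟪E (τ p), x⟫_ℂ‖ ≤ ‖⟪E (τ p), x⟫_ℂ‖ := by
          calc |c p| * ‖⟪E (τ p), x⟫_ℂ‖ ≤ 1 * ‖⟪E (τ p), x⟫_ℂ‖ := by gcongr
            _ = _ := one_mul _
        gcongr
    _ = ∑ p, ‖⟪E p, x⟫_ℂ‖ ^ 2 := by
        exact Equiv.sum_comp (hτ.toPerm τ) (fun p => ‖⟪E p, x⟫_ℂ‖ ^ 2)
    _ ≤ ‖x‖ ^ 2 := hE.sum_inner_products_le x

lemma pop_sa (E : ι → H) (c : ι → ℝ) (τ : ι → ι) (hτ : Function.Involutive τ)
    (hc : ∀ p, c (τ p) = c p) : IsSelfAdjoint (pop E c τ) := by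
  rw [ContinuousLinearMap.isSelfAdjoint_iff_isSymmetric]
  intro x y
  change ⟪pop E c τ x, y⟫_ℂ = ⟪x, pop E c τ y⟫_ℂ
  rw [pop_apply, pop_apply, sum_inner, inner_sum]
  simp only [inner_smul_left, inner_smul_right, map_mul, Complex.conj_ofReal]
  have h1 := Equiv.sum_comp (hτ.toPerm τ) (fun p => (c p : ℂ) * ⟪E (τ p), y⟫_ℂ * ⟪x, E p⟫_ℂ)
  rw [← h1]
  refine Finset.sum_congr rfl fun p _ => ?_
  simp only [Function.Involutive.coe_toPerm, hτ p, hc p]
  rw [inner_conj_symm]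
  ring

omit [CompleteSpace H] in
lemma pop_vec {E : ι → H} (hE : Orthonormal ℂ E) (c : ι → ℝ) (τ : ι → ι) (a : ι → ℂ) :
    pop E c τ (∑ p, a p • E p) = ∑ p, ((c p : ℂ) * a (τ p)) • E p := by
  rw [pop_apply]
  refine Finset.sum_congr rfl fun p _ => ?_
  rw [hE.inner_right_fintype]

end Ops

section Geo

variable {H : Type v} [NormedAddCommGroup H] [InnerProductSpace ℂ H] [CompleteSpace H]

/-- the vectors which separate the `k` components of a column -/
lemma geo {k d f : ℕ} (hB : Big ((k + 1) * d) H) (hd : k * f ≤ d) (w : Fin k → Fin f → H) :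
    ∃ (S : Fin k → (H →L[ℂ] H)) (D : H →L[ℂ] H) (u : Fin k → Fin f → H),
      (∀ j, IsSelfAdjoint (S j)) ∧ (∀ j, ‖S j‖ ≤ 1) ∧ IsSelfAdjoint D ∧ ‖D‖ ≤ 1 ∧
      (∀ j t, S j (u j t) = w j t) ∧
      (∀ j t, D (u j t) = ((((j : ℕ) + 1 : ℕ) : ℝ) / k) • u j t) ∧
      ∀ t, ‖∑ j, u j t‖ ^ 2 ≤ ∑ j, ‖w j t‖ ^ 2 := by
  obtain ⟨m, E, hE, hw⟩ := on_family hB (J := Fin k × Fin f)
    (by rw [Fintype.card_prod, Fintype.card_fin, Fintype.card_fin]; exact hd)
    (fun p => w p.1 p.2)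
  have hE0 : Orthonormal ℂ (fun i : Fin m => E (0, i)) :=
    hE.comp _ (fun i i' h => (Prod.ext_iff.1 h).2)
  set τ : Fin k → Fin (k + 1) × Fin m → Fin (k + 1) × Fin m :=
    fun j p => (Equiv.swap 0 j.succ p.1, p.2) with hτ
  set c : Fin k → Fin (k + 1) × Fin m → ℝ :=
    fun j p => if p.1 = 0 ∨ p.1 = j.succ then 1 else 0 with hc
  have hinv : ∀ j, Function.Involutive (τ j) := by
    intro j p
    simp only [hτ, Equiv.swap_apply_self]
  have hcc : ∀ j p, c j (τ j p) = c j p := by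
    intro j p
    have h1 : ((Equiv.swap 0 j.succ p.1 = 0 ∨ Equiv.swap 0 j.succ p.1 = j.succ) ↔
        (p.1 = 0 ∨ p.1 = j.succ)) := by
      constructor
      · rintro (h | h)
        · right
          rw [Equiv.swap_apply_eq_iff, Equiv.swap_apply_left] at h
          exact h
        · left
          rw [Equiv.swap_apply_eq_iff, Equiv.swap_apply_right] at h
          exact h
      · rintro (h | h)
        · right
          rw [h, Equiv.swap_apply_left]
        · left
          rw [h, Equiv.swap_apply_right]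
    simp only [hc, hτ, h1]
  refine ⟨fun j => pop E (c j) (τ j), pop E (fun p => ((p.1 : ℕ) : ℝ) / k) id,
    fun j t => ∑ p, (if p.1 = j.succ then ⟪E (0, p.2), w j t⟫_ℂ else 0) • E p, ?_, ?_, ?_, ?_, ?_,
    ?_, ?_⟩
  · intro j
    exact pop_sa E _ _ (hinv j) (hcc j)
  · intro j
    refine pop_norm hE _ (fun p => ?_) _ (hinv j)
    simp only [hc]
    split_ifs
    · simp
    · simp
  · exact pop_sa E _ _ (fun _ => rfl) (fun _ => rfl)
  · refine pop_norm hE _ (fun p => ?_) _ (fun _ => rfl)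
    rw [abs_of_nonneg (by positivity)]
    refine div_le_one_of_le₀ ?_ (by positivity)
    have := p.1.2
    exact_mod_cast (by omega : (p.1 : ℕ) ≤ k)
  · intro j t
    simp only []
    rw [pop_vec hE]
    have h1 := hw (j, t)
    simp only at h1
    refine Eq.trans ?_ h1.symm
    rw [Fintype.sum_prod_type, Fin.sum_univ_succ]
    have h2 : ∀ (j' : Fin k) (i : Fin m), (((c j (j'.succ, i) : ℝ) : ℂ) *
        (if (τ j (j'.succ, i)).1 = j.succ then ⟪E (0, (τ j (j'.succ, i)).2), w j t⟫_ℂ else 0)) •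
          E (j'.succ, i) = 0 := by
      intro j' i
      have h3 : (τ j (j'.succ, i)).1 ≠ j.succ := by
        simp only [hτ, ne_eq, Equiv.swap_apply_eq_iff, Equiv.swap_apply_right]
        exact Fin.succ_ne_zero j'
      rw [if_neg h3, mul_zero, zero_smul]
    rw [Finset.sum_eq_zero (s := Finset.univ) (f := fun j' : Fin k => ∑ i : Fin m, _)
      (fun j' _ => Finset.sum_eq_zero fun i _ => h2 j' i), add_zero]
    refine Finset.sum_congr rfl fun i _ => ?_
    have h4 : (τ j (0, i)).1 = j.succ := by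
      simp only [hτ, Equiv.swap_apply_left]
    rw [if_pos h4]
    have h5 : c j (0, i) = 1 := by simp only [hc, true_or, if_true]
    rw [h5, Complex.ofReal_one, one_mul]
  · intro j t
    simp only []
    rw [pop_vec hE, Finset.smul_sum]
    refine Finset.sum_congr rfl fun p _ => ?_
    simp only [id]
    by_cases h : p.1 = j.succ
    · rw [if_pos h, h, Fin.val_succ, ← Complex.coe_smul, smul_smul]
    · rw [if_neg h, mul_zero, zero_smul, smul_zero]
  · intro t
    simp only []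
    rw [Finset.sum_comm]
    simp only [← Finset.sum_smul]
    rw [norm_sum_sq hE, Fintype.sum_prod_type, Fin.sum_univ_succ]
    have h1 : ∑ i : Fin m, ‖∑ j : Fin k, (if ((0 : Fin (k + 1)), i).1 = j.succ then
        ⟪E (0, ((0 : Fin (k + 1)), i).2), w j t⟫_ℂ else 0)‖ ^ 2 = 0 := by
      refine Finset.sum_eq_zero fun i _ => ?_
      rw [Finset.sum_eq_zero, norm_zero, sq, zero_mul]
      intro j _
      rw [if_neg]
      exact (Fin.succ_ne_zero j).symm
    rw [h1, zero_add]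
    refine Finset.sum_le_sum fun j' _ => ?_
    have h2 : ∀ i : Fin m, ∑ j : Fin k, (if ((j'.succ : Fin (k + 1)), i).1 = j.succ then
        ⟪E (0, ((j'.succ : Fin (k + 1)), i).2), w j t⟫_ℂ else 0) = ⟪E (0, i), w j' t⟫_ℂ := by
      intro i
      rw [Finset.sum_eq_single j']
      · rw [if_pos rfl]
      · intro j _ hj
        rw [if_neg]
        intro h
        exact hj (Fin.succ_injective _ h).symm
      · intro h; exact absurd (Finset.mem_univ _) h
    simp only [h2]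
    exact hE0.sum_inner_products_le (w j' t)

end Geo

section Bump

lemma bf_nonneg (N m : ℕ) (t : ℝ) : 0 ≤ bf N m t := le_max_left _ _

lemma bf_le_one (N m : ℕ) (t : ℝ) : bf N m t ≤ 1 :=
  max_le zero_le_one (by linarith [abs_nonneg (4 * ((N : ℝ) * t - (m : ℝ)))])

lemma bf_cont (N m : ℕ) : Continuous (bf N m) := by
  unfold bf
  fun_prop

lemma bf_lip (N m : ℕ) (s t : ℝ) : |bf N m s - bf N m t| ≤ (4 * N) * |s - t| := by
  unfold bf
  refine (abs_max_sub_max_le_max _ _ _ _).trans ?_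
  rw [sub_self, abs_zero]
  refine max_le (by positivity) ?_
  have h1 : (1 - |4 * ((N : ℝ) * s - m)|) - (1 - |4 * ((N : ℝ) * t - m)|) =
    |4 * ((N : ℝ) * t - m)| - |4 * ((N : ℝ) * s - m)| := by ring
  rw [h1]
  refine (abs_abs_sub_abs_le_abs_sub _ _).trans ?_
  have h2 : 4 * ((N : ℝ) * t - m) - 4 * ((N : ℝ) * s - m) = (4 * N) * (t - s) := by ring
  rw [h2, abs_mul, abs_sub_comm t s, abs_of_nonneg (by positivity : (0 : ℝ) ≤ 4 * N)]

lemma bf_self {k : ℕ} (hk : 0 < k) (m : ℕ) : bf k m ((m : ℝ) / k) = 1 := by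
  have : (k : ℝ) ≠ 0 := by positivity
  unfold bf
  rw [mul_div_cancel₀ _ this, sub_self, mul_zero, abs_zero, sub_zero]
  exact max_eq_right zero_le_one

lemma bf_ne {k : ℕ} (hk : 0 < k) {m m' : ℕ} (h : m' ≠ m) : bf k m ((m' : ℝ) / k) = 0 := by
  have : (k : ℝ) ≠ 0 := by positivity
  unfold bf
  rw [mul_div_cancel₀ _ this]
  refine max_eq_left ?_
  have h1 : (1 : ℝ) ≤ |(m' : ℝ) - m| := by
    have h2 : (1 : ℤ) ≤ |(m' : ℤ) - m| := Int.one_le_abs (by omega)
    exact_mod_cast h2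
  rw [abs_mul]
  have h4 : |(4 : ℝ)| = 4 := by norm_num
  rw [h4]
  linarith

lemma bf_sum (k : ℕ) (t : ℝ) : ∑ i : Fin k, bf k ((i : ℕ) + 1) t * bf k ((i : ℕ) + 1) t ≤ 1 := by
  by_cases h : ∃ i : Fin k, 0 < bf k ((i : ℕ) + 1) t
  · obtain ⟨i, hi⟩ := h
    rw [Finset.sum_eq_single i]
    · have h1 := bf_le_one k ((i : ℕ) + 1) t
      nlinarith
    · intro j _ hj
      have h2 : bf k ((j : ℕ) + 1) t = 0 := by
        have h3 : |4 * ((k : ℝ) * t - ((((i : ℕ) + 1 : ℕ)) : ℝ))| < 1 := by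
          by_contra hcon
          push Not at hcon
          unfold bf at hi
          rw [max_eq_left (by linarith)] at hi
          exact lt_irrefl _ hi
        unfold bf
        refine max_eq_left ?_
        have h5 : (1 : ℝ) ≤ |(((i : ℕ) + 1 : ℕ) : ℝ) - (((j : ℕ) + 1 : ℕ) : ℝ)| := by
          have hij : (i : ℕ) ≠ (j : ℕ) := fun h => hj (Fin.ext h).symm
          have h2 : (1 : ℤ) ≤ |(((i : ℕ) + 1 : ℕ) : ℤ) - (((j : ℕ) + 1 : ℕ) : ℤ)| :=
            Int.one_le_abs (by omega)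
          exact_mod_cast h2
        rw [abs_mul] at h3 ⊢
        have h4 : |(4 : ℝ)| = 4 := by norm_num
        rw [h4] at h3 ⊢
        have h6 := abs_sub_abs_le_abs_sub ((((i : ℕ) + 1 : ℕ) : ℝ) - (((j : ℕ) + 1 : ℕ) : ℝ))
          ((((i : ℕ) + 1 : ℕ) : ℝ) - (k : ℝ) * t)
        have h7 : ((((i : ℕ) + 1 : ℕ) : ℝ) - (((j : ℕ) + 1 : ℕ) : ℝ)) -
          ((((i : ℕ) + 1 : ℕ) : ℝ) - (k : ℝ) * t) = (k : ℝ) * t - (((j : ℕ) + 1 : ℕ) : ℝ) := by
          ring
        rw [h7, abs_sub_comm (((i : ℕ) + 1 : ℕ) : ℝ) ((k : ℝ) * t)] at h6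
        linarith
      rw [h2, mul_zero]
    · intro h; exact absurd (Finset.mem_univ _) h
  · push Not at h
    rw [Finset.sum_eq_zero]
    · exact zero_le_one
    · intro i _
      rw [le_antisymm (h i) (bf_nonneg _ _ _), mul_zero]

end Bump

section ColumnNorm

/-- the norm estimate for the column -/
lemma col_norm {A : Type u} [CStarAlgebra A] {k : ℕ} (x : Fin k → A) (hx : ∀ i, ‖x i‖ ≤ 1)
    (h : A) (_ : IsSelfAdjoint h) :
    ‖∑ i : Fin k, star (x i * cfc (bf k ((i : ℕ) + 1)) h) *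
      (x i * cfc (bf k ((i : ℕ) + 1)) h)‖ ≤ 1 := by
  let _ : PartialOrder A := CStarAlgebra.spectralOrder A
  have : StarOrderedRing A := CStarAlgebra.spectralOrderedRing A
  have h0 : 0 ≤ ∑ i : Fin k, star (x i * cfc (bf k ((i : ℕ) + 1)) h) *
      (x i * cfc (bf k ((i : ℕ) + 1)) h) :=
    Finset.sum_nonneg fun i _ => star_mul_self_nonneg _
  rw [CStarAlgebra.norm_le_one_iff_of_nonneg _ h0]
  calc ∑ i : Fin k, star (x i * cfc (bf k ((i : ℕ) + 1)) h) *
        (x i * cfc (bf k ((i : ℕ) + 1)) h)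
      ≤ ∑ i : Fin k, cfc (fun t => bf k ((i : ℕ) + 1) t * bf k ((i : ℕ) + 1) t) h := by
        refine Finset.sum_le_sum fun i _ => ?_
        have hg : IsSelfAdjoint (cfc (bf k ((i : ℕ) + 1)) h) := cfc_predicate _ h
        have h1 : star (x i) * x i ≤ 1 := by
          rw [← CStarAlgebra.norm_le_one_iff_of_nonneg _ (star_mul_self_nonneg _),
            CStarRing.norm_star_mul_self]
          have := hx i
          nlinarith [norm_nonneg (x i)]
        have h2 := star_left_conjugate_le_conjugate h1 (cfc (bf k ((i : ℕ) + 1)) h)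
        rw [mul_one] at h2
        calc star (x i * cfc (bf k ((i : ℕ) + 1)) h) * (x i * cfc (bf k ((i : ℕ) + 1)) h)
            = star (cfc (bf k ((i : ℕ) + 1)) h) * (star (x i) * x i) *
                cfc (bf k ((i : ℕ) + 1)) h := by
              rw [star_mul]
              simp only [mul_assoc]
          _ ≤ star (cfc (bf k ((i : ℕ) + 1)) h) * cfc (bf k ((i : ℕ) + 1)) h := h2
          _ = cfc (fun t => bf k ((i : ℕ) + 1) t * bf k ((i : ℕ) + 1) t) h := by
              rw [hg.star_eq, cfc_mul _ _ h (bf_cont _ _).continuousOn (bf_cont _ _).continuousOn]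
    _ = cfc (fun t => ∑ i : Fin k, bf k ((i : ℕ) + 1) t * bf k ((i : ℕ) + 1) t) h := by
        have := cfc_sum_univ (fun i : Fin k => fun t => bf k ((i : ℕ) + 1) t *
          bf k ((i : ℕ) + 1) t) h (fun i => ((bf_cont _ _).mul (bf_cont _ _)).continuousOn)
        rw [← this]
        congr 1
        ext t
        simp only [Finset.sum_apply]
    _ ≤ 1 := cfc_le_one _ _ fun t _ => bf_sum k t

end ColumnNorm

/-- **The one representation case.** -/
theorem one (hK : S_KAP.{u, v}) : S_ONE.{u, v} := by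
  intro A _ H _ _ _ π hπ f k γ hB ξ ε hε
  obtain ⟨V, hV1, hV2, hV3⟩ := tw_family hπ γ
  obtain ⟨S, D, w, hS, hSn, hD, hDn, hSw, hDw, hwn⟩ := geo hB le_rfl (fun j t => V t (ξ j t))
  have hVV : ∀ t x, star (V t) (V t x) = x := by
    intro t x
    have := congrArg (fun T : H →L[ℂ] H => T x) (hV1 t)
    exact this
  have hVV' : ∀ t x, V t (star (V t) x) = x := by
    intro t x
    have := congrArg (fun T : H →L[ℂ] H => T x) (hV2 t)
    exact this
  have iso : ∀ (T : H →L[ℂ] H), (∀ x, star T (T x) = x) → ∀ x, ‖T x‖ = ‖x‖ := by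
    intro T hT x
    have h1 : ⟪T x, T x⟫_ℂ = ⟪x, x⟫_ℂ := by
      rw [← ContinuousLinearMap.adjoint_inner_left, ← ContinuousLinearMap.star_eq_adjoint, hT]
    rw [inner_self_eq_norm_sq_to_K, inner_self_eq_norm_sq_to_K] at h1
    have h2 : ‖T x‖ ^ 2 = ‖x‖ ^ 2 := by exact_mod_cast h1
    exact (sq_eq_sq₀ (norm_nonneg _) (norm_nonneg _)).1 h2
  have hiso : ∀ t x, ‖V t x‖ = ‖x‖ := fun t => iso (V t) (hVV t)
  have hiso' : ∀ t x, ‖star (V t) x‖ = ‖x‖ := fun t => iso (star (V t)) (by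
    intro x; rw [star_star]; exact hVV' t x)
  let σ : Fin f → (A →⋆ₐ[ℂ] (H →L[ℂ] H)) := fun t => π.comp (γ t : A →⋆ₐ[ℂ] A)
  have hσ : ∀ t c, σ t c = π (γ t c) := fun _ _ => rfl
  set z : Fin k → Fin f → H := fun j t => star (V t) (w j t) with hz
  have hX : ∀ (R : H →L[ℂ] H), IsSelfAdjoint R → ‖R‖ ≤ 1 → ∀ δ : ℝ, 0 < δ →
      ∃ c : A, IsSelfAdjoint c ∧ ‖c‖ ≤ 1 ∧
        ∀ t j, ‖π (γ t c) (z j t) - star (V t) (R (w j t))‖ < δ := by
    intro R hR hRn δ hδ
    have e1 : ∀ t, IsSelfAdjoint (star (V t) * R * V t) := fun t => hR.conjugate' (V t)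
    have e2 : ∀ t, ‖star (V t) * R * V t‖ ≤ 1 := by
      intro t
      refine ContinuousLinearMap.opNorm_le_bound _ zero_le_one fun x => ?_
      have : (star (V t) * R * V t) x = star (V t) (R (V t x)) := rfl
      rw [this, hiso']
      calc ‖R (V t x)‖ ≤ ‖R‖ * ‖V t x‖ := R.le_opNorm _
        _ ≤ 1 * ‖x‖ := by rw [hiso]; gcongr
    have e3 : ∀ (s t : Fin f) (T : H →L[ℂ] H), (∀ c, T * σ t c = σ s c * T) →
        T * (star (V t) * R * V t) = (star (V s) * R * V s) * T := by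
      intro s t T hT
      obtain ⟨c, rfl⟩ := hV3 s t T (fun a => hT a)
      calc c • (star (V s) * V t) * (star (V t) * R * V t)
          = c • (star (V s) * (V t * star (V t)) * R * V t) := by
            simp only [smul_mul_assoc, mul_assoc]
        _ = c • (star (V s) * R * V t) := by rw [hV2, mul_one]
        _ = c • (star (V s) * R * (V s * star (V s)) * V t) := by rw [hV2, mul_one]
        _ = star (V s) * R * V s * c • (star (V s) * V t) := by
            simp only [mul_smul_comm, mul_assoc]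
    obtain ⟨c, hc1, hc2, hc3⟩ := hK A H f σ (fun t => star (V t) * R * V t) e1 e2 e3 k
      (fun t j => z j t) δ hδ
    refine ⟨c, hc1, hc2, fun t j => ?_⟩
    have h1 : (star (V t) * R * V t) (z j t) = star (V t) (R (w j t)) := by
      have : (star (V t) * R * V t) (z j t) = star (V t) (R (V t (z j t))) := rfl
      rw [this, hz]
      simp only [hVV']
    have h2 := hc3 t j
    rw [h1] at h2
    exact h2
  set δ : ℝ := ε / (4 * k * k + 2) with hδ
  have hden : (0 : ℝ) < 4 * k * k + 2 := by positivity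
  have hδ0 : 0 < δ := div_pos hε hden
  obtain ⟨h, hh1, hh2, hh3⟩ := hX D hD hDn δ hδ0
  choose x hx1 hx2 hx3 using fun j => hX (S j) (hS j) (hSn j) δ hδ0
  refine ⟨fun i => x i * cfc (bf k ((i : ℕ) + 1)) h, fun t => ∑ j, z j t,
    col_norm x hx2 h hh1, ?_, ?_⟩
  · rw [Finset.sum_comm]
    refine Finset.sum_le_sum fun t _ => ?_
    have h1 : ∑ j, z j t = star (V t) (∑ j, w j t) := by
      rw [map_sum]
    change ‖∑ j, z j t‖ ^ 2 ≤ _
    rw [h1, hiso']
    refine (hwn t).trans (Finset.sum_le_sum fun j _ => ?_)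
    rw [hiso]
  · intro i t
    have hk : 0 < k := lt_of_le_of_lt (Nat.zero_le _) i.2
    set Q : H →L[ℂ] H := π (γ t h) with hQ
    have hQs : IsSelfAdjoint Q := by
      have : IsSelfAdjoint (σ t h) := hh1.map (σ t)
      exact this
    have hcfc : π (γ t (cfc (bf k ((i : ℕ) + 1)) h)) = cfc (bf k ((i : ℕ) + 1)) Q := by
      have := StarAlgHomClass.map_cfc (σ t) (bf k ((i : ℕ) + 1)) h
        (bf_cont _ _).continuousOn (map_continuous (σ t)) hh1 hQs
      exact this
    have hz1 : ∀ j, ‖Q (z j t) - ((((j : ℕ) + 1 : ℕ) : ℝ) / k) • z j t‖ < δ := by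
      intro j
      have h1 := hh3 t j
      rw [hDw] at h1
      have h2 : star (V t) (((((j : ℕ) + 1 : ℕ) : ℝ) / k) • w j t) =
        ((((j : ℕ) + 1 : ℕ) : ℝ) / k) • z j t := by
        rw [← Complex.coe_smul, map_smul, Complex.coe_smul]
      rw [h2] at h1
      exact h1
    have hb : ∀ j, ‖cfc (bf k ((i : ℕ) + 1)) Q (z j t) - (if j = i then z j t else 0)‖ ≤
        4 * k * δ := by
      intro j
      have h1 := one_cfc Q hQs (bf k ((i : ℕ) + 1)) (bf_cont _ _) (4 * k) (by positivity)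
        ((((j : ℕ) + 1 : ℕ) : ℝ) / k) (fun s => bf_lip _ _ _ _) (z j t)
      have h2 : bf k ((i : ℕ) + 1) ((((j : ℕ) + 1 : ℕ) : ℝ) / k) • z j t =
          (if j = i then z j t else 0) := by
        by_cases hji : j = i
        · subst hji
          rw [bf_self hk, one_smul, if_pos rfl]
        · have hji' : (j : ℕ) + 1 ≠ (i : ℕ) + 1 := fun h => hji (Fin.ext (by omega))
          rw [bf_ne hk hji', zero_smul, if_neg hji]
      rw [h2] at h1
      refine h1.trans ?_
      have := (hz1 j).le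
      gcongr
    have hsum : ‖cfc (bf k ((i : ℕ) + 1)) Q (∑ j, z j t) - z i t‖ ≤ k * (4 * k * δ) := by
      have h1 : cfc (bf k ((i : ℕ) + 1)) Q (∑ j, z j t) - z i t =
          ∑ j, (cfc (bf k ((i : ℕ) + 1)) Q (z j t) - (if j = i then z j t else 0)) := by
        rw [Finset.sum_sub_distrib, map_sum, Finset.sum_ite_eq' Finset.univ i,
          if_pos (Finset.mem_univ _)]
      rw [h1]
      refine (norm_sum_le _ _).trans ?_
      refine (Finset.sum_le_sum fun j _ => hb j).trans ?_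
      rw [Finset.sum_const, Finset.card_univ, Fintype.card_fin, nsmul_eq_mul]
    have hxn : ‖π (γ t (x i))‖ ≤ 1 := (NonUnitalStarAlgHom.norm_apply_le (σ t) (x i)).trans (hx2 i)
    have h5 : ‖π (γ t (x i)) (z i t) - ξ i t‖ < δ := by
      have h1 := hx3 i t i
      rw [hSw, hVV] at h1
      exact h1
    have h6 : π (γ t (x i * cfc (bf k ((i : ℕ) + 1)) h)) (∑ j, z j t) - ξ i t =
        π (γ t (x i)) (cfc (bf k ((i : ℕ) + 1)) Q (∑ j, z j t) - z i t) +
          (π (γ t (x i)) (z i t) - ξ i t) := by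
      rw [map_mul, map_mul, hcfc, map_sub]
      have : (π (γ t (x i)) * cfc (bf k ((i : ℕ) + 1)) Q) (∑ j, z j t) =
        π (γ t (x i)) (cfc (bf k ((i : ℕ) + 1)) Q (∑ j, z j t)) := rfl
      rw [this]
      abel
    rw [h6]
    calc ‖π (γ t (x i)) (cfc (bf k ((i : ℕ) + 1)) Q (∑ j, z j t) - z i t) +
          (π (γ t (x i)) (z i t) - ξ i t)‖
        ≤ ‖π (γ t (x i)) (cfc (bf k ((i : ℕ) + 1)) Q (∑ j, z j t) - z i t)‖ +
          ‖π (γ t (x i)) (z i t) - ξ i t‖ := norm_add_le _ _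
      _ < k * (4 * k * δ) + δ := by
          refine add_lt_add_of_le_of_lt ?_ h5
          refine ((π (γ t (x i))).le_opNorm _).trans ?_
          calc ‖π (γ t (x i))‖ * ‖cfc (bf k ((i : ℕ) + 1)) Q (∑ j, z j t) - z i t‖
              ≤ 1 * (k * (4 * k * δ)) := by gcongr
            _ = k * (4 * k * δ) := one_mul _
      _ ≤ ε := by
          have : δ * (4 * k * k + 2) = ε := by rw [hδ]; field_simp
          nlinarith

end Pool.Agent.V1215.NI
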