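import Pool.Agent.V1215.NI.Asm5
import Pool.Agent.V1215.NI.KAP
import Pool.Agent.V1215.NI.ONE
import Pool.Agent.V1215.NI.BF
import Pool.Agent.V1215.NI.Lift

/-! # The main theorem -/

set_option autoImplicit false

open scoped CStarAlgebra ComplexOrder InnerProductSpace
open ContinuousLinearMap

namespace Pool.Agent.V1215.NI

open Pool.Agent.W661.Nrm

universe u v w

section
variable {A I : Type u} {B : Type v} {G : Type w} [CStarAlgebra A] [PartialOrder A]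
  [StarOrderedRing A] [CStarAlgebra I] [PartialOrder I] [StarOrderedRing I] [CStarAlgebra B]
  [PartialOrder B] [StarOrderedRing B] [Group G]
  {α : G →* (A ≃⋆ₐ[ℂ] A)} {β : G →* (I ≃⋆ₐ[ℂ] I)} {j : A →⋆ₐ[ℂ] I} {ι : I →⋆ₐ[ℂ] B}
  {u : G →* unitary B} {E : B →L[ℂ] I} {k : ℕ}

/-- the main estimate -/
theorem main_col (hβ : ∀ g a, β g (j a) = j (α g a)) (h : IsReducedCrossedProduct β ι u E)
    (hj : IsInjectiveEnvelope j) (hN : Norms ι) (Y : CStarMatrix (Fin k) (Fin k) B)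
    (hY : 0 ≤ Y) (ε : ℝ) (hε : 0 < ε) :
    ∃ c : Fin k → A, ‖∑ i, star (c i) * c i‖ ≤ 1 ∧
      ‖Y‖ - ε ≤ ‖bil Y (fun i => ι (j (c i))) (fun i => ι (j (c i)))‖ := by
  classical
  by_cases hm : ‖Y‖ - ε ≤ 0
  · exact ⟨fun _ => 0, by simp, hm.trans (norm_nonneg _)⟩
  push Not at hm
  have hk : 1 ≤ k := by
    by_contra hk0
    have hk1 : k = 0 := by omega
    subst hk1
    have h0 : Y = 0 := by
      ext i
      exact i.elim0
    rw [h0, norm_zero] at hm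
    linarith
  have hYs : star Y = Y := (IsSelfAdjoint.of_nonneg hY).star_eq
  have hBF : S_BF.{u, u} := bf_main NI.kap
  set m1 : ℝ := ‖Y‖ - ε / 3 with hm1
  set m2 : ℝ := ‖Y‖ - ε / 2 with hm2
  obtain ⟨f, γ, hγ, hW⟩ := g1 I B G β ι u E h k Y hY m1 (by linarith) (by linarith)
  change ¬ 0 ≤ WW u E γ Y m1 at hW
  rcases detect dich hj (k * f) (WW u E γ Y m1) (WW_sa h γ Y hYs m1) hW
    (fun φ => Big ((k + 1) * (k * f)) φ.GNS) with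
    ⟨φ, hφ, hbig, Θ, hΘ, hneg⟩ | ⟨a, ha, haN, haW⟩
  · obtain ⟨ξ, hξ⟩ := neg_WW Θ hΘ.one γ Y m1 hneg
    exact caseA g2 (one NI.kap) hβ h Y hY γ hγ (m := m1) hm.le (by linarith) φ.GNS
      φ.gnsStarAlgHom (irr_of_pure hφ) hbig Θ hΘ ξ hξ
  obtain ⟨n, w, hn, hw0, hwH, hwa⟩ := exists_homog hBF (dim hBF) hj ha haN
  obtain ⟨c1, f2, γ2, a3, hc1, hγ2, ha3, hH3, hneg3⟩ := caseB1 hβ h hj hN hk Y hY
    (m1 := m1) (m2 := m2) (by linarith) (by linarith) γ hγ hw0 hwH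
    (fun ψ hψ hψw => haW ψ hψ (fun h0 => hψw (hwa (ψ.gnsStarAlgHom.comp j) h0)))
  obtain ⟨a4, ha4, h43, hgen⟩ := gen_fin dich hBF ker hj hβ n hn a3 ha3 hH3
    (Finset.univ.image fun p : Fin f2 × Fin f2 => (γ2 p.1)⁻¹ * γ2 p.2)
  have hja4 : j a4 ≠ 0 := fun h0 => ha4 (hj.inj (by rw [h0, map_zero]))
  obtain ⟨ψ, hψ, hψ4⟩ := exists_pure_ne hja4
  have hψ3 := h43 ψ hψ hψ4
  set π := ψ.gnsStarAlgHom with hπ
  obtain ⟨-, hnb, -⟩ := hH3 ψ hψ hψ3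
  have hfd : FiniteDimensional ℂ ψ.GNS := fd_of_not_big hnb
  obtain ⟨ζ, hζ⟩ := neg_WW (π : I →ₗ[ℂ] (ψ.GNS →L[ℂ] ψ.GNS)) (map_one π) γ2 _ m2
    (hneg3 ψ hψ hψ3)
  obtain ⟨c', hc', heq⟩ := lift NI.kap A I j ψ.GNS f2 (fun s => π.comp (β (γ2 s)⁻¹ : I →⋆ₐ[ℂ] I)) (by
      intro s t T hT x
      have h1 := hgen ((γ2 s)⁻¹ * γ2 t) (Finset.mem_image.2 ⟨(s, t), Finset.mem_univ _, rfl⟩)
        ψ hψ hψ4 T (by
          intro x
          have h2 := hT (α (γ2 t) x)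
          have h3 : T * π (β (γ2 t)⁻¹ (j (α (γ2 t) x))) =
            π (β (γ2 s)⁻¹ (j (α (γ2 t) x))) * T := h2
          rw [hβ, hβ, act_mul, act_mul, inv_mul_cancel, map_one] at h3
          exact h3)
      have h2 := h1 (β (γ2 t)⁻¹ x)
      rw [act_mul, mul_inv_cancel_right] at h2
      exact h2) k c1 hc1
  refine ⟨c', hc', ?_⟩
  set b' : B := bil Y (fun i => ι (j (c' i))) (fun i => ι (j (c' i))) with hb'
  have hb'0 : 0 ≤ b' := bil_nonneg Y hY _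
  have hkap0 : 0 ≤ W661.Nrm.kap (0 : Fin 1) b' := map_nonneg (W661.Nrm.kap 0) hb'0
  have e1 : QF u E (π : I →ₗ[ℂ] (ψ.GNS →L[ℂ] ψ.GNS)) γ2 (W661.Nrm.kap (0 : Fin 1) b') ζ =
      QF u E (π : I →ₗ[ℂ] (ψ.GNS →L[ℂ] ψ.GNS)) γ2 Y
        (fun i s => π (β (γ2 s)⁻¹ (j (c' i))) (ζ 0 s)) :=
    QF_bil h (π : I →ₗ[ℂ] (ψ.GNS →L[ℂ] ψ.GNS)) γ2 Y (fun i => j (c' i))
      (fun s i => π (β (γ2 s)⁻¹ (j (c' i))))
      (fun s i x => by
        show π (star (β (γ2 s)⁻¹ (j (c' i))) * x) = _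
        rw [map_mul, map_star]
        rfl)
      (fun s i x => by
        show π (x * β (γ2 s)⁻¹ (j (c' i))) = _
        rw [map_mul]
        rfl) ζ
  have e2 : QF u E (π : I →ₗ[ℂ] (ψ.GNS →L[ℂ] ψ.GNS)) γ2
      (W661.Nrm.kap (0 : Fin 1) (bil Y (fun i => ι (c1 i)) (fun i => ι (c1 i)))) ζ =
      QF u E (π : I →ₗ[ℂ] (ψ.GNS →L[ℂ] ψ.GNS)) γ2 Y
        (fun i s => π (β (γ2 s)⁻¹ (c1 i)) (ζ 0 s)) :=
    QF_bil h (π : I →ₗ[ℂ] (ψ.GNS →L[ℂ] ψ.GNS)) γ2 Y c1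
      (fun s i => π (β (γ2 s)⁻¹ (c1 i)))
      (fun s i x => by
        show π (star (β (γ2 s)⁻¹ (c1 i)) * x) = _
        rw [map_mul, map_star]
        rfl)
      (fun s i x => by
        show π (x * β (γ2 s)⁻¹ (c1 i)) = _
        rw [map_mul]
        rfl) ζ
  have e3 : (fun (i : Fin k) (s : Fin f2) => π (β (γ2 s)⁻¹ (j (c' i))) (ζ 0 s)) =
      fun i s => π (β (γ2 s)⁻¹ (c1 i)) (ζ 0 s) := by
    funext i s
    have h1 : π (β (γ2 s)⁻¹ (j (c' i))) = π (β (γ2 s)⁻¹ (c1 i)) := heq s i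
    rw [h1]
  have e4 : m2 < ‖W661.Nrm.kap (0 : Fin 1) b'‖ := by
    refine lt_norm_of_form h γ2 hγ2 π (W661.Nrm.kap (0 : Fin 1) b') hkap0 ζ ?_
    rw [e3] at e1
    have e6 := congrArg Complex.re (e1.trans e2.symm)
    exact lt_of_lt_of_eq hζ e6.symm
  have e5 := norm_kap_le (0 : Fin 1) b'
  linarith

/-- **Main theorem**: if the injective envelope norms its crossed product, so does the algebra. -/
theorem main (hβ : ∀ g a, β g (j a) = j (α g a)) (h : IsReducedCrossedProduct β ι u E)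
    (hj : IsInjectiveEnvelope j) (hN : Norms ι) : Norms (ι.comp j) :=
  norms_of_pos (ι.comp j) (fun _ Y hY ε hε => main_col hβ h hj hN Y hY ε hε)

end

end Pool.Agent.V1215.NI
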