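import Pool.Agent.V1215.NI.Stm

/-! # Basic lemmas -/

set_option autoImplicit false

open scoped CStarAlgebra ComplexOrder InnerProductSpace
open ContinuousLinearMap

namespace Pool.Agent.V1215.NI

open Pool.Agent.W661.Nrm

universe u v w

/-- injective homomorphisms reflect positivity -/
lemma reflect_pos {A I : Type*} [CStarAlgebra A] [PartialOrder A] [StarOrderedRing A]
    [CStarAlgebra I] [PartialOrder I] [StarOrderedRing I] (j : A →⋆ₐ[ℂ] I)
    (hj : Function.Injective j) (a : A) (ha : 0 ≤ j a) : 0 ≤ a := by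
  have hsa : IsSelfAdjoint a := by
    apply hj
    rw [map_star]
    exact (IsSelfAdjoint.of_nonneg ha).star_eq
  have h1 : a = a⁺ - a⁻ := (CFC.posPart_sub_negPart a hsa).symm
  have hn : 0 ≤ a⁻ := CFC.negPart_nonneg a
  have hns : star a⁻ = a⁻ := (IsSelfAdjoint.of_nonneg hn).star_eq
  have h2 : a⁻ * a * a⁻ = -(star a⁻ * a⁻ * a⁻) := by
    calc a⁻ * a * a⁻ = a⁻ * (a⁺ - a⁻) * a⁻ := by rw [← h1]
      _ = -(star a⁻ * a⁻ * a⁻) := by
        rw [mul_sub, CFC.negPart_mul_posPart, zero_sub, neg_mul, hns]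
  have h3 : 0 ≤ j (a⁻ * a * a⁻) := by
    rw [map_mul, map_mul]
    have := star_left_conjugate_nonneg ha (j a⁻)
    rwa [← map_star, hns] at this
  have h4 : 0 ≤ j (star a⁻ * a⁻ * a⁻) := by
    have h5 : 0 ≤ star a⁻ * a⁻ * a⁻ := by
      rw [hns]
      have := star_left_conjugate_nonneg hn (a⁻)
      rwa [hns] at this
    obtain ⟨x, hx⟩ := (CStarAlgebra.nonneg_iff_eq_star_mul_self).1 h5
    rw [hx, map_mul, map_star]
    exact star_mul_self_nonneg _
  have h6 : j (star a⁻ * a⁻ * a⁻) = 0 := by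
    refine le_antisymm ?_ h4
    rw [h2, map_neg] at h3
    exact neg_nonneg.1 h3
  have h7 : star a⁻ * a⁻ * a⁻ = 0 := hj (by rw [h6, map_zero])
  have h8 : a⁻ = 0 := by
    have h9 : (a⁻ * a⁻) * (a⁻ * a⁻) = 0 := by
      rw [hns] at h7
      rw [← mul_assoc, h7, zero_mul]
    have h10 : a⁻ * a⁻ = 0 := by
      have := (CStarRing.star_mul_self_eq_zero_iff (a⁻ * a⁻)).1 (by
        rw [star_mul, hns]; exact h9)
      exact this
    exact (CStarRing.star_mul_self_eq_zero_iff (a⁻)).1 (by rw [hns]; exact h10)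
  rw [h8, sub_zero] at h1
  rw [h1]
  exact CFC.posPart_nonneg a

section
variable {A B : Type*} [CStarAlgebra A] [CStarAlgebra B] [PartialOrder B] [StarOrderedRing B]
  {H : Type*} [NormedAddCommGroup H] [InnerProductSpace ℂ H] [CompleteSpace H]

lemma hom_cp (σ : B →⋆ₐ[ℂ] (H →L[ℂ] H)) (k : ℕ) (M : CStarMatrix (Fin k) (Fin k) B) (hM : 0 ≤ M)
    (v : Fin k → H) : 0 ≤ ∑ i, ∑ l, ⟪v i, σ (M i l) (v l)⟫_ℂ := by
  obtain ⟨N, rfl⟩ : ∃ N : CStarMatrix (Fin k) (Fin k) B, M = star N * N := by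
    set_option backward.isDefEq.respectTransparency false in
    exact (CStarAlgebra.nonneg_iff_eq_star_mul_self).1 hM
  have key : ∑ i, ∑ j, ⟪v i, σ ((star N * N) i j) (v j)⟫_ℂ =
      ∑ l, ⟪∑ i, σ (N l i) (v i), ∑ j, σ (N l j) (v j)⟫_ℂ := by
    have h1 : ∀ i j, ⟪v i, σ ((star N * N) i j) (v j)⟫_ℂ =
        ∑ l, ⟪σ (N l i) (v i), σ (N l j) (v j)⟫_ℂ := by
      intro i j
      rw [CStarMatrix.mul_apply, map_sum, sum_apply, inner_sum]
      refine Finset.sum_congr rfl fun l _ => ?_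
      rw [CStarMatrix.star_apply, map_mul, mul_apply_eq_comp, pi_inner]
    simp only [h1]
    have h2 : ∀ i, ∑ j, ∑ l, ⟪σ (N l i) (v i), σ (N l j) (v j)⟫_ℂ =
        ∑ l, ∑ j, ⟪σ (N l i) (v i), σ (N l j) (v j)⟫_ℂ := fun i => Finset.sum_comm
    simp only [h2]
    rw [Finset.sum_comm]
    refine Finset.sum_congr rfl fun l _ => ?_
    rw [sum_inner]
    refine Finset.sum_congr rfl fun i _ => ?_
    rw [inner_sum]
  rw [key]
  refine Finset.sum_nonneg fun l _ => ?_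
  rw [inner_self_eq_norm_sq_to_K, ← RCLike.ofReal_pow]
  exact RCLike.ofReal_nonneg.2 (sq_nonneg _)

/-- a representation is a compression of itself -/
lemma comp_hom (j : A →⋆ₐ[ℂ] B) (σ : B →⋆ₐ[ℂ] (H →L[ℂ] H)) :
    Comp j (σ.comp j) (σ : B →ₗ[ℂ] (H →L[ℂ] H)) where
  left a b := map_mul σ (j a) b
  right a b := map_mul σ b (j a)
  one := map_one σ
  norm_le b := NonUnitalStarAlgHom.norm_apply_le σ b
  cp k M hM v := hom_cp σ k M hM v

end

/-- compressions of irreducible representations exist -/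
lemma exists_comp_pure {A I : Type*} [CStarAlgebra A] [PartialOrder A] [StarOrderedRing A]
    [CStarAlgebra I] [PartialOrder I] [StarOrderedRing I] (j : A →⋆ₐ[ℂ] I)
    (hj : Function.Injective j) (φ : A →ₚ[ℂ] ℂ) :
    ∃ Θ : I →ₗ[ℂ] (φ.GNS →L[ℂ] φ.GNS), Comp j φ.gnsStarAlgHom Θ := by
  obtain ⟨ψ, hψ, -⟩ := hahn_banach j (reflect_pos j hj) φ 0 (IsSelfAdjoint.zero I)
  obtain ⟨Θ, hΘ, -⟩ := exists_comp j φ.gnsStarAlgHom (om φ) (gns_dense φ) ψ
    (fun a => by rw [hψ, gns_inner])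
  exact ⟨Θ, hΘ⟩

lemma gns_nontrivial {A : Type*} [CStarAlgebra A] [PartialOrder A] [StarOrderedRing A]
    {φ : A →ₚ[ℂ] ℂ} (h : Pure φ) : Nontrivial φ.GNS := by
  refine ⟨⟨om φ, 0, fun h0 => ?_⟩⟩
  have h2 := gns_inner φ 1
  rw [h0, inner_zero_left, h.one] at h2
  exact zero_ne_one h2

/-- pure states separate -/
lemma exists_pure_ne {A : Type*} [CStarAlgebra A] [PartialOrder A] [StarOrderedRing A] {a : A}
    (ha : a ≠ 0) : ∃ φ : A →ₚ[ℂ] ℂ, Pure φ ∧ φ.gnsStarAlgHom a ≠ 0 := by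
  obtain ⟨φ, h1, h2⟩ := exists_pure (star a * a) (star_mul_self_nonneg a) (star_mul_self_ne ha)
  refine ⟨φ, h1, fun h0 => h2 ?_⟩
  rw [← gns_inner, map_mul, h0, mul_zero, zero_apply, inner_zero_right]

section irr
variable {C : Type*} [CStarAlgebra C] {H : Type*} [NormedAddCommGroup H] [InnerProductSpace ℂ H]
  [CompleteSpace H]

lemma irr_mul {σ : C →⋆ₐ[ℂ] (H →L[ℂ] H)} (hσ : Irr σ) {p c : C} (hp : σ p ≠ 0) (hc : σ c ≠ 0) :
    ∃ x, σ (p * x * c) ≠ 0 := by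
  by_contra hcon
  push Not at hcon
  obtain ⟨v, hv⟩ : ∃ v, σ c v ≠ 0 := by
    by_contra h
    push Not at h
    exact hc (ContinuousLinearMap.ext h)
  have hd := cyclic_of_irr hσ hv
  apply hp
  ext y
  rw [zero_apply]
  refine hd.induction_on (p := fun y => σ p y = 0) y (isClosed_eq (by fun_prop) (by fun_prop)) ?_
  intro x
  have := congrArg (fun T : H →L[ℂ] H => T v) (hcon x)
  simpa [map_mul] using this

/-- a product of elements which do not vanish in an irreducible representation -/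
lemma irr_word {σ : C →⋆ₐ[ℂ] (H →L[ℂ] H)} (hσ : Irr σ) {κ : Type*} (F : Finset κ) (c : κ → C)
    (hc : ∀ i ∈ F, σ (c i) ≠ 0) (h1 : σ (1 : C) ≠ 0) :
    ∃ w, σ w ≠ 0 ∧ ∀ {D : Type*} [CStarAlgebra D] (τ : C →⋆ₐ[ℂ] D), (∃ i ∈ F, τ (c i) = 0) → τ w = 0 := by
  classical
  induction F using Finset.induction_on with
  | empty => exact ⟨1, h1, fun τ ⟨i, hi, _⟩ => absurd hi (Finset.notMem_empty i)⟩
  | insert i F hi ih =>
    obtain ⟨w, hw, hw'⟩ := ih (fun l hl => hc l (Finset.mem_insert_of_mem hl))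
    obtain ⟨x, hx⟩ := irr_mul hσ (hc i (Finset.mem_insert_self i F)) hw
    refine ⟨c i * x * w, hx, fun τ ⟨l, hl, hl'⟩ => ?_⟩
    rcases Finset.mem_insert.1 hl with h | h
    · subst h
      rw [map_mul, map_mul, hl', zero_mul, zero_mul]
    · rw [map_mul, hw' τ ⟨l, h, hl'⟩, mul_zero]

lemma irr_comp_equiv {σ : C →⋆ₐ[ℂ] (H →L[ℂ] H)} (hσ : Irr σ) (β : C ≃⋆ₐ[ℂ] C) :
    Irr (σ.comp (β : C →⋆ₐ[ℂ] C)) := by
  intro T hT
  refine hσ T fun a => ?_
  obtain ⟨b, rfl⟩ := EquivLike.surjective β a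
  exact hT b

end irr

end Pool.Agent.V1215.NI
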