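import Pool.Agent.V1215.NI.Base

/-! # Detection of positivity by irreducible representations -/

set_option autoImplicit false

open scoped CStarAlgebra ComplexOrder InnerProductSpace
open ContinuousLinearMap

namespace Pool.Agent.V1215.NI

open Pool.Agent.W661.Nrm

universe u v w

section
variable {A I : Type u} [CStarAlgebra A] [PartialOrder A] [StarOrderedRing A] [CStarAlgebra I]
  [PartialOrder I] [StarOrderedRing I] {j : A →⋆ₐ[ℂ] I}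

/-- the image of the matrix `Y` under `Θ` is negative at some vector -/
def Neg {H : Type*} [NormedAddCommGroup H] [InnerProductSpace ℂ H]
    (Θ : I → (H →L[ℂ] H)) {m : ℕ} (Y : CStarMatrix (Fin m) (Fin m) I) : Prop :=
  ∃ ξ : Fin m → H, (∑ i, ∑ l, ⟪ξ i, Θ (Y i l) (ξ l)⟫_ℂ).re < 0

/-- a compression -/
structure Pt (j : A →⋆ₐ[ℂ] I) : Type (u + 1) where
  H : Type u
  [i1 : NormedAddCommGroup H]
  [i2 : InnerProductSpace ℂ H]
  [i3 : CompleteSpace H]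
  [i4 : Nontrivial H]
  π : A →⋆ₐ[ℂ] (H →L[ℂ] H)
  Θ : I →ₗ[ℂ] (H →L[ℂ] H)
  hc : Comp j π Θ

attribute [instance] Pt.i1 Pt.i2 Pt.i3 Pt.i4

lemma dichP (HD : S_DICH.{u}) (hj : IsInjectiveEnvelope j) (J : Type u) (P : J → Pt j)
    (hf : ∀ a : A, (∀ t, (P t).π a = 0) → a = 0)
    (m : ℕ) (Y : CStarMatrix (Fin m) (Fin m) I) (hY : IsSelfAdjoint Y)
    (hn : ∀ t, ¬ Neg (P t).Θ Y) : 0 ≤ Y :=
  HD A I j hj J (fun t => (P t).H) (fun t => (P t).π) (fun t => (P t).Θ) (fun t => (P t).hc) hf m Y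
    hY (fun t ξ => by
      by_contra hcon
      exact hn t ⟨ξ, not_le.1 hcon⟩)

/-- the main detection lemma -/
lemma detect (HD : S_DICH.{u}) (hj : IsInjectiveEnvelope j) (m : ℕ)
    (Y : CStarMatrix (Fin m) (Fin m) I) (hY : IsSelfAdjoint Y) (hY0 : ¬ 0 ≤ Y)
    (P : (A →ₚ[ℂ] ℂ) → Prop) :
    (∃ φ : A →ₚ[ℂ] ℂ, Pure φ ∧ P φ ∧ ∃ Θ : I →ₗ[ℂ] (φ.GNS →L[ℂ] φ.GNS),
      Comp j φ.gnsStarAlgHom Θ ∧ Neg Θ Y) ∨
    (∃ a : A, a ≠ 0 ∧ (∀ φ : A →ₚ[ℂ] ℂ, Pure φ → P φ → φ.gnsStarAlgHom a = 0) ∧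
      ∀ ψ : I →ₚ[ℂ] ℂ, Pure ψ → ψ.gnsStarAlgHom (j a) ≠ 0 → Neg ψ.gnsStarAlgHom Y) := by
  by_contra hcon
  push Not at hcon
  obtain ⟨h1, h2⟩ := hcon
  apply hY0
  let J1 : Type u := {φ : A →ₚ[ℂ] ℂ // Pure φ ∧ P φ}
  let J2 : Type u := {ψ : I →ₚ[ℂ] ℂ // Pure ψ ∧ ¬ Neg ψ.gnsStarAlgHom Y}
  have n1 : ∀ t : J1, Nontrivial (t.1.GNS) := fun t => gns_nontrivial t.2.1
  have n2 : ∀ t : J2, Nontrivial (t.1.GNS) := fun t => gns_nontrivial t.2.1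
  have hex := fun t : J1 => exists_comp_pure j hj.inj t.1
  choose Θ1 hΘ1 using hex
  let P1 : J1 → Pt j := fun t => { H := t.1.GNS, i4 := n1 t, π := t.1.gnsStarAlgHom, Θ := Θ1 t, hc := hΘ1 t }
  let P2 : J2 → Pt j := fun t => { H := t.1.GNS, i4 := n2 t, π := (t.1.gnsStarAlgHom).comp j,
                                   Θ := (t.1.gnsStarAlgHom : I →ₗ[ℂ] _), hc := comp_hom j _ }
  refine dichP HD hj (J1 ⊕ J2) (Sum.elim P1 P2) ?_ m Y hY ?_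
  · intro a ha
    by_contra ha0
    obtain ⟨ψ, hψ, hψ1, hψ2⟩ := h2 a ha0 (fun φ hφ hP => ha (.inl ⟨φ, hφ, hP⟩))
    exact hψ1 (ha (.inr ⟨ψ, hψ, hψ2⟩))
  · rintro (t | t)
    · exact h1 t.1 t.2.1 t.2.2 (Θ1 t) (hΘ1 t)
    · exact t.2.2

/-- every nonzero element of the envelope is detected by elements of `A` -/
lemma essential (HD : S_DICH.{u}) (hj : IsInjectiveEnvelope j) {w : I} (hw : w ≠ 0) :
    ∃ a : A, a ≠ 0 ∧ ∀ ψ : I →ₚ[ℂ] ℂ, Pure ψ → ψ.gnsStarAlgHom (j a) ≠ 0 →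
      ψ.gnsStarAlgHom w ≠ 0 := by
  have hY : IsSelfAdjoint (-(kap (0 : Fin 1) (star w * w))) := by
    rw [IsSelfAdjoint, star_neg, ← map_star, star_mul, star_star]
  have hY0 : ¬ 0 ≤ -(kap (0 : Fin 1) (star w * w)) := by
    intro h
    have h1 := diag_nonneg h 0
    have h2 : (-(kap (0 : Fin 1) (star w * w))) 0 0 = -(star w * w) := by
      rw [CStarMatrix.neg_apply, kap_apply, if_pos ⟨rfl, rfl⟩]
    rw [h2] at h1
    have h3 := le_antisymm (neg_nonneg.1 h1) (star_mul_self_nonneg w)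
    exact star_mul_self_ne hw h3
  rcases detect HD hj 1 _ hY hY0 (fun _ => False) with ⟨φ, _, h, _⟩ | ⟨a, ha, -, h⟩
  · exact h.elim
  · refine ⟨a, ha, fun ψ hψ hψa h0 => ?_⟩
    obtain ⟨ξ, hξ⟩ := h ψ hψ hψa
    simp only [Finset.univ_unique, Fin.default_eq_zero, Fin.isValue, Finset.sum_singleton] at hξ
    have h2 : (-(kap (0 : Fin 1) (star w * w))) 0 0 = -(star w * w) := by
      rw [CStarMatrix.neg_apply, kap_apply, if_pos ⟨rfl, rfl⟩]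
    rw [h2, map_neg, map_mul, h0, mul_zero, neg_zero, zero_apply, inner_zero_right,
      Complex.zero_re] at hξ
    exact lt_irrefl _ hξ

end

end Pool.Agent.V1215.NI
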