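import Pool.Agent.V1215.NI.Det

/-! # Generic representations -/

set_option autoImplicit false

open scoped CStarAlgebra ComplexOrder InnerProductSpace
open ContinuousLinearMap

namespace Pool.Agent.V1215.NI

open Pool.Agent.W661.Nrm

universe u v w

lemma orth_big {H : Type*} [NormedAddCommGroup H] [InnerProductSpace ℂ H] [CompleteSpace H]
    {N : ℕ} (q : Fin N → (H →L[ℂ] H)) (hs : ∀ i, IsSelfAdjoint (q i))
    (ho : ∀ i l, i ≠ l → q i * q l = 0) (h0 : ∀ i, q i ≠ 0) : Big N H := by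
  have h1 : ∀ i, ∃ x, q i x ≠ 0 := by
    intro i
    by_contra h
    push Not at h
    exact h0 i (ContinuousLinearMap.ext h)
  choose x hx using h1
  refine ⟨fun i => ((‖q i (x i)‖⁻¹ : ℝ) : ℂ) • q i (x i), ?_, ?_⟩
  · intro i
    rw [norm_smul, Complex.norm_real, norm_inv, norm_norm, inv_mul_cancel₀]
    exact norm_ne_zero_iff.2 (hx i)
  · intro i l hil
    have h2 : ⟪q i (x i), q l (x l)⟫_ℂ = 0 := by
      have h3 : ⟪q i (x i), q l (x l)⟫_ℂ = ⟪x i, q i (q l (x l))⟫_ℂ := by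
        have h4 : star (q i) = q i := (hs i).star_eq
        conv_rhs => rw [← h4]
        rw [star_eq_adjoint, adjoint_inner_right]
      rw [h3, ← mul_apply_eq_comp, ho i l hil, zero_apply, inner_zero_right]
    rw [inner_smul_left, inner_smul_right, h2, mul_zero, mul_zero]

lemma bf_mul (N : ℕ) {m m' : ℕ} (h : m ≠ m') (t : ℝ) : bf N m t * bf N m' t = 0 := by
  unfold bf
  by_contra hcon
  have h1 : (0 : ℝ) < 1 - |4 * ((N : ℝ) * t - (m : ℝ))| := by
    by_contra h2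
    rw [max_eq_left (not_lt.1 h2), zero_mul] at hcon
    exact hcon rfl
  have h2 : (0 : ℝ) < 1 - |4 * ((N : ℝ) * t - (m' : ℝ))| := by
    by_contra h2
    rw [max_eq_left (not_lt.1 h2), mul_zero] at hcon
    exact hcon rfl
  have h3 : |4 * ((N : ℝ) * t - (m : ℝ))| < 1 := by linarith
  have h4 : |4 * ((N : ℝ) * t - (m' : ℝ))| < 1 := by linarith
  rw [abs_lt] at h3 h4
  have h5 : (m : ℝ) < m' + 1 := by linarith
  have h6 : (m' : ℝ) < m + 1 := by linarith
  have h7 : m < m' + 1 := by exact_mod_cast h5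
  have h8 : m' < m + 1 := by exact_mod_cast h6
  omega

lemma bf_cont (N m : ℕ) : Continuous (bf N m) := by
  unfold bf
  fun_prop

/-- the elements of the functional calculus -/
noncomputable def be {C : Type*} [CStarAlgebra C] (N : ℕ) (h : C) (m : ℕ) : C := cfc (bf N m) h

lemma be_mul {C : Type*} [CStarAlgebra C] (N : ℕ) (h : C) {m m' : ℕ} (hm : m ≠ m') :
    be N h m * be N h m' = 0 := by
  unfold be
  rw [← cfc_mul (bf N m) (bf N m') h (bf_cont N m).continuousOn (bf_cont N m').continuousOn]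
  have : (fun t => bf N m t * bf N m' t) = fun _ => (0 : ℝ) := funext fun t => bf_mul N hm t
  rw [this]
  exact cfc_const_zero ℝ h

lemma be_sa {C : Type*} [CStarAlgebra C] (N : ℕ) (h : C) (m : ℕ) : IsSelfAdjoint (be N h m) :=
  cfc_predicate _ _

lemma big_mono {H : Type*} [NormedAddCommGroup H] [InnerProductSpace ℂ H] {M N : ℕ} (h : M ≤ N)
    (hN : Big N H) : Big M H := by
  obtain ⟨v, hv⟩ := hN
  exact ⟨fun i => v (Fin.castLE h i), hv.comp _ (Fin.castLE_injective h)⟩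

section
variable {A I : Type u} [CStarAlgebra A] [PartialOrder A] [StarOrderedRing A] [CStarAlgebra I]
  [PartialOrder I] [StarOrderedRing I] {j : A →⋆ₐ[ℂ] I}

/-- the GNS representations of the pure states of `I` which do not kill `j a` have dimension `n` and
restrict to irreducible representations of `A` -/
def HomogP (j : A →⋆ₐ[ℂ] I) (n : ℕ) (a : A) : Prop :=
  ∀ ψ : I →ₚ[ℂ] ℂ, Pure ψ → ψ.gnsStarAlgHom (j a) ≠ 0 →
    Big n ψ.GNS ∧ ¬ Big (n + 1) ψ.GNS ∧ Irr ((ψ.gnsStarAlgHom).comp j)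

/-- all irreducible representations of `I` which do not kill `j a` have dimension `n` and restrict to
irreducible representations of `A` -/
def Homog (j : A →⋆ₐ[ℂ] I) (n : ℕ) (a : A) : Prop :=
  ∀ (H : Type u) [NormedAddCommGroup H] [InnerProductSpace ℂ H] [CompleteSpace H]
    (σ : I →⋆ₐ[ℂ] (H →L[ℂ] H)), Irr σ → σ (j a) ≠ 0 → Big n H ∧ ¬ Big (n + 1) H ∧ Irr (σ.comp j)

omit [PartialOrder A] [StarOrderedRing A] [PartialOrder I] [StarOrderedRing I] in
/-- a nonzero intertwiner of an irreducible representation is injective -/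
lemma inj_of_inter {H : Type*} [NormedAddCommGroup H] [InnerProductSpace ℂ H] [CompleteSpace H]
    {π : A →⋆ₐ[ℂ] (H →L[ℂ] H)} (hπ : Irr π) (β : A ≃⋆ₐ[ℂ] A) {T : H →L[ℂ] H}
    (h : ∀ a, T * π a = π (β a) * T) (h0 : T ≠ 0) {v : H} (hv : T v = 0) : v = 0 := by
  have h2 : ∀ a, π a * star T = star T * π (β a) := by
    intro a
    have := congrArg star (h (star a))
    rw [star_mul, star_mul, ← map_star, ← map_star, star_star, map_star β, star_star] at this
    exact this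
  obtain ⟨c, hc⟩ := hπ (star T * T) (by
    intro a
    rw [mul_assoc, h, ← mul_assoc, ← h2, mul_assoc])
  have hc0 : c ≠ 0 := by
    rintro rfl
    rw [zero_smul] at hc
    exact h0 ((CStarRing.star_mul_self_eq_zero_iff T).1 hc)
  have h3 : (star T * T) v = 0 := by rw [mul_apply_eq_comp, hv, map_zero]
  rw [hc, smul_apply, one_apply_eq_self] at h3
  exact (smul_eq_zero.1 h3).resolve_left hc0

theorem gen (HD : S_DICH.{u}) (HBF : S_BF.{u, u}) (HK : S_KER.{u}) (hj : IsInjectiveEnvelope j)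
    (αh : A ≃⋆ₐ[ℂ] A) (βh : I ≃⋆ₐ[ℂ] I) (hαβ : ∀ a, βh (j a) = j (αh a)) (n : ℕ) (hn : 1 ≤ n)
    (a : A) (ha0 : a ≠ 0) (hH : HomogP j n a) :
    ∃ a' : A, a' ≠ 0 ∧ (∀ ψ : I →ₚ[ℂ] ℂ, Pure ψ → ψ.gnsStarAlgHom (j a') ≠ 0 →
        ψ.gnsStarAlgHom (j a) ≠ 0) ∧
      ∀ ψ : I →ₚ[ℂ] ℂ, Pure ψ → ψ.gnsStarAlgHom (j a') ≠ 0 → ∀ T : ψ.GNS →L[ℂ] ψ.GNS,
        (∀ x : A, T * ψ.gnsStarAlgHom (j x) = ψ.gnsStarAlgHom (j (αh x)) * T) →
        ∀ x : I, T * ψ.gnsStarAlgHom x = ψ.gnsStarAlgHom (βh x) * T := by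
  by_cases hc : ∀ ψ : I →ₚ[ℂ] ℂ, Pure ψ → ψ.gnsStarAlgHom (j a) ≠ 0 → ∀ T : ψ.GNS →L[ℂ] ψ.GNS,
        (∀ x : A, T * ψ.gnsStarAlgHom (j x) = ψ.gnsStarAlgHom (j (αh x)) * T) →
        ∀ x : I, T * ψ.gnsStarAlgHom x = ψ.gnsStarAlgHom (βh x) * T
  · exact ⟨a, ha0, fun ψ _ h => h, hc⟩
  push Not at hc
  obtain ⟨ψ0, hψ0, h0, T0, hT0, x0, hx0⟩ := hc
  set π0 := ψ0.gnsStarAlgHom with hπ0
  have hirr0 : Irr π0 := irr_of_pure hψ0
  obtain ⟨hbig, hnbig, hirrA⟩ := hH ψ0 hψ0 h0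
  have key : ∀ T : ψ0.GNS →L[ℂ] ψ0.GNS, (∀ c, T * π0 c = π0 (βh c) * T) → T = 0 := by
    intro T hT
    by_contra hT1
    obtain ⟨c, hc⟩ := intertwiner hirrA αh (T1 := T0) (T2 := T) (fun x => hT0 x) (fun x => by
      have := hT (j x)
      rw [hαβ] at this
      exact this) hT1
    apply hx0
    rw [hc, smul_mul_assoc, hT, mul_smul_comm]
  let σ : Fin 2 → (I →⋆ₐ[ℂ] (ψ0.GNS →L[ℂ] ψ0.GNS)) := fun s =>
    if s = 0 then π0 else π0.comp (βh : I →⋆ₐ[ℂ] I)
  have hσ0 : σ 0 = π0 := if_pos rfl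
  have hσ1 : σ 1 = π0.comp (βh : I →⋆ₐ[ℂ] I) := if_neg (by decide)
  obtain ⟨h, hsa, hh⟩ := HBF I ψ0.GNS 2 n σ (by
      intro s
      by_cases hs : s = 0
      · rw [hs, hσ0]; exact hirr0
      · have : s = 1 := by omega
        rw [this, hσ1]
        exact irr_comp_equiv hirr0 βh) (by
      intro s t T hst hT
      by_cases hs : s = 0
      · have ht : t = 1 := by omega
        rw [hs, ht, hσ0, hσ1] at hT
        have h1 : star T = 0 := by
          apply key
          intro c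
          have := congrArg star (hT (star c))
          rw [star_mul, star_mul, ← map_star, ← map_star, star_star] at this
          have h2 : (βh : I →⋆ₐ[ℂ] I) c = βh c := rfl
          rw [StarAlgHom.comp_apply, h2] at this
          exact this.symm
        rw [← star_star T, h1, star_zero]
      · have hs1 : s = 1 := by omega
        have ht : t = 0 := by omega
        rw [hs1, ht, hσ0, hσ1] at hT
        exact key T hT) hbig
  have hc0 : ∀ m, m < n → π0 (be (2 * n) h m) ≠ 0 := by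
    intro m hm
    have := hh 0 ⟨m, hm⟩
    rw [hσ0] at this
    simpa [be] using this
  have hd0 : ∀ m, n ≤ m → m < 2 * n → π0 (βh (be (2 * n) h m)) ≠ 0 := by
    intro m hm hm2
    have := hh 1 ⟨m - n, by omega⟩
    rw [hσ1] at this
    have h2 : ((1 : Fin 2) : ℕ) * n + (m - n) = m := by
      show 1 * n + (m - n) = m
      omega
    simp only [h2] at this
    exact this
  -- the product of all these elements
  obtain ⟨w, hw, hw'⟩ := irr_word hirr0 (Finset.univ : Finset (Option (Fin (2 * n))))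
    (fun i => match i with
      | none => j a
      | some m => if (m : ℕ) < n then be (2 * n) h m else βh (be (2 * n) h m)) (by
      rintro (_ | m) -
      · exact h0
      · by_cases hm : (m : ℕ) < n
        · simp only [if_pos hm]
          exact hc0 m hm
        · simp only [if_neg hm]
          exact hd0 m (by omega) m.2) (by
      rw [map_one]
      intro h1
      apply h0
      rw [← mul_one (j a), map_mul, map_one, h1, mul_zero])
  have hw0 : w ≠ 0 := by
    rintro rfl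
    exact hw (map_zero _)
  obtain ⟨a', ha', hes⟩ := essential HD hj hw0
  have hg1 : ∀ ψ : I →ₚ[ℂ] ℂ, Pure ψ → ψ.gnsStarAlgHom (j a') ≠ 0 →
      ψ.gnsStarAlgHom (j a) ≠ 0 := by
    intro ψ hψ h1 h2
    exact hes ψ hψ h1 (hw' _ ⟨none, Finset.mem_univ _, h2⟩)
  have hg2 : ∀ ψ : I →ₚ[ℂ] ℂ, Pure ψ → ψ.gnsStarAlgHom (j a') ≠ 0 → ∀ m, m < n →
      ψ.gnsStarAlgHom (be (2 * n) h m) ≠ 0 := by
    intro ψ hψ h1 m hm h2
    refine hes ψ hψ h1 (hw' _ ⟨some ⟨m, by omega⟩, Finset.mem_univ _, ?_⟩)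
    simp only [if_pos hm]
    exact h2
  have hg3 : ∀ ψ : I →ₚ[ℂ] ℂ, Pure ψ → ψ.gnsStarAlgHom (j a') ≠ 0 → ∀ m, n ≤ m → m < 2 * n →
      ψ.gnsStarAlgHom (βh (be (2 * n) h m)) ≠ 0 := by
    intro ψ hψ h1 m hm hm2 h2
    refine hes ψ hψ h1 (hw' _ ⟨some ⟨m, hm2⟩, Finset.mem_univ _, ?_⟩)
    have : ¬ m < n := by omega
    simp only [if_neg this]
    exact h2
  refine ⟨a', ha', hg1, fun ψ hψ h1 T hT => ?_⟩
  have hT1 : T = 0 := by
    by_contra hT1
    obtain ⟨-, hnb, hiA⟩ := hH ψ hψ (hg1 ψ hψ h1)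
    have h2 : ψ.gnsStarAlgHom (βh (j a')) ≠ 0 := by
      intro h2
      apply h1
      ext v
      rw [zero_apply]
      refine inj_of_inter hiA αh (fun x => hT x) hT1 ?_
      have h3 := hT a'
      rw [← hαβ, h2, zero_mul] at h3
      exact congrArg (fun S : ψ.GNS →L[ℂ] ψ.GNS => S v) h3
    obtain ⟨ψ', hψ', hker⟩ := HK I ψ βh hψ
    have h3 : ψ'.gnsStarAlgHom (j a') ≠ 0 := fun h => h2 ((hker _).1 h)
    apply hnb
    refine orth_big (fun m : Fin (n + 1) => ψ.gnsStarAlgHom (βh (be (2 * n) h m))) ?_ ?_ ?_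
    · intro m
      rw [IsSelfAdjoint, ← map_star, ← map_star, (be_sa (2 * n) h m).star_eq]
    · intro m m' hmm
      rw [← map_mul, ← map_mul, be_mul (2 * n) h (fun h => hmm (Fin.ext h)), map_zero, map_zero]
    · intro m
      by_cases hm : (m : ℕ) < n
      · exact fun h4 => hg2 ψ' hψ' h3 m hm ((hker _).2 h4)
      · have := m.2
        exact hg3 ψ hψ h1 m (by omega) (by omega)
  intro x
  rw [hT1, zero_mul, mul_zero]

end

end Pool.Agent.V1215.NI
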