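import Pool.Agent.V1215.NI.Gen

/-! # Multiplicative domains -/

set_option autoImplicit false

open scoped CStarAlgebra ComplexOrder InnerProductSpace
open ContinuousLinearMap

namespace Pool.Agent.V1215.NI

open Pool.Agent.W661.Nrm

universe u v w

section
variable {X Y : Type*} [CStarAlgebra X] [PartialOrder X] [StarOrderedRing X] [CStarAlgebra Y]
  [PartialOrder Y] [StarOrderedRing Y]

set_option backward.isDefEq.respectTransparency false in
lemma rank_one_nonneg {n : ℕ} (i0 : Fin n) (c : Fin n → X) :
    0 ≤ (CStarMatrix.ofMatrix fun i l => star (c i) * c l : CStarMatrix (Fin n) (Fin n) X) := by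
  have h : (CStarMatrix.ofMatrix fun i l => star (c i) * c l : CStarMatrix (Fin n) (Fin n) X) =
      col i0 (fun i => star (c i)) * star (col i0 (fun i => star (c i))) := by
    ext i l
    rw [CStarMatrix.mul_apply, Finset.sum_eq_single i0]
    · rw [CStarMatrix.star_apply, col_apply, col_apply, if_pos rfl, if_pos rfl, star_star]
      rfl
    · intro b _ hb
      rw [col_apply, if_neg hb, zero_mul]
    · intro h
      exact absurd (Finset.mem_univ i0) h
  rw [h]
  exact mul_star_self_nonneg _

lemma form_nonneg (K : X →CP Y) {n : ℕ} (i0 : Fin n) (c : Fin n → X) (z : Fin n → Y) :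
    0 ≤ ∑ i, ∑ l, star (z i) * K (star (c i) * c l) * z l := by
  have h1 : 0 ≤ (CStarMatrix.ofMatrix fun i l => star (c i) * c l :
      CStarMatrix (Fin n) (Fin n) X).map K :=
    CompletelyPositiveMapClass.map_cstarMatrix_nonneg' K n _ (rank_one_nonneg i0 c)
  exact bil_nonneg _ h1 z

lemma schwarz (K : X →CP Y) (h1 : K 1 = 1) (b : X) : star (K b) * K b ≤ K (star b * b) := by
  have h := form_nonneg K (n := 2) 0 ![1, b] ![-(K b), 1]
  have hs : K (star b) = star (K b) := map_star K b
  simp only [Fin.sum_univ_two, Matrix.cons_val_zero, Matrix.cons_val_one, star_one, one_mul,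
    mul_one, h1, hs, star_neg] at h
  rw [← sub_nonneg]
  have e : -star (K b) * -K b + -star (K b) * K b + (star (K b) * -K b + K (star b * b)) =
      K (star b * b) - star (K b) * K b := by noncomm_ring
  rwa [e] at h

lemma cp_mono (K : X →CP Y) {a b : X} (h : a ≤ b) : K a ≤ K b := OrderHomClass.mono K h

lemma cp_norm_le (K : X →CP Y) (h1 : K 1 = 1) (b : X) : ‖K b‖ ≤ ‖b‖ := by
  obtain (h | _) := subsingleton_or_nontrivial Y
  · rw [Subsingleton.elim (K b) 0, norm_zero]
    exact norm_nonneg _
  have h2 := schwarz K h1 b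
  have h3 : star b * b ≤ algebraMap ℝ X (‖b‖ ^ 2) := by
    have := (IsSelfAdjoint.star_mul_self b).le_algebraMap_norm_self
    rwa [CStarRing.norm_star_mul_self, ← sq] at this
  have h4 : K (algebraMap ℝ X (‖b‖ ^ 2)) = algebraMap ℝ Y (‖b‖ ^ 2) := by
    rw [Algebra.algebraMap_eq_smul_one, Algebra.algebraMap_eq_smul_one, ← Complex.coe_smul,
      map_smul, h1, Complex.coe_smul]
  have h5 := h2.trans (cp_mono K h3)
  rw [h4] at h5
  have h6 := (CStarAlgebra.norm_le_iff_le_algebraMap _ (by positivity)
    (star_mul_self_nonneg (K b))).2 h5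
  rw [CStarRing.norm_star_mul_self, ← sq] at h6
  exact le_of_sq_le_sq h6 (norm_nonneg _)

lemma md (K : X →CP Y) (h1 : K 1 = 1) (b : X) (hb : K (star b * b) = star (K b) * K b) (m : X) :
    K (m * b) = K m * K b := by
  set D : Y := K (m * b) - K m * K b with hD
  set Q : Y := K (m * star m) - K m * star (K m) with hQ
  have key : ∀ t : ℝ, 0 ≤ Q - (2 * t) • (D * star D) := by
    intro t
    have h := form_nonneg K (n := 3) 0 ![1, b, star m]
      ![t • (K b * star D) - star (K m), -(t • star D), 1]
    have hs : ∀ x, K (star x) = star (K x) := fun x => map_star K x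
    have hs2 : K (star b * star m) = star (K (m * b)) := by rw [← star_mul, hs]
    have e1 : K (m * b) = D + K m * K b := by rw [hD]; abel
    have e2 : K (m * star m) = Q + K m * star (K m) := by rw [hQ]; abel
    simp only [Fin.sum_univ_three, Matrix.cons_val_zero, Matrix.cons_val_one, Matrix.cons_val_two,
      Matrix.head_cons, Matrix.tail_cons, Matrix.cons_val, star_one, one_mul,
      mul_one, h1, hs, hs2, star_neg, star_star, star_sub, star_smul, star_trivial, star_mul, hb,
      e1, e2, star_add] at h
    have e : Q - (2 * t) • (D * star D) =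
        (t • (D * star (K b)) - K m) * (t • (K b * star D) - star (K m)) +
        (t • (D * star (K b)) - K m) * K b * -(t • star D) +
        (t • (D * star (K b)) - K m) * star (K m) +
        (-(t • D) * star (K b) * (t • (K b * star D) - star (K m)) +
        -(t • D) * (star (K b) * K b) * -(t • star D) +
        -(t • D) * (star D + star (K b) * star (K m))) +
        (K m * (t • (K b * star D) - star (K m)) + (D + K m * K b) * -(t • star D) +
        (Q + K m * star (K m))) := by
      simp only [mul_sub, sub_mul, mul_add, add_mul, neg_mul, mul_neg, smul_mul_assoc,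
        mul_smul_comm, smul_smul, neg_neg, mul_assoc]
      module
    rw [e]
    exact h
  have hDD : D * star D = 0 := by
    by_contra hne
    have hn : 0 < ‖D * star D‖ := norm_pos_iff.2 hne
    set t : ℝ := ‖Q‖ / ‖D * star D‖ + 1 with ht
    have ht0 : 0 < t := by positivity
    have h2 := key t
    have h3 : 0 ≤ (2 * t) • (D * star D) :=
      smul_nonneg (by positivity) (mul_star_self_nonneg D)
    have h4 := CStarAlgebra.norm_le_norm_of_nonneg_of_le h3 (sub_nonneg.1 h2)
    rw [norm_smul, Real.norm_eq_abs, abs_of_pos (by positivity)] at h4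
    have h5 : t * ‖D * star D‖ = ‖Q‖ + ‖D * star D‖ := by
      rw [ht, add_mul, div_mul_cancel₀ _ hn.ne', one_mul]
    nlinarith [norm_nonneg Q]
  have hD0 : D = 0 := CStarRing.mul_star_self_eq_zero_iff D |>.1 hDD
  exact sub_eq_zero.1 hD0

omit [PartialOrder X] [StarOrderedRing X] in
lemma cfc_close (g : ℝ → ℝ) (hg : Continuous g) (p : Polynomial ℝ) {δ R : ℝ} (hδ0 : 0 < δ)
    (hp : ∀ t ∈ Set.Icc (-R) R, |p.eval t - g t| < δ) (c : X) (hc : IsSelfAdjoint c)
    (hcR : ‖c‖ ≤ R) : ‖cfc g c - Polynomial.aeval c p‖ ≤ δ := by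
  rw [← cfc_polynomial p c hc, ← cfc_sub g p.eval c hg.continuousOn (by fun_prop)]
  refine norm_cfc_le hδ0.le fun t ht => ?_
  have ht1 : ‖t‖ ≤ R := by
    obtain (hs | _) := subsingleton_or_nontrivial X
    · have := spectrum.of_subsingleton (R := ℝ) c
      rw [this] at ht
      exact ht.elim
    · exact (spectrum.norm_le_norm_of_mem ht).trans hcR
  have ht2 : t ∈ Set.Icc (-R) R := by
    rw [Real.norm_eq_abs, abs_le] at ht1
    exact ht1
  have := (hp t ht2).le
  rw [Real.norm_eq_abs, abs_sub_comm]
  exact this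

/-- right multiplication by the functional calculus -/
lemma md_cfc (K : X →CP Y) (h1 : K 1 = 1) (a : X) (h : Y) (ha : IsSelfAdjoint a)
    (hh : IsSelfAdjoint h) (hmul : ∀ m, K (m * a) = K m * h) (g : ℝ → ℝ) (hg : Continuous g)
    (m : X) : K (m * cfc g a) = K m * cfc g h := by
  have hpoly : ∀ (p : Polynomial ℝ) (m : X), K (m * Polynomial.aeval a p) =
      K m * Polynomial.aeval h p := by
    intro p
    induction p using Polynomial.induction_on' with
    | add p q hp hq =>
      intro m
      rw [map_add, map_add, mul_add, map_add, hp, hq, mul_add]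
    | monomial n c =>
      intro m
      rw [Polynomial.aeval_monomial, Polynomial.aeval_monomial]
      have h2 : ∀ (n : ℕ) (m : X), K (m * a ^ n) = K m * h ^ n := by
        intro n
        induction n with
        | zero => intro m; rw [pow_zero, pow_zero, mul_one, mul_one]
        | succ n ih => intro m; rw [pow_succ, pow_succ, ← mul_assoc, hmul, ih, mul_assoc]
      rw [Algebra.algebraMap_eq_smul_one, Algebra.algebraMap_eq_smul_one, smul_mul_assoc,
        smul_mul_assoc, one_mul, one_mul, mul_smul_comm, mul_smul_comm, ← Complex.coe_smul,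
        map_smul, h2, Complex.coe_smul]
  by_contra hne
  have hpos : 0 < ‖K (m * cfc g a) - K m * cfc g h‖ := norm_pos_iff.2 (sub_ne_zero.2 hne)
  set d := ‖K (m * cfc g a) - K m * cfc g h‖ with hd
  set R : ℝ := max ‖a‖ ‖h‖ with hR
  set δ : ℝ := d / (4 * (‖m‖ + 1)) with hδ
  have hδ0 : 0 < δ := by positivity
  obtain ⟨p, hp⟩ := exists_polynomial_near_of_continuousOn (-R) R g hg.continuousOn δ hδ0
  have hca := cfc_close g hg p hδ0 (fun t ht => hp t ht) a ha (le_max_left _ _)
  have hch := cfc_close g hg p hδ0 (fun t ht => hp t ht) h hh (le_max_right _ _)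
  have e1 : K (m * cfc g a) - K m * cfc g h =
      K (m * (cfc g a - Polynomial.aeval a p)) - K m * (cfc g h - Polynomial.aeval h p) := by
    rw [mul_sub, mul_sub, map_sub, hpoly]
    abel
  have e2 : d ≤ ‖m‖ * δ + ‖m‖ * δ := by
    rw [hd, e1]
    refine (norm_sub_le _ _).trans (add_le_add ?_ ?_)
    · refine (cp_norm_le K h1 _).trans ((norm_mul_le _ _).trans ?_)
      gcongr
    · refine (norm_mul_le _ _).trans ?_
      have := cp_norm_le K h1 m
      gcongr
  have e3 : (‖m‖ + 1) * δ = d / 4 := by
    rw [hδ]
    field_simp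
  nlinarith [norm_nonneg m]

end

end Pool.Agent.V1215.NI
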