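import Pool.Agent.W661.Nrm16
import Pool.Agent.H770R2.Kad.Kap2

/-! # Statements for the norming problem (injective envelopes and crossed products) -/

set_option autoImplicit false

open scoped CStarAlgebra ComplexOrder InnerProductSpace

namespace Pool.Agent.V1215.NI

open Pool.Agent.W661.Nrm

universe u v w

/-- there are `N` orthonormal vectors -/
def Big (N : ℕ) (H : Type*) [NormedAddCommGroup H] [InnerProductSpace ℂ H] : Prop :=
  ∃ v : Fin N → H, Orthonormal ℂ v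

/-- Kaplansky density for a finite family of representations on the same space. -/
def S_KAP : Prop :=
  ∀ (C : Type u) [CStarAlgebra C] (H : Type v) [NormedAddCommGroup H] [InnerProductSpace ℂ H]
    [CompleteSpace H] (f : ℕ) (σ : Fin f → (C →⋆ₐ[ℂ] (H →L[ℂ] H))) (X : Fin f → (H →L[ℂ] H)),
    (∀ s, IsSelfAdjoint (X s)) → (∀ s, ‖X s‖ ≤ 1) →
    (∀ (s t : Fin f) (T : H →L[ℂ] H), (∀ c, T * σ t c = σ s c * T) → T * X t = X s * T) →
    ∀ (n : ℕ) (x : Fin f → Fin n → H) (ε : ℝ), 0 < ε →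
      ∃ c : C, IsSelfAdjoint c ∧ ‖c‖ ≤ 1 ∧ ∀ s i, ‖σ s c (x s i) - X s (x s i)‖ < ε

/-- bump function around `m / N` -/
noncomputable def bf (N m : ℕ) (t : ℝ) : ℝ := max 0 (1 - |4 * ((N : ℝ) * t - (m : ℝ))|)

/-- Elements of the functional calculus of one `h` which do not vanish in pairwise disjoint
irreducible representations. -/
def S_BF : Prop :=
  ∀ (C : Type u) [CStarAlgebra C] (H : Type v) [NormedAddCommGroup H] [InnerProductSpace ℂ H]
    [CompleteSpace H] (f n : ℕ) (σ : Fin f → (C →⋆ₐ[ℂ] (H →L[ℂ] H))),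
    (∀ s, Irr (σ s)) →
    (∀ (s t : Fin f) (T : H →L[ℂ] H), s ≠ t → (∀ c, T * σ t c = σ s c * T) → T = 0) →
    Big n H →
    ∃ h : C, IsSelfAdjoint h ∧ ∀ (s : Fin f) (i : Fin n),
      σ s (cfc (bf (f * n) ((s : ℕ) * n + (i : ℕ))) h) ≠ 0

/-- The one representation case: an irreducible representation of large dimension, composed with
finitely many automorphisms. -/
def S_ONE : Prop :=
  ∀ (A : Type u) [CStarAlgebra A] (H : Type v) [NormedAddCommGroup H] [InnerProductSpace ℂ H]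
    [CompleteSpace H] (π : A →⋆ₐ[ℂ] (H →L[ℂ] H)), Irr π →
    ∀ (f k : ℕ) (γ : Fin f → (A ≃⋆ₐ[ℂ] A)), Big ((k + 1) * (k * f)) H →
    ∀ (ξ : Fin k → Fin f → H) (ε : ℝ), 0 < ε →
    ∃ (c : Fin k → A) (ζ : Fin f → H), ‖∑ i, star (c i) * c i‖ ≤ 1 ∧
      (∑ s, ‖ζ s‖ ^ 2 ≤ ∑ i, ∑ s, ‖ξ i s‖ ^ 2) ∧
      ∀ i s, ‖π (γ s (c i)) (ζ s) - ξ i s‖ < ε

/-- Lifting of columns in the finite dimensional case. -/
def S_LIFT : Prop :=
  ∀ (A : Type u) [CStarAlgebra A] (I : Type u) [CStarAlgebra I] (j : A →⋆ₐ[ℂ] I)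
    (H : Type v) [NormedAddCommGroup H] [InnerProductSpace ℂ H] [CompleteSpace H]
    [FiniteDimensional ℂ H] (f : ℕ) (σ : Fin f → (I →⋆ₐ[ℂ] (H →L[ℂ] H))),
    (∀ (s t : Fin f) (T : H →L[ℂ] H), (∀ a : A, T * σ t (j a) = σ s (j a) * T) →
      ∀ x : I, T * σ t x = σ s x * T) →
    ∀ (k : ℕ) (c : Fin k → I), ‖∑ i, star (c i) * c i‖ ≤ 1 →
    ∃ c' : Fin k → A, ‖∑ i, star (c' i) * c' i‖ ≤ 1 ∧ ∀ s i, σ s (j (c' i)) = σ s (c i)

/-- A positive element of the ideal of `a` which is at least one in a given finite dimensional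
irreducible representation. -/
def S_UNIT : Prop :=
  ∀ (A : Type u) [CStarAlgebra A] [PartialOrder A] [StarOrderedRing A]
    (H : Type v) [NormedAddCommGroup H] [InnerProductSpace ℂ H] [CompleteSpace H]
    (π : A →⋆ₐ[ℂ] (H →L[ℂ] H)), Irr π → FiniteDimensional ℂ H → ∀ a : A, π a ≠ 0 →
    ∃ b : A, 0 ≤ b ∧ 1 ≤ π b ∧
      ∀ (D : Type u) [CStarAlgebra D] (τ : A →⋆ₐ[ℂ] D), τ a = 0 → τ b = 0

/-- Composition of a pure state with an automorphism. -/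
def S_KER : Prop :=
  ∀ (C : Type u) [CStarAlgebra C] [PartialOrder C] [StarOrderedRing C] (ψ : C →ₚ[ℂ] ℂ)
    (β : C ≃⋆ₐ[ℂ] C), Pure ψ → ∃ ψ' : C →ₚ[ℂ] ℂ, Pure ψ' ∧
      ∀ x, (ψ'.gnsStarAlgHom x = 0 ↔ ψ.gnsStarAlgHom (β x) = 0)

/-- A family of completely positive maps of the injective envelope `I`, which extend a jointly
faithful family of representations of `A`, detects positivity of matrices over `I`. -/
def S_DICH : Prop :=
  ∀ (A I : Type u) [CStarAlgebra A] [CStarAlgebra I] [PartialOrder I] [StarOrderedRing I]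
    (j : A →⋆ₐ[ℂ] I), IsInjectiveEnvelope j →
    ∀ (J : Type u) (H : J → Type u) [∀ t, NormedAddCommGroup (H t)]
      [∀ t, InnerProductSpace ℂ (H t)] [∀ t, CompleteSpace (H t)] [∀ t, Nontrivial (H t)]
      (π : ∀ t, A →⋆ₐ[ℂ] (H t →L[ℂ] H t)) (Θ : ∀ t, I →ₗ[ℂ] (H t →L[ℂ] H t)),
      (∀ t, Comp j (π t) (Θ t)) → (∀ a : A, (∀ t, π t a = 0) → a = 0) →
      ∀ (m : ℕ) (Y : CStarMatrix (Fin m) (Fin m) I), IsSelfAdjoint Y →
        (∀ (t : J) (ξ : Fin m → H t), 0 ≤ (∑ i, ∑ l, ⟪ξ i, Θ t (Y i l) (ξ l)⟫_ℂ).re) → 0 ≤ Y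

/-- If all irreducible representations of `A` not killing `a` have dimension less than `N`, then the
same holds for the irreducible representations of the injective envelope. -/
def S_DIM : Prop :=
  ∀ (A I : Type u) [CStarAlgebra A] [PartialOrder A] [StarOrderedRing A] [CStarAlgebra I]
    [PartialOrder I] [StarOrderedRing I] (j : A →⋆ₐ[ℂ] I), IsInjectiveEnvelope j →
    ∀ (N : ℕ) (a : A),
      (∀ φ : A →ₚ[ℂ] ℂ, Pure φ → φ.gnsStarAlgHom a ≠ 0 → ¬ Big N φ.GNS) →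
    ∀ (H : Type v) [NormedAddCommGroup H] [InnerProductSpace ℂ H] [CompleteSpace H]
      (σ : I →⋆ₐ[ℂ] (H →L[ℂ] H)), Irr σ → σ (j a) ≠ 0 → ¬ Big N H

/-- From positive matrices over the crossed product to matrices over the coefficient algebra. -/
def S_G1 : Prop :=
  ∀ (I : Type u) (B : Type v) (G : Type w) [CStarAlgebra I] [PartialOrder I] [StarOrderedRing I]
    [CStarAlgebra B] [PartialOrder B] [StarOrderedRing B] [Group G] (β : G →* (I ≃⋆ₐ[ℂ] I))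
    (ι : I →⋆ₐ[ℂ] B) (u : G →* unitary B) (E : B →L[ℂ] I), IsReducedCrossedProduct β ι u E →
    ∀ (k : ℕ) (Y : CStarMatrix (Fin k) (Fin k) B), 0 ≤ Y → ∀ m : ℝ, 0 ≤ m → m < ‖Y‖ →
    ∃ (f : ℕ) (γ : Fin f → G), Function.Injective γ ∧
      ¬ 0 ≤ ((m : ℂ) • (1 : CStarMatrix (Fin (k * f)) (Fin (k * f)) I) -
        CStarMatrix.ofMatrix fun p q =>
          E (star (u (γ (finProdFinEquiv.symm p).2) : B) *
            Y (finProdFinEquiv.symm p).1 (finProdFinEquiv.symm q).1 *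
            (u (γ (finProdFinEquiv.symm q).2) : B)))

/-- The converse estimate, for vectors. -/
def S_G2 : Prop :=
  ∀ (I : Type u) (B : Type v) (G : Type w) [CStarAlgebra I] [PartialOrder I] [StarOrderedRing I]
    [CStarAlgebra B] [PartialOrder B] [StarOrderedRing B] [Group G] (β : G →* (I ≃⋆ₐ[ℂ] I))
    (ι : I →⋆ₐ[ℂ] B) (u : G →* unitary B) (E : B →L[ℂ] I), IsReducedCrossedProduct β ι u E →
    ∀ (H : Type u) [NormedAddCommGroup H] [InnerProductSpace ℂ H] [CompleteSpace H]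
      (Θ : I →ₗ[ℂ] (H →L[ℂ] H)), Θ 1 = 1 →
      (∀ (m : ℕ) (M : CStarMatrix (Fin m) (Fin m) I), 0 ≤ M → ∀ v : Fin m → H,
        0 ≤ ∑ i, ∑ l, ⟪v i, Θ (M i l) (v l)⟫_ℂ) →
    ∀ (k : ℕ) (Y : CStarMatrix (Fin k) (Fin k) B), 0 ≤ Y → ∀ (f : ℕ) (γ : Fin f → G),
      Function.Injective γ → ∀ ξ : Fin k → Fin f → H,
      (∑ i, ∑ s, ∑ l, ∑ t,
        ⟪ξ i s, Θ (E (star (u (γ s) : B) * Y i l * (u (γ t) : B))) (ξ l t)⟫_ℂ).re ≤
        ‖Y‖ * ∑ i, ∑ s, ‖ξ i s‖ ^ 2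

end Pool.Agent.V1215.NI
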