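/-
A positive element in the ideal of `a` which is at least one in a finite dimensional irreducible
representation (written by helper51 for helper215).
-/
import Pool.Agent.V1215.NI.Stm

set_option autoImplicit false

open scoped CStarAlgebra ComplexOrder InnerProductSpace

namespace Pool.Agent.V1215.NI

open Pool.Agent.W661.Nrm

universe u v w

theorem exists_big {A : Type u} [CStarAlgebra A] {H : Type v} [NormedAddCommGroup H]
    [InnerProductSpace ℂ H] [CompleteSpace H] {π : A →⋆ₐ[ℂ] (H →L[ℂ] H)} (hπ : Irr π)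
    {a : A} (ha : π a ≠ 0) {v : H} (hv : v ≠ 0) : ∃ x : A, 1 < ‖π (a * x) v‖ := by
  have hd := cyclic_of_irr hπ hv
  obtain ⟨w, hw⟩ : ∃ w : H, π a w ≠ 0 := by
    by_contra hcon
    push Not at hcon
    exact ha (ContinuousLinearMap.ext hcon)
  have hw' : 0 < ‖π a w‖ := norm_pos_iff.2 hw
  have hopen : IsOpen {z : H | ‖π a w‖ / 2 < ‖π a z‖} :=
    isOpen_lt continuous_const ((π a).continuous.norm)
  obtain ⟨y, hy⟩ := hd.exists_mem_open hopen ⟨w, by
    change ‖π a w‖ / 2 < ‖π a w‖
    linarith⟩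
  have hy' : ‖π a w‖ / 2 < ‖π a (π y v)‖ := hy
  have hpos : 0 < ‖π a (π y v)‖ := by linarith
  refine ⟨((2 / ‖π a (π y v)‖ : ℝ) : ℂ) • y, ?_⟩
  have h1 : π (a * (((2 / ‖π a (π y v)‖ : ℝ) : ℂ) • y)) v =
      ((2 / ‖π a (π y v)‖ : ℝ) : ℂ) • (π a (π y v)) := by
    rw [mul_smul_comm, map_smul, map_mul]
    rfl
  rw [h1, norm_smul, Complex.norm_real, Real.norm_of_nonneg (by positivity),
    div_mul_cancel₀ _ hpos.ne']
  norm_num

theorem unit : S_UNIT.{u, v} := by
  intro A _ _ _ H _ _ _ π hπ hfin a ha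
  have hcpt : IsCompact (Metric.sphere (0 : H) 1) := by
    have : ProperSpace H := FiniteDimensional.proper ℂ H
    exact isCompact_sphere 0 1
  have hex : ∀ v ∈ Metric.sphere (0 : H) 1, ∃ x : A, 1 < ‖π (a * x) v‖ := by
    intro v hv
    refine exists_big hπ ha ?_
    rintro rfl
    simp at hv
  choose! x hx using hex
  obtain ⟨t, ht, htc⟩ := hcpt.elim_nhds_subcover
    (fun v => {z : H | 1 < ‖π (a * x v) z‖}) (fun v hv =>
      (isOpen_lt continuous_const ((π (a * x v)).continuous.norm)).mem_nhds (hx v hv))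
  refine ⟨∑ v ∈ t, star (a * x v) * (a * x v), Finset.sum_nonneg fun v _ =>
    star_mul_self_nonneg _, ?_, ?_⟩
  · rw [ContinuousLinearMap.le_def]
    have hsum : π (∑ v ∈ t, star (a * x v) * (a * x v)) =
        ∑ v ∈ t, star (π (a * x v)) * π (a * x v) := by
      rw [map_sum]
      exact Finset.sum_congr rfl fun v _ => by rw [map_mul, map_star]
    have hsa : IsSelfAdjoint (∑ v ∈ t, star (π (a * x v)) * π (a * x v)) := by
      apply IsSelfAdjoint.of_nonneg
      exact Finset.sum_nonneg fun v _ => star_mul_self_nonneg _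
    rw [hsum, ContinuousLinearMap.isPositive_def']
    refine ⟨hsa.sub (IsSelfAdjoint.one _), ?_⟩
    intro z
    have hre : (∑ v ∈ t, star (π (a * x v)) * π (a * x v) - 1 : H →L[ℂ] H).reApplyInnerSelf z =
        ∑ v ∈ t, ‖π (a * x v) z‖ ^ 2 - ‖z‖ ^ 2 := by
      rw [ContinuousLinearMap.reApplyInnerSelf_apply, ContinuousLinearMap.sub_apply, inner_sub_left,
        map_sub, ContinuousLinearMap.sum_apply, sum_inner, map_sum]
      congr 1
      · refine Finset.sum_congr rfl fun v _ => ?_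
        have h3 : (star (π (a * x v)) * π (a * x v)) z =
          ContinuousLinearMap.adjoint (π (a * x v)) (π (a * x v) z) := rfl
        rw [h3, ContinuousLinearMap.adjoint_inner_left, inner_self_eq_norm_sq]
      · exact inner_self_eq_norm_sq z
    rw [hre]
    by_cases hz : z = 0
    · rw [hz, norm_zero]
      have : 0 ≤ ∑ v ∈ t, ‖π (a * x v) (0 : H)‖ ^ 2 := Finset.sum_nonneg fun v _ => by positivity
      simpa using this
    · have hzn : 0 < ‖z‖ := norm_pos_iff.2 hz
      set u : H := ((‖z‖⁻¹ : ℝ) : ℂ) • z with hu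
      have hun : u ∈ Metric.sphere (0 : H) 1 := by
        rw [mem_sphere_zero_iff_norm, hu, norm_smul, Complex.norm_real,
          Real.norm_of_nonneg (by positivity), inv_mul_cancel₀ hzn.ne']
      obtain ⟨v, hvt, hv⟩ := Set.mem_iUnion₂.1 (htc hun)
      have hv' : 1 < ‖π (a * x v) u‖ := hv
      have h4 : ‖π (a * x v) u‖ = ‖z‖⁻¹ * ‖π (a * x v) z‖ := by
        rw [hu, map_smul, norm_smul, Complex.norm_real, Real.norm_of_nonneg (by positivity)]
      rw [h4] at hv'
      have h5 : ‖z‖ < ‖π (a * x v) z‖ := by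
        have := mul_lt_mul_of_pos_left hv' hzn
        rwa [mul_one, ← mul_assoc, mul_inv_cancel₀ hzn.ne', one_mul] at this
      have h6 : ‖π (a * x v) z‖ ^ 2 ≤ ∑ v ∈ t, ‖π (a * x v) z‖ ^ 2 :=
        Finset.single_le_sum (f := fun v => ‖π (a * x v) z‖ ^ 2) (fun v _ => by positivity) hvt
      have h7 : ‖z‖ ^ 2 ≤ ‖π (a * x v) z‖ ^ 2 := by gcongr
      linarith
  · intro D _ τ hτ
    rw [map_sum]
    refine Finset.sum_eq_zero fun v _ => ?_
    rw [map_mul, map_mul, hτ, zero_mul, mul_zero]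

end Pool.Agent.V1215.NI
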